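import Mathlib

-- merged part: Pool.Agent.Work.MP_34c70a_al.N.Wt
section
/-!
Weighted bases: support conditions in a basis of an algebra, multiplicative weight filtrations,
and their behaviour in towers.
-/

set_option autoImplicit false

open Module Polynomial

noncomputable section

namespace Pool.Agent.Work.MP_34c70a_al.N

section basic

variable {K R I : Type} [CommRing K] [CommRing R] [Algebra K R] (b : Basis I K R)

/-- The span of the basis vectors whose index satisfies `P`. -/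
def Sp (P : I → Prop) : Submodule K R := Submodule.span K (b '' {i | P i})

lemma mem_Sp {P : I → Prop} {x : R} : x ∈ Sp b P ↔ ∀ i, b.repr x i ≠ 0 → P i := by
  rw [Sp, Basis.mem_span_image]
  constructor
  · intro h i hi
    exact h (Finsupp.mem_support_iff.2 hi)
  · intro h i hi
    exact h i (Finsupp.mem_support_iff.1 hi)

lemma b_mem_Sp {P : I → Prop} {i : I} (h : P i) : b i ∈ Sp b P :=
  Submodule.subset_span ⟨i, h, rfl⟩

lemma Sp_mono {P Q : I → Prop} (h : ∀ i, P i → Q i) : Sp b P ≤ Sp b Q :=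
  Submodule.span_mono (Set.image_mono h)

lemma Sp_and {P Q : I → Prop} {x : R} (h : x ∈ Sp b P) (h' : x ∈ Sp b Q) :
    x ∈ Sp b (fun i => P i ∧ Q i) :=
  (mem_Sp b).2 fun i hi => ⟨(mem_Sp b).1 h i hi, (mem_Sp b).1 h' i hi⟩

lemma Sp_false {P : I → Prop} {x : R} (h : x ∈ Sp b P) (hP : ∀ i, ¬ P i) : x = 0 := by
  apply b.repr.injective
  ext i
  by_contra hi
  exact hP i ((mem_Sp b).1 h i (by simpa using hi))

lemma Sp_true {P : I → Prop} (hP : ∀ i, P i) (x : R) : x ∈ Sp b P :=
  (mem_Sp b).2 fun i _ => hP i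

lemma Sp_repr {P : I → Prop} {x : R} (h : x ∈ Sp b P) {i : I} (hi : ¬ P i) : b.repr x i = 0 := by
  by_contra h0
  exact hi ((mem_Sp b).1 h i h0)

lemma Sp_le {P : I → Prop} {N : Submodule K R} (h : ∀ i, P i → b i ∈ N) : Sp b P ≤ N := by
  rw [Sp, Submodule.span_le]
  rintro _ ⟨i, hi, rfl⟩
  exact h i hi

lemma Sp_induction {P : I → Prop} {Q : R → Prop} (h0 : Q 0)
    (hb : ∀ (c : K) (i : I), P i → Q (c • b i)) (ha : ∀ x y, Q x → Q y → Q (x + y))
    {x : R} (hx : x ∈ Sp b P) : Q x := by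
  rw [← b.linearCombination_repr x, Finsupp.linearCombination_apply, Finsupp.sum]
  refine Finset.sum_induction _ Q ha h0 fun i hi => hb _ i ?_
  exact (mem_Sp b).1 hx i (Finsupp.mem_support_iff.1 hi)

open Classical in
/-- The part of `x` supported on the indices satisfying `P`. -/
def res (P : I → Prop) (x : R) : R := b.repr.symm ((b.repr x).filter P)

open Classical in
lemma repr_res (P : I → Prop) (x : R) (i : I) :
    b.repr (res b P x) i = if P i then b.repr x i else 0 := by
  rw [res, LinearEquiv.apply_symm_apply, Finsupp.filter_apply]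

lemma res_mem (P : I → Prop) (x : R) : res b P x ∈ Sp b P := by
  rw [mem_Sp]
  intro i hi
  rw [repr_res] at hi
  by_contra h
  exact hi (if_neg h)

lemma res_mem_of {P Q : I → Prop} {x : R} (h : x ∈ Sp b Q) : res b P x ∈ Sp b Q := by
  rw [mem_Sp] at h ⊢
  intro i hi
  rw [repr_res] at hi
  apply h
  intro h0
  rw [h0, ite_self] at hi
  exact hi rfl

lemma sub_res_mem (P : I → Prop) (x : R) : x - res b P x ∈ Sp b (fun i => ¬ P i) := by
  rw [mem_Sp]
  intro i hi h
  rw [map_sub, Finsupp.sub_apply, repr_res, if_pos h, sub_self] at hi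
  exact hi rfl

/-- Splitting along a disjunction, keeping a side condition. -/
lemma Sp_split {P Q T : I → Prop} {x : R} (h : x ∈ Sp b T) (hT : ∀ i, T i → P i ∨ Q i) :
    ∃ y z, y ∈ Sp b (fun i => T i ∧ P i) ∧ z ∈ Sp b (fun i => T i ∧ Q i) ∧ x = y + z := by
  refine ⟨res b P x, x - res b P x, Sp_and b (res_mem_of b h) (res_mem b P x), ?_, by ring⟩
  have h1 := Sp_and b (sub_mem h (res_mem_of b h)) (sub_res_mem b P x)
  exact Sp_mono b (fun i hi => ⟨hi.1, (hT i hi.1).resolve_left hi.2⟩) h1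

lemma Sp_single {x : R} {i : I} (h : x ∈ Sp b (fun j => j = i)) : x = b.repr x i • b i := by
  apply b.repr.injective
  ext j
  by_cases hj : j = i
  · subst hj
    simp
  · rw [Sp_repr b h hj]
    simp [Finsupp.single_eq_of_ne hj]

/-- Multiplication by an element that shifts basis vectors. -/
lemma repr_shift {P : I → Prop} (m : R) (s : I → I)
    (hs : ∀ i j, P i → P j → s i = s j → i = j) (hm : ∀ i, P i → m * b i = b (s i))
    {x : R} (hx : x ∈ Sp b P) {i : I} (hi : P i) : b.repr (m * x) (s i) = b.repr x i := by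
  refine Sp_induction b (Q := fun x => b.repr (m * x) (s i) = b.repr x i) (by simp) ?_ ?_ hx
  · intro c j hj
    rw [mul_smul_comm, hm j hj]
    by_cases h : j = i
    · subst h
      simp
    · have h' : s j ≠ s i := fun e => h (hs j i hj hi e)
      simp [Finsupp.single_eq_of_ne' h, Finsupp.single_eq_of_ne' h']
  · intro x y hx hy
    simp only [mul_add, map_add, Finsupp.add_apply, hx, hy]

/-- Elements of weight at least `n`. -/
def V (w : I → ℤ) (n : ℤ) : Submodule K R := Sp b (fun i => n ≤ w i)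

lemma V_mono (w : I → ℤ) {m n : ℤ} (h : m ≤ n) : V b w n ≤ V b w m :=
  Sp_mono b fun _ hi => h.trans hi

lemma b_mem_V (w : I → ℤ) (i : I) : b i ∈ V b w (w i) := b_mem_Sp b le_rfl

lemma exists_V (w : I → ℤ) (x : R) : ∃ N : ℕ, x ∈ V b w (-N) := by
  refine Sp_induction b (P := fun _ => True) (Q := fun x => ∃ N : ℕ, x ∈ V b w (-N))
    ⟨0, zero_mem _⟩ ?_ ?_ (Sp_true b (fun _ => trivial) x)
  · intro c i _
    exact ⟨(w i).natAbs, Submodule.smul_mem _ _ (b_mem_Sp b (by omega))⟩
  · rintro x y ⟨m, hm⟩ ⟨n, hn⟩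
    exact ⟨m + n, add_mem (V_mono b w (by omega) hm) (V_mono b w (by omega) hn)⟩

/-- The weight filtration is multiplicative. -/
def WM (w : I → ℤ) : Prop := (1 : R) ∈ V b w 0 ∧ ∀ i j, b i * b j ∈ V b w (w i + w j)

variable {b}

lemma WM.mul {w : I → ℤ} (h : WM b w) {m n : ℤ} {x y : R} (hx : x ∈ V b w m)
    (hy : y ∈ V b w n) : x * y ∈ V b w (m + n) := by
  refine Sp_induction b (Q := fun x => x * y ∈ V b w (m + n)) (by simp) ?_ ?_ hx
  · intro c i hi
    refine Sp_induction b (Q := fun y => c • b i * y ∈ V b w (m + n)) (by simp) ?_ ?_ hy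
    · intro d j hj
      rw [smul_mul_smul_comm]
      exact Submodule.smul_mem _ _ (V_mono b w (add_le_add hi hj) (h.2 i j))
    · intro y z hy hz
      rw [mul_add]
      exact add_mem hy hz
  · intro x z hx hz
    rw [add_mul]
    exact add_mem hx hz

lemma WM.mul' {w : I → ℤ} (h : WM b w) {m n k : ℤ} {x y : R} (hx : x ∈ V b w m)
    (hy : y ∈ V b w n) (hk : k ≤ m + n) : x * y ∈ V b w k := V_mono b w hk (h.mul hx hy)

lemma WM.pow {w : I → ℤ} (h : WM b w) {m : ℤ} {x : R} (hx : x ∈ V b w m) (n : ℕ) :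
    x ^ n ∈ V b w (n * m) := by
  induction n with
  | zero => simpa using h.1
  | succ n ih =>
    rw [pow_succ]
    exact h.mul' ih hx (by push_cast; linarith)

lemma WM.prod {w : I → ℤ} (h : WM b w) {κ : Type} (s : Finset κ) (x : κ → R) (m : κ → ℤ)
    (hx : ∀ k ∈ s, x k ∈ V b w (m k)) : ∏ k ∈ s, x k ∈ V b w (∑ k ∈ s, m k) := by
  classical
  induction s using Finset.induction_on with
  | empty => simpa using h.1
  | insert a s ha ih =>
    rw [Finset.prod_insert ha, Finset.sum_insert ha]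
    exact h.mul (hx a (Finset.mem_insert_self _ _))
      (ih fun k hk => hx k (Finset.mem_insert_of_mem hk))

lemma WM.alg {w : I → ℤ} (h : WM b w) (c : K) : algebraMap K R c ∈ V b w 0 := by
  rw [Algebra.algebraMap_eq_smul_one]
  exact Submodule.smul_mem _ _ h.1

/-- Powers of two elements with the same leading part. -/
lemma WM.pow_sub {w : I → ℤ} (h : WM b w) {m : ℤ} {x y : R} (hx : x ∈ V b w m)
    (hy : y ∈ V b w m) (hxy : x - y ∈ V b w (m + 1)) (n : ℕ) :
    x ^ n - y ^ n ∈ V b w (n * m + 1) := by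
  induction n with
  | zero => simp
  | succ n ih =>
    have e : x ^ (n + 1) - y ^ (n + 1) = (x ^ n - y ^ n) * x + y ^ n * (x - y) := by ring
    rw [e]
    exact add_mem (h.mul' ih hx (by push_cast; linarith))
      (h.mul' (h.pow hy n) hxy (by push_cast; linarith))

/-- The subalgebra of elements of nonnegative weight. -/
def WM.sub {w : I → ℤ} (h : WM b w) : Subalgebra K R where
  carrier := V b w 0
  mul_mem' hx hy := h.mul' hx hy (by simp)
  add_mem' hx hy := add_mem hx hy
  algebraMap_mem' := h.alg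

lemma WM.mem_sub {w : I → ℤ} (h : WM b w) {x : R} : x ∈ h.sub ↔ x ∈ V b w 0 := Iff.rfl

/-- In a graded domain the elements of positive degree form a prime ideal of the
nonnegative part. -/
lemma WM.prime [IsDomain R] {w : I → ℤ} (h : WM b w) (h' : WM b (fun i => - w i)) {x y : R}
    (hx : x ∈ V b w 0) (hy : y ∈ V b w 0) (hxy : x * y ∈ V b w 1) :
    x ∈ V b w 1 ∨ y ∈ V b w 1 := by
  obtain ⟨x0, x1, hx0, hx1, rfl⟩ := Sp_split b (P := fun i => 0 ≤ - w i) (Q := fun i => 1 ≤ w i) hx
    (fun i _ => by omega)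
  obtain ⟨y0, y1, hy0, hy1, rfl⟩ := Sp_split b (P := fun i => 0 ≤ - w i) (Q := fun i => 1 ≤ w i) hy
    (fun i _ => by omega)
  have a1 : x1 ∈ V b w 1 := Sp_mono b (fun _ h => h.2) hx1
  have b1 : y1 ∈ V b w 1 := Sp_mono b (fun _ h => h.2) hy1
  have a0 : x0 ∈ V b w 0 := Sp_mono b (fun _ h => h.1) hx0
  have e : x0 * y0 = (x0 + x1) * (y0 + y1) - x1 * (y0 + y1) - x0 * y1 := by ring
  have h1 : x0 * y0 ∈ V b w 1 := by
    rw [e]
    exact sub_mem (sub_mem hxy (h.mul' a1 hy (by simp))) (h.mul' a0 b1 (by simp))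
  have h2 : x0 * y0 ∈ V b (fun i => - w i) 0 :=
    h'.mul' (m := 0) (n := 0) (Sp_mono b (fun _ h => h.2) hx0) (Sp_mono b (fun _ h => h.2) hy0)
      (by simp)
  have h3 : x0 * y0 = 0 := Sp_false b (Sp_and b h1 h2) (fun i hi => by dsimp only at hi; omega)
  rcases mul_eq_zero.1 h3 with h4 | h4
  · left
    rwa [h4, zero_add]
  · right
    rwa [h4, zero_add]

/-- In a graded domain, a quotient of two elements of degree zero has nonnegative degree. -/
lemma WM.div [IsDomain R] {w : I → ℤ} (h : WM b w) (h' : WM b (fun i => - w i)) {s y : R}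
    (hs : s ∈ V b w 0) (hs' : s ∈ V b (fun i => - w i) 0) (h0 : s ≠ 0) (hy : s * y ∈ V b w 0) :
    y ∈ V b w 0 := by
  obtain ⟨N, hN⟩ := exists_V b w y
  induction N with
  | zero => simpa using hN
  | succ N ih =>
    apply ih
    obtain ⟨y0, y1, hy0, hy1, rfl⟩ := Sp_split b (P := fun i => (N + 1 : ℤ) ≤ - w i)
      (Q := fun i => - (N : ℤ) ≤ w i) hN (fun i _ => by omega)
    have b1 : y1 ∈ V b w (-N) := Sp_mono b (fun _ h => h.2) hy1
    have h1 : s * y0 ∈ V b w (-N) := by
      have e : s * y0 = s * (y0 + y1) - s * y1 := by ring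
      rw [e]
      exact sub_mem (V_mono b w (by omega) hy) (h.mul' hs b1 (by simp))
    have h2 : s * y0 ∈ V b (fun i => - w i) (N + 1) :=
      h'.mul' (n := N + 1) hs' (Sp_mono b (fun _ h => h.2) hy0) (by simp)
    have h3 : s * y0 = 0 := Sp_false b (Sp_and b h1 h2) (fun i hi => by dsimp only at hi; omega)
    rwa [(mul_eq_zero.1 h3).resolve_left h0, zero_add]

end basic

section tower

variable {K R R' I J : Type} [CommRing K] [CommRing R] [CommRing R'] [Algebra K R] [Algebra R R']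
  [Algebra K R'] [IsScalarTower K R R'] (b : Basis I K R) (c : Basis J R R')

lemma smul_mem_Sp {P : I → Prop} {Q : I × J → Prop} {x : R} (hx : x ∈ Sp b P) (j : J)
    (h : ∀ i, P i → Q (i, j)) : x • c j ∈ Sp (b.smulTower c) Q := by
  refine Sp_induction b (Q := fun x => x • c j ∈ Sp (b.smulTower c) Q) (by simp) ?_ ?_ hx
  · intro a i hi
    rw [smul_assoc]
    refine Submodule.smul_mem _ _ ?_
    have := b_mem_Sp (b.smulTower c) (h i hi)
    rwa [Basis.smulTower_apply] at this
  · intro x y hx hy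
    rw [add_smul]
    exact add_mem hx hy

lemma mem_Sp_tower {Q : I × J → Prop} {y : R'} :
    y ∈ Sp (b.smulTower c) Q ↔ ∀ j, c.repr y j ∈ Sp b (fun i => Q (i, j)) := by
  simp only [mem_Sp, Prod.forall, Basis.smulTower_repr_mk]
  exact forall_comm

variable {b}

/-- Adjoining a root of `X ^ r - c₁ X - c₀`. -/
lemma WM.ext {w : I → ℤ} (h : WM b w) {r : ℕ} (hr : 2 ≤ r) (c : Basis (Fin r) R R') (ζ : R')
    (hc : ∀ j, c j = ζ ^ (j : ℕ)) (c₁ c₀ : R) (d : ℤ)
    (rel : ζ ^ r = algebraMap R R' c₁ * ζ + algebraMap R R' c₀)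
    (h₁ : c₁ ∈ V b w ((r - 1) * d)) (h₀ : c₀ ∈ V b w (r * d)) :
    WM (b.smulTower c) (fun i => w i.1 + (i.2 : ℕ) * d) := by
  have key : ∀ (n : ℕ) (m : ℤ) (x : R), x ∈ V b w m →
      x • ζ ^ n ∈ V (b.smulTower c) (fun i => w i.1 + (i.2 : ℕ) * d) (m + n * d) := by
    intro n
    induction n using Nat.strong_induction_on with
    | _ n ih =>
      intro m x hx
      by_cases hn : n < r
      · have := hc ⟨n, hn⟩
        rw [← this]
        exact smul_mem_Sp b c hx _ (fun i hi => by simpa using hi)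
      · obtain ⟨k, rfl⟩ : ∃ k, n = k + r := ⟨n - r, by omega⟩
        have e : x • ζ ^ (k + r) = (x * c₁) • ζ ^ (k + 1) + (x * c₀) • ζ ^ k := by
          rw [pow_add, rel]
          simp only [Algebra.smul_def, map_mul]
          ring
        rw [e]
        refine add_mem (V_mono _ _ ?_ (ih (k + 1) (by omega) _ _ (h.mul hx h₁)))
          (V_mono _ _ ?_ (ih k (by omega) _ _ (h.mul hx h₀)))
        · push_cast
          linarith
        · push_cast
          linarith
  refine ⟨by simpa using key 0 0 1 h.1, fun i j => ?_⟩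
  rw [Basis.smulTower_apply, Basis.smulTower_apply, hc, hc, smul_mul_smul_comm, ← pow_add]
  refine V_mono _ _ ?_ (key _ _ _ (h.2 i.1 j.1))
  push_cast
  linarith

/-- Adjoining free variables of weight zero. -/
lemma WM.mv {σ : Type} {w : I → ℤ} (h : WM b w) :
    WM (b.smulTower (MvPolynomial.basisMonomials σ R)) (fun i => w i.1) := by
  refine ⟨?_, fun i j => ?_⟩
  · have := smul_mem_Sp b (MvPolynomial.basisMonomials σ R) (Q := fun i => 0 ≤ w i.1) h.1 0
      (fun _ hi => hi)
    simpa [V] using this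
  · rw [Basis.smulTower_apply, Basis.smulTower_apply, smul_mul_smul_comm]
    have := smul_mem_Sp b (MvPolynomial.basisMonomials σ R) (Q := fun k => w i.1 + w j.1 ≤ w k.1)
      (h.2 i.1 j.1) (i.2 + j.2) (fun _ hi => hi)
    simpa [MvPolynomial.monomial_mul, V] using this

end tower

lemma Sp_reindex {K R I J : Type} [CommRing K] [CommRing R] [Algebra K R] (b : Basis I K R)
    (e : I ≃ J) (P : J → Prop) : Sp (b.reindex e) P = Sp b (fun i => P (e i)) := by
  ext x
  simp only [mem_Sp, Basis.repr_reindex_apply]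
  constructor
  · intro h i hi
    exact h (e i) (by simpa using hi)
  · intro h j hj
    simpa using h _ hj

lemma WM.reindex {K R I J : Type} [CommRing K] [CommRing R] [Algebra K R] {b : Basis I K R}
    (e : I ≃ J) {w : J → ℤ} (h : WM b (fun i => w (e i))) : WM (b.reindex e) w := by
  refine ⟨?_, fun i j => ?_⟩
  · rw [V, Sp_reindex]
    exact h.1
  · rw [V, Sp_reindex, Basis.reindex_apply, Basis.reindex_apply]
    simpa [V] using h.2 (e.symm i) (e.symm j)

/-- Laurent monomials with an additive weight. -/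
lemma WM.laurent (K G : Type) [CommRing K] [AddCommGroup G] (w : G →+ ℤ) :
    WM (AddMonoidAlgebra.basis G K) w := by
  refine ⟨?_, fun i j => ?_⟩
  · have := b_mem_V (AddMonoidAlgebra.basis G K) w 0
    rwa [map_zero] at this
  · have := b_mem_V (AddMonoidAlgebra.basis G K) w (i + j)
    rw [map_add] at this
    simpa [AddMonoidAlgebra.single_mul_single] using this

section ex

variable {A : Type} [CommRing A]

/-- The polynomial `X ^ r - c₁ X - c₀`. -/
def pq (r : ℕ) (c₁ c₀ : A) : A[X] := X ^ r - (C c₁ * X + C c₀)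

lemma pq_lt {r : ℕ} (hr : 2 ≤ r) (c₁ c₀ : A) : (C c₁ * X + C c₀ : A[X]).degree < r :=
  lt_of_le_of_lt degree_linear_le (by exact_mod_cast hr)

lemma pq_monic {r : ℕ} (hr : 2 ≤ r) (c₁ c₀ : A) : (pq r c₁ c₀).Monic :=
  monic_X_pow_sub (pq_lt hr c₁ c₀)

lemma pq_deg [Nontrivial A] {r : ℕ} (hr : 2 ≤ r) (c₁ c₀ : A) : (pq r c₁ c₀).natDegree = r := by
  rw [pq, natDegree_sub_eq_left_of_natDegree_lt, natDegree_X_pow]
  rw [natDegree_X_pow]
  exact lt_of_le_of_lt natDegree_linear_le hr

/-- The basis of powers of the root. -/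
def exB [Nontrivial A] {r : ℕ} (hr : 2 ≤ r) (c₁ c₀ : A) :
    Basis (Fin r) A (AdjoinRoot (pq r c₁ c₀)) :=
  (AdjoinRoot.powerBasis' (pq_monic hr c₁ c₀)).basis.reindex (finCongr (pq_deg hr c₁ c₀))

lemma exB_apply [Nontrivial A] {r : ℕ} (hr : 2 ≤ r) (c₁ c₀ : A) (j : Fin r) :
    exB hr c₁ c₀ j = AdjoinRoot.root (pq r c₁ c₀) ^ (j : ℕ) := by
  rw [exB, Basis.reindex_apply, PowerBasis.basis_eq_pow]
  rfl

lemma ex_rel (r : ℕ) (c₁ c₀ : A) : AdjoinRoot.root (pq r c₁ c₀) ^ r =
    algebraMap A _ c₁ * AdjoinRoot.root (pq r c₁ c₀) + algebraMap A _ c₀ := by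
  have := AdjoinRoot.eval₂_root (pq r c₁ c₀)
  rw [pq] at this
  simp only [eval₂_sub, eval₂_add, eval₂_mul, eval₂_C, eval₂_X, eval₂_X_pow] at this
  exact sub_eq_zero.1 this

lemma ex_nontrivial [Nontrivial A] {r : ℕ} (hr : 2 ≤ r) (c₁ c₀ : A) :
    Nontrivial (AdjoinRoot (pq r c₁ c₀)) :=
  nontrivial_of_ne _ _ ((exB hr c₁ c₀).ne_zero ⟨0, by omega⟩)

/-- The universal property. -/
def exLift {F : Type} [CommRing F] (r : ℕ) (c₁ c₀ : A) (θ : A →+* F) (x : F)
    (h : x ^ r = θ c₁ * x + θ c₀) : AdjoinRoot (pq r c₁ c₀) →+* F :=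
  AdjoinRoot.lift θ x (by
    simp only [pq, eval₂_sub, eval₂_add, eval₂_mul, eval₂_C, eval₂_X, eval₂_X_pow]
    exact sub_eq_zero.2 h)

lemma exLift_root {F : Type} [CommRing F] (r : ℕ) (c₁ c₀ : A) (θ : A →+* F) (x : F)
    (h : x ^ r = θ c₁ * x + θ c₀) : exLift r c₁ c₀ θ x h (AdjoinRoot.root _) = x :=
  AdjoinRoot.lift_root _

lemma exLift_alg {F : Type} [CommRing F] (r : ℕ) (c₁ c₀ : A) (θ : A →+* F) (x : F)
    (h : x ^ r = θ c₁ * x + θ c₀) (a : A) : exLift r c₁ c₀ θ x h (algebraMap A _ a) = θ a :=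
  AdjoinRoot.lift_of _

/-- Shifting the generator of a power basis. -/
lemma exists_shift {B : Type} [CommRing B] [Algebra A B] {r : ℕ} (c : Basis (Fin r) A B) (ζ : B)
    (hc : ∀ j, c j = ζ ^ (j : ℕ)) (a : A) :
    ∃ c' : Basis (Fin r) A B, ∀ j, c' j = (ζ + algebraMap A B a) ^ (j : ℕ) := by
  let T : B →ₗ[A] B := c.constr A (fun j => (ζ + algebraMap A B a) ^ (j : ℕ))
  have hT : ∀ j, T (c j) = (ζ + algebraMap A B a) ^ (j : ℕ) := fun j => c.constr_basis A _ j
  have h1 : ∀ n, n < r → ζ ^ n ∈ LinearMap.range T := by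
    intro n hn
    have e : ζ = (ζ + algebraMap A B a) + algebraMap A B (-a) := by simp
    rw [e, add_pow]
    refine Submodule.sum_mem _ fun m hm => ?_
    have hm' : m < r := lt_of_lt_of_le (Finset.mem_range.1 hm) hn
    rw [← map_pow, ← map_natCast (algebraMap A B), mul_assoc, ← map_mul, mul_comm,
      ← Algebra.smul_def]
    exact Submodule.smul_mem _ _ ⟨c ⟨m, hm'⟩, hT _⟩
  have h2 : Function.Surjective T := by
    rw [← LinearMap.range_eq_top, eq_top_iff, ← c.span_eq, Submodule.span_le]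
    rintro _ ⟨j, rfl⟩
    rw [hc]
    exact h1 _ j.2
  have : Module.Finite A B := Module.Finite.of_basis c
  have h3 : Function.Injective T := OrzechProperty.injective_of_surjective_endomorphism T h2
  exact ⟨c.map (LinearEquiv.ofBijective T ⟨h3, h2⟩), fun j => by simp [hT]⟩

end ex

end Pool.Agent.Work.MP_34c70a_al.N
end
end

-- merged part: Pool.Agent.Work.MP_34c70a_al.N.L2
section
/-!
The coordinate ring of a product of two generic plane cubic cones with four coordinates inverted.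
-/

set_option autoImplicit false

open Module

noncomputable section

namespace Pool.Agent.Work.MP_34c70a_al.N

variable (p : ℕ) [Fact p.Prime]

/-- The ring of the four parameters of the two cubics. -/
abbrev K1 : Type := MvPolynomial (Bool × Bool) (ZMod p)

/-- Exponent vectors of Laurent monomials. -/
abbrev GG : Type := Bool × Bool → ℤ

/-- Laurent polynomials in four variables. -/
abbrev L0 : Type := AddMonoidAlgebra (K1 p) GG

/-- Unit exponent vectors. -/
def sg (d k : Bool) : GG := Pi.single (d, k) 1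

/-- The parameters. -/
def tt (d k : Bool) : K1 p := MvPolynomial.X (d, k)

/-- Laurent monomials. -/
def m0 (v : GG) : L0 p := AddMonoidAlgebra.single v 1

/-- Linear coefficient of the cubic. -/
def cu1 (d : Bool) : L0 p := m0 p (sg d false) * m0 p (sg d true)

/-- Constant coefficient of the cubic. -/
def cu0 (d : Bool) : L0 p :=
  tt p d false • m0 p (sg d false) ^ 3 + tt p d true • m0 p (sg d true) ^ 3

/-- The first cubic. -/
abbrev L1 : Type := AdjoinRoot (pq 3 (cu1 p false) (cu0 p false))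

instance : Nontrivial (L1 p) := ex_nontrivial (by norm_num) _ _

/-- The second cubic. -/
def L2 : Type :=
  AdjoinRoot (pq 3 (algebraMap (L0 p) (L1 p) (cu1 p true)) (algebraMap (L0 p) (L1 p) (cu0 p true)))

instance : CommRing (L2 p) := inferInstanceAs (CommRing (AdjoinRoot _))
instance : Algebra (K1 p) (L2 p) := inferInstanceAs (Algebra _ (AdjoinRoot _))
instance : Algebra (L1 p) (L2 p) := inferInstanceAs (Algebra _ (AdjoinRoot _))
instance : IsScalarTower (K1 p) (L1 p) (L2 p) :=
  inferInstanceAs (IsScalarTower _ _ (AdjoinRoot _))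
instance : Nontrivial (L2 p) := ex_nontrivial (by norm_num) _ _

/-- Laurent monomials in `L2`. -/
def mo (v : GG) : L2 p := algebraMap (L1 p) (L2 p) (algebraMap (L0 p) (L1 p) (m0 p v))

/-- The third coordinates. -/
def w2 : Bool → L2 p
  | false => algebraMap (L1 p) (L2 p) (AdjoinRoot.root _)
  | true => (AdjoinRoot.root _ : AdjoinRoot _)

/-- The six coordinates. -/
def ww (d : Bool) : Option Bool → L2 p
  | none => w2 p d
  | some k => mo p (sg d k)

lemma m0_add (u v : GG) : m0 p (u + v) = m0 p u * m0 p v := by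
  simp [m0, AddMonoidAlgebra.single_mul_single]

lemma mo_add (u v : GG) : mo p (u + v) = mo p u * mo p v := by
  simp only [mo, m0_add, map_mul]

lemma mo_zero : mo p 0 = 1 := by
  have : m0 p 0 = 1 := rfl
  simp only [mo, this, map_one]

lemma mo_nsmul (n : ℕ) (v : GG) : mo p (n • v) = mo p v ^ n := by
  induction n with
  | zero => rw [zero_nsmul, pow_zero, mo_zero]
  | succ n ih => rw [succ_nsmul, mo_add, ih, pow_succ]

lemma mo_neg (v : GG) : mo p v * mo p (-v) = 1 := by rw [← mo_add, add_neg_cancel, mo_zero]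

lemma alg_smul (c : K1 p) (x : L0 p) :
    algebraMap (L1 p) (L2 p) (algebraMap (L0 p) (L1 p) (c • x)) =
      c • algebraMap (L1 p) (L2 p) (algebraMap (L0 p) (L1 p) x) := by
  rw [Algebra.smul_def, Algebra.smul_def, map_mul, map_mul,
    IsScalarTower.algebraMap_apply (K1 p) (L1 p) (L2 p),
    IsScalarTower.algebraMap_apply (K1 p) (L0 p) (L1 p)]

lemma alg_cu1 (d : Bool) : algebraMap (L1 p) (L2 p) (algebraMap (L0 p) (L1 p) (cu1 p d)) =
    mo p (sg d false) * mo p (sg d true) := by
  have : cu1 p d = m0 p (sg d false) * m0 p (sg d true) := rfl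
  rw [this, map_mul, map_mul, mo, mo]

lemma alg_cu0 (d : Bool) : algebraMap (L1 p) (L2 p) (algebraMap (L0 p) (L1 p) (cu0 p d)) =
    tt p d false • mo p (sg d false) ^ 3 + tt p d true • mo p (sg d true) ^ 3 := by
  have : cu0 p d = tt p d false • m0 p (sg d false) ^ 3 + tt p d true • m0 p (sg d true) ^ 3 := rfl
  rw [this, map_add, map_add, alg_smul, alg_smul, map_pow, map_pow, map_pow, map_pow, mo, mo]

lemma w2_rel (d : Bool) : w2 p d ^ 3 = mo p (sg d false) * mo p (sg d true) * w2 p d +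
    (tt p d false • mo p (sg d false) ^ 3 + tt p d true • mo p (sg d true) ^ 3) := by
  cases d
  · have := congrArg (algebraMap (L1 p) (L2 p)) (ex_rel 3 (cu1 p false) (cu0 p false))
    rw [map_pow, map_add, map_mul, alg_cu1, alg_cu0] at this
    exact this
  · have := ex_rel 3 (algebraMap (L0 p) (L1 p) (cu1 p true)) (algebraMap (L0 p) (L1 p) (cu0 p true))
    refine this.trans ?_
    change algebraMap (L1 p) (L2 p) _ * w2 p true + algebraMap (L1 p) (L2 p) _ = _
    rw [alg_cu1, alg_cu0]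

/-- Indices of the monomial basis. -/
abbrev I2 : Type := GG × (Bool → Fin 3)

/-- Reindexing. -/
def eI : (GG × Fin 3) × Fin 3 ≃ I2 where
  toFun x := (x.1.1, fun d => if d then x.2 else x.1.2)
  invFun x := ((x.1, x.2 false), x.2 true)
  left_inv _ := rfl
  right_inv x := by
    ext d
    · rfl
    · cases d <;> rfl

/-- Basis of the second cubic over the first. -/
def c2 : Basis (Fin 3) (L1 p) (L2 p) := exB (by norm_num) _ _

lemma c2_apply (j : Fin 3) : c2 p j = w2 p true ^ (j : ℕ) := exB_apply _ _ _ j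

/-- The monomial basis. -/
def b2 : Basis I2 (K1 p) (L2 p) :=
  (((AddMonoidAlgebra.basis GG (K1 p)).smulTower
    (exB (by norm_num : 2 ≤ 3) (cu1 p false) (cu0 p false))).smulTower (c2 p)).reindex eI

lemma b2_apply (v : GG) (a : Bool → Fin 3) :
    b2 p (v, a) = mo p v * w2 p false ^ (a false : ℕ) * w2 p true ^ (a true : ℕ) := by
  rw [b2, Basis.reindex_apply, Basis.smulTower_apply, Basis.smulTower_apply, c2_apply, exB_apply]
  simp only [Algebra.smul_def, map_mul, map_pow]
  rfl

/-- Linear weights on the monomial basis. -/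
def wt2 (c : Bool × Bool → ℤ) (e : Bool → ℤ) (i : I2) : ℤ :=
  c (false, false) * i.1 (false, false) + c (false, true) * i.1 (false, true) +
    c (true, false) * i.1 (true, false) + c (true, true) * i.1 (true, true) +
    (i.2 false : ℕ) * e false + (i.2 true : ℕ) * e true

/-- The Laurent part of the weight. -/
def wt0 (c : Bool × Bool → ℤ) : GG →+ ℤ where
  toFun v := c (false, false) * v (false, false) + c (false, true) * v (false, true) +
    c (true, false) * v (true, false) + c (true, true) * v (true, true)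
  map_zero' := by simp
  map_add' u v := by
    simp only [Pi.add_apply]
    ring

lemma wt0_sg (c : Bool × Bool → ℤ) (d k : Bool) : wt0 c (sg d k) = c (d, k) := by
  cases d <;> cases k <;> simp [wt0, sg]

lemma cu_mem (c : Bool × Bool → ℤ) (e : ℤ) (d : Bool) (h : ∀ k, e ≤ c (d, k)) :
    cu1 p d ∈ V (AddMonoidAlgebra.basis GG (K1 p)) (wt0 c) (((3 : ℕ) - 1) * e) ∧
    cu0 p d ∈ V (AddMonoidAlgebra.basis GG (K1 p)) (wt0 c) ((3 : ℕ) * e) := by
  have W := WM.laurent (K1 p) GG (wt0 c)
  have a : ∀ k, m0 p (sg d k) ∈ V (AddMonoidAlgebra.basis GG (K1 p)) (wt0 c) e := fun k =>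
    b_mem_Sp (AddMonoidAlgebra.basis GG (K1 p)) (i := sg d k) (by rw [wt0_sg]; exact h k)
  refine ⟨W.mul' (a false) (a true) (by push_cast; linarith), ?_⟩
  exact add_mem (Submodule.smul_mem _ _ (W.pow (a false) 3))
    (Submodule.smul_mem _ _ (W.pow (a true) 3))

theorem wm2 (c : Bool × Bool → ℤ) (e : Bool → ℤ) (h : ∀ d k, e d ≤ c (d, k)) :
    WM (b2 p) (wt2 c e) := by
  have W := WM.laurent (K1 p) GG (wt0 c)
  have W1 := W.ext (by norm_num : 2 ≤ 3) (exB (by norm_num : 2 ≤ 3) (cu1 p false) (cu0 p false)) _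
    (exB_apply _ _ _) _ _ (e false) (ex_rel 3 _ _) (cu_mem p c _ false (h false)).1
    (cu_mem p c _ false (h false)).2
  have up : ∀ (x : L0 p) (n : ℤ), x ∈ V (AddMonoidAlgebra.basis GG (K1 p)) (wt0 c) n →
      algebraMap (L0 p) (L1 p) x ∈ V ((AddMonoidAlgebra.basis GG (K1 p)).smulTower
        (exB (by norm_num : 2 ≤ 3) (cu1 p false) (cu0 p false)))
        (fun i => wt0 c i.1 + (i.2 : ℕ) * e false) n := by
    intro x n hx
    have := smul_mem_Sp _ (exB (by norm_num : 2 ≤ 3) (cu1 p false) (cu0 p false))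
      (Q := fun i => n ≤ wt0 c i.1 + (i.2 : ℕ) * e false) hx 0 (fun i hi => by simpa using hi)
    rwa [exB_apply, Fin.val_zero, pow_zero, ← Algebra.algebraMap_eq_smul_one] at this
  have W2 := W1.ext (by norm_num : 2 ≤ 3) (c2 p) _ (c2_apply p) _ _ (e true) (ex_rel 3 _ _)
    (up _ _ (cu_mem p c _ true (h true)).1) (up _ _ (cu_mem p c _ true (h true)).2)
  exact WM.reindex eI W2

/-- The degree in the first (`false`) or second (`true`) group of coordinates. -/
def dg (d : Bool) (i : I2) : ℤ := i.1 (d, false) + i.1 (d, true) + (i.2 d : ℕ)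

/-- Combinations of the two degrees. -/
def wG2 (a b : ℤ) (i : I2) : ℤ := a * dg false i + b * dg true i

lemma wm_ex (k : Bool × Bool) : WM (b2 p) (fun i => i.1 k) := by
  have := wm2 p (Pi.single k 1) 0 (fun d j => by
    simp only [Pi.zero_apply, Pi.single_apply]
    split_ifs <;> simp)
  have e : wt2 (Pi.single k 1) 0 = fun i => i.1 k := by
    funext i
    obtain ⟨d, j⟩ := k
    cases d <;> cases j <;> simp [wt2]
  rwa [e] at this

lemma wm_G (a b : ℤ) : WM (b2 p) (wG2 a b) := by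
  have := wm2 p (fun k => if k.1 then b else a) (fun d => if d then b else a) (fun _ _ => le_rfl)
  have e : wt2 (fun k => if k.1 then b else a) (fun d => if d then b else a) = wG2 a b := by
    funext i
    simp only [wt2, wG2, dg, if_true, Bool.false_eq_true, if_false]
    ring
  rwa [e] at this

lemma wm_zero : WM (b2 p) (fun _ => 0) :=
  ⟨Sp_true _ (fun _ => le_rfl) _, fun _ _ => Sp_true _ (fun _ => by simp) _⟩

lemma mo_eq (v : GG) : mo p v = b2 p (v, 0) := by simp [b2_apply]

lemma w2_eq (d : Bool) : w2 p d = b2 p (0, Pi.single d 1) := by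
  cases d <;> simp [b2_apply, mo_zero]

/-- The index of the class `w₂ ^ 2 / (w₀ w₁)`. -/
def iE (d : Bool) : I2 := (-sg d false - sg d true, Pi.single d 2)

/-- The class `w₂ ^ 2 / (w₀ w₁)`. -/
def ee (d : Bool) : L2 p := b2 p (iE d)

lemma ee_eq (d : Bool) : ee p d = mo p (-sg d false - sg d true) * w2 p d ^ 2 := by
  cases d <;> simp [ee, iE, b2_apply]

lemma mo_mul_b2 (u : GG) (i : I2) : mo p u * b2 p i = b2 p (u + i.1, i.2) := by
  obtain ⟨v, a⟩ := i
  rw [b2_apply, b2_apply, mo_add]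
  ring

instance : CharP (L2 p) p :=
  charP_of_injective_algebraMap (R := K1 p) (by
    rw [injective_iff_map_eq_zero]
    intro c hc
    have h1 : c • b2 p (0, 0) = 0 := by rw [Algebra.smul_def, hc, zero_mul]
    simpa using congrArg (fun x => (b2 p).repr x (0, 0)) h1) p

/-- The Hasse invariant of the first cubic. -/
def lam : K1 p := (b2 p).repr (ee p false ^ p) (iE false)

/-- The two regular parts of the Frobenius power of the class. -/
def gg : Bool → L2 p
  | false => res (b2 p) (fun i => 0 ≤ i.1 (false, true)) (ee p false ^ p)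
  | true => -res (b2 p) (fun i => i.1 (false, true) < 0 ∧ 0 ≤ i.1 (false, false)) (ee p false ^ p)

/-- Indices free of the second group of coordinates and of degree zero. -/
def Pure (i : I2) : Prop :=
  i.1 (true, false) = 0 ∧ i.1 (true, true) = 0 ∧ i.2 true = 0 ∧ dg false i = 0

lemma e_pow_mem : ee p false ^ p ∈ Sp (b2 p) Pure := by
  have h1 := (wm_ex p (true, false)).pow (b_mem_V (b2 p) _ (iE false)) p
  have h2 := (wm_ex p (true, true)).pow (b_mem_V (b2 p) _ (iE false)) p
  have h3 := (wm_G p 0 (-1)).pow (b_mem_V (b2 p) _ (iE false)) p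
  have h4 := (wm_G p 1 0).pow (b_mem_V (b2 p) _ (iE false)) p
  have h5 := (wm_G p (-1) 0).pow (b_mem_V (b2 p) _ (iE false)) p
  refine Sp_mono _ ?_ (Sp_and _ h1 (Sp_and _ h2 (Sp_and _ h3 (Sp_and _ h4 h5))))
  intro i hi
  simp [iE, sg, wG2, dg] at hi
  refine ⟨by omega, by omega, Fin.ext (by simp; omega), ?_⟩
  simp only [dg]
  omega

lemma gg_mem (k : Bool) : gg p k ∈ Sp (b2 p) (fun i => Pure i ∧ 0 ≤ i.1 (false, !k)) := by
  cases k
  · exact Sp_and _ (res_mem_of _ (e_pow_mem p)) (res_mem _ _ _)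
  · exact neg_mem (Sp_and _ (res_mem_of _ (e_pow_mem p))
      (Sp_mono _ (fun _ h => h.2) (res_mem _ _ _)))

lemma pure_neg {i : I2} (h : Pure i) (h0 : i.1 (false, false) < 0) (h1 : i.1 (false, true) < 0) :
    i = iE false := by
  obtain ⟨a, b, c, d⟩ := h
  have := (i.2 false).2
  simp only [dg] at d
  refine Prod.ext (funext fun ⟨x, y⟩ => ?_) (funext fun x => ?_)
  · cases x <;> cases y <;> simp [iE, sg] <;> omega
  · cases x
    · exact Fin.ext (by simp [iE]; omega)
    · simpa [iE] using c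

lemma e_pow : ee p false ^ p = lam p • ee p false + gg p false - gg p true := by
  apply (b2 p).repr.injective
  ext i
  simp only [gg, map_sub, map_add, map_neg, map_smul, Finsupp.sub_apply, Finsupp.add_apply,
    Finsupp.neg_apply, Finsupp.smul_apply, repr_res, smul_eq_mul]
  by_cases hi : i = iE false
  · subst hi
    simp [ee, lam, iE, sg]
  · have h0 : (b2 p).repr (ee p false) i = 0 := by simp [ee, Finsupp.single_eq_of_ne hi]
    rw [h0]
    by_cases h1 : 0 ≤ i.1 (false, true)
    · simp [h1, not_lt.2 h1]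
    · by_cases h2 : 0 ≤ i.1 (false, false)
      · simp [h1, h2, not_le.1 h1]
      · rw [Sp_repr _ (e_pow_mem p) (fun h => hi (pure_neg h (not_le.1 h2) (not_le.1 h1)))]
        simp

/-- The universal property of `L2`. -/
theorem exists_lift2 {F : Type} [CommRing F] (θ : K1 p →+* F) (U : Bool × Bool → Fˣ)
    (W : Bool → F)
    (h : ∀ d, W d ^ 3 = U (d, false) * U (d, true) * W d +
      (θ (tt p d false) * U (d, false) ^ 3 + θ (tt p d true) * U (d, true) ^ 3)) :
    ∃ Θ : L2 p →+* F, (∀ c, Θ (algebraMap (K1 p) (L2 p) c) = θ c) ∧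
      (∀ d k, Θ (mo p (sg d k)) = U (d, k)) ∧ ∀ d, Θ (w2 p d) = W d := by
  let μ : Multiplicative GG →* F := (Units.coeHom F).comp
    { toFun := fun v => ∏ k, U k ^ (Multiplicative.toAdd v k)
      map_one' := by simp
      map_mul' := fun u v => by simp [zpow_add, Finset.prod_mul_distrib] }
  let θ0 : L0 p →+* F := AddMonoidAlgebra.liftNCRingHom θ μ (fun _ _ => Commute.all _ _)
  have a0 : ∀ v c, θ0 (AddMonoidAlgebra.single v c) = θ c * μ (Multiplicative.ofAdd v) :=
    fun v c => AddMonoidAlgebra.liftNC_single _ _ _ _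
  have a1 : ∀ d k, θ0 (m0 p (sg d k)) = U (d, k) := by
    intro d k
    rw [m0, a0, map_one, one_mul]
    simp [μ, sg, Pi.single_apply]
  have a2 : ∀ c, θ0 (algebraMap (K1 p) (L0 p) c) = θ c := by
    intro c
    have : algebraMap (K1 p) (L0 p) c = AddMonoidAlgebra.single 0 c := rfl
    rw [this, a0]
    simp [μ]
  have a3 : ∀ d, W d ^ 3 = θ0 (cu1 p d) * W d + θ0 (cu0 p d) := by
    intro d
    simp only [cu1, cu0, Algebra.smul_def, map_add, map_mul, map_pow, a1, a2]
    exact h d
  let θ1 : L1 p →+* F := exLift 3 _ _ θ0 (W false) (a3 false)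
  have a4 : ∀ x, θ1 (algebraMap (L0 p) (L1 p) x) = θ0 x := exLift_alg _ _ _ _ _ _
  let θ2 : L2 p →+* F := exLift 3 _ _ θ1 (W true) (by rw [a4, a4]; exact a3 true)
  have a5 : ∀ x, θ2 (algebraMap (L1 p) (L2 p) x) = θ1 x := exLift_alg _ _ _ _ _ _
  refine ⟨θ2, fun c => ?_, fun d k => ?_, fun d => ?_⟩
  · rw [IsScalarTower.algebraMap_apply (K1 p) (L1 p) (L2 p), a5,
      IsScalarTower.algebraMap_apply (K1 p) (L0 p) (L1 p), a4, a2]
  · rw [mo, a5, a4, a1]
  · cases d
    · rw [w2, a5]
      exact exLift_root _ _ _ _ _ _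
    · exact exLift_root _ _ _ _ _ _

end Pool.Agent.Work.MP_34c70a_al.N
end
end

-- merged part: Pool.Agent.Work.MP_34c70a_al.N.Soc
section
/-!
Frobenius is injective on the top cohomology of the product of the two cubic cones.
-/

set_option autoImplicit false

open Module

noncomputable section

namespace Pool.Agent.Work.MP_34c70a_al.N

variable (p : ℕ) [Fact p.Prime]

/-- The sum of the four subrings where one of the inverted coordinates has no pole. -/
def S2 : Submodule (K1 p) (L2 p) := Sp (b2 p) (fun i => ∃ k, 0 ≤ i.1 k)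

/-- The index of the product of the two classes. -/
def iEE : I2 := (fun _ => -1, fun _ => 2)

lemma ee_mul_ee : ee p false * ee p true = b2 p iEE := by
  have e : (-sg false false - sg false true) + (-sg true false - sg true true) =
      (fun _ => -1 : GG) := by
    funext ⟨x, y⟩
    cases x <;> cases y <;> simp [sg]
  rw [ee_eq, ee_eq, iEE, b2_apply, ← e, mo_add]
  change _ = _ * w2 p false ^ 2 * w2 p true ^ 2
  ring

/-- All exponents negative and both degrees nonnegative: only one index. -/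
lemma eq_iEE {i : I2} (h : ∀ k, i.1 k < 0) (h0 : ∀ d, 0 ≤ dg d i) : i = iEE := by
  have k : ∀ d, i.1 (d, false) = -1 ∧ i.1 (d, true) = -1 ∧ (i.2 d : ℕ) = 2 := fun d => by
    have h1 := h (d, false)
    have h2 := h (d, true)
    have h3 := h0 d
    have h4 := (i.2 d).2
    simp only [dg] at h3
    omega
  refine Prod.ext (funext fun ⟨x, y⟩ => ?_) (funext fun x => Fin.ext (k x).2.2)
  cases y
  · exact (k x).1
  · exact (k x).2.1

variable {p}

lemma S2_mul {x y : L2 p} (hx : ∀ k, x ∈ V (b2 p) (fun i => i.1 k) 0) (hy : y ∈ S2 p) :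
    x * y ∈ S2 p := by
  refine Sp_induction (b2 p) (Q := fun y => x * y ∈ S2 p) (by simp) ?_ ?_ hy
  · rintro c i ⟨k, hk⟩
    rw [mul_smul_comm]
    refine Submodule.smul_mem _ _ (Sp_mono _ (fun j hj => ⟨k, hj⟩)
      ((wm_ex p k).mul' (hx k) (b_mem_V (b2 p) _ i) (by simpa using hk)))
  · intro y z h1 h2
    rw [mul_add]
    exact add_mem h1 h2

lemma S2_pow {y : L2 p} (hy : y ∈ S2 p) : y ^ p ∈ S2 p := by
  refine Sp_induction (b2 p) (Q := fun y => y ^ p ∈ S2 p) ?_ ?_ ?_ hy
  · rw [zero_pow (Fact.out : p.Prime).ne_zero]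
    exact zero_mem _
  · rintro c i ⟨k, hk⟩
    rw [smul_pow]
    refine Submodule.smul_mem _ _ (Sp_mono _ (fun j hj => ⟨k, le_trans ?_ hj⟩)
      ((wm_ex p k).pow (b_mem_V (b2 p) _ i) p))
    positivity
  · intro y z h1 h2
    rw [add_pow_char]
    exact add_mem h1 h2

lemma ww_mem (d : Bool) (j : Option Bool) (k : Bool × Bool) :
    ww p d j ∈ V (b2 p) (fun i => i.1 k) 0 := by
  cases j with
  | none =>
    rw [ww, w2_eq]
    exact b_mem_Sp _ le_rfl
  | some j =>
    rw [ww, mo_eq]
    refine b_mem_Sp _ ?_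
    simp only [sg, Pi.single_apply]
    split_ifs <;> simp

lemma ww_deg (a b : ℤ) (d : Bool) (j : Option Bool) :
    ww p d j ∈ V (b2 p) (wG2 a b) (if d then b else a) := by
  cases j with
  | none =>
    rw [ww, w2_eq]
    refine b_mem_Sp _ ?_
    cases d <;> simp [wG2, dg]
  | some j =>
    rw [ww, mo_eq]
    refine b_mem_Sp _ ?_
    cases d <;> cases j <;> simp [wG2, dg, sg]

lemma soc_b2 (d : Bool) (i : I2) :
    b2 p i = mo p i.1 * w2 p d ^ (i.2 d : ℕ) * w2 p (!d) ^ (i.2 (!d) : ℕ) := by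
  obtain ⟨v, a⟩ := i
  rw [b2_apply]
  cases d
  · rfl
  · exact mul_right_comm _ _ _

lemma soc_up (d : Bool) {i : I2} (h : (i.2 d : ℕ) < 2) :
    w2 p d * b2 p i = b2 p (i.1, Function.update i.2 d (i.2 d + 1)) := by
  have e : ((i.2 d + 1 : Fin 3) : ℕ) = i.2 d + 1 := Fin.val_add_one_of_lt h
  rw [soc_b2 d, soc_b2 d]
  simp only [Function.update_self, Function.update_of_ne (Bool.not_ne_self d), e]
  ring

omit [Fact p.Prime] in
lemma soc_inj (d : Bool) {i j : I2} (e : (i.1, Function.update i.2 d (i.2 d + 1)) =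
    (j.1, Function.update j.2 d (j.2 d + 1))) : i = j := by
  refine Prod.ext (Prod.mk.inj e).1 (funext fun x => ?_)
  have h := congrFun (Prod.mk.inj e).2 x
  by_cases k : x = d
  · subst k
    simpa using h
  · simpa [Function.update_of_ne k] using h

lemma soc_top (d : Bool) {i : I2} (h : ∀ j, i.1 (d, j) = -1) (h2 : i.2 d = 2) :
    w2 p d * b2 p i ∈ S2 p := by
  have a : ∀ j, mo p (sg d j) * b2 p (i.1, Function.update i.2 d 0) ∈ S2 p := fun j => by
    rw [mo_mul_b2]
    exact b_mem_Sp _ ⟨(d, j), by simp [sg, h j]⟩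
  have e : w2 p d * b2 p i =
      (ww p d (some true) * ww p d none) *
          (mo p (sg d false) * b2 p (i.1, Function.update i.2 d 0)) +
        (tt p d false • (ww p d (some false) ^ 2 *
          (mo p (sg d false) * b2 p (i.1, Function.update i.2 d 0))) +
        tt p d true • (ww p d (some true) ^ 2 *
          (mo p (sg d true) * b2 p (i.1, Function.update i.2 d 0)))) := by
    have e2 := w2_rel p d
    rw [soc_b2 d, soc_b2 d, h2]
    simp only [Function.update_self, Function.update_of_ne (Bool.not_ne_self d), ww,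
      Algebra.smul_def, Fin.val_zero, Fin.val_two] at e2 ⊢
    linear_combination mo p i.1 * w2 p (!d) ^ (i.2 (!d) : ℕ) * e2
  rw [e]
  refine add_mem (S2_mul (fun k => ?_) (a false)) (add_mem
    (Submodule.smul_mem _ _ (S2_mul (fun k => ?_) (a false)))
    (Submodule.smul_mem _ _ (S2_mul (fun k => ?_) (a true))))
  · exact (wm_ex p k).mul' (ww_mem d _ k) (ww_mem d _ k) (by simp)
  · simpa using (wm_ex p k).pow (ww_mem d (some false) k) 2
  · simpa using (wm_ex p k).pow (ww_mem d (some true) k) 2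

/-- The socle in one group of coordinates. -/
lemma socle (d : Bool) {y : L2 p} (h : ∀ j, ww p d j * y ∈ S2 p) :
    y ∈ Sp (b2 p) (fun i => (∃ k, 0 ≤ i.1 k) ∨
      (i.1 (d, false) = -1 ∧ i.1 (d, true) = -1 ∧ i.2 d = 2)) := by
  obtain ⟨z, hz⟩ : ∃ z, z = res (b2 p) (fun i => ∀ k, i.1 k < 0) y := ⟨_, rfl⟩
  have z0 : z ∈ Sp (b2 p) (fun i => ∀ k, i.1 k < 0) := hz ▸ res_mem _ _ _
  have z1 : ∀ j, ww p d j * z ∈ S2 p := fun j => by
    have e : ww p d j * z = ww p d j * y - ww p d j * (y - z) := by ring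
    rw [e]
    refine sub_mem (h j) (S2_mul (ww_mem d j) (Sp_mono _ (fun i hi => ?_)
      (hz ▸ sub_res_mem (b2 p) _ y)))
    exact (not_forall.1 hi).imp fun _ => not_lt.1
  have z2 : z ∈ Sp (b2 p) (fun i => (∀ k, i.1 k < 0) ∧ ∀ j, i.1 (d, j) = -1) := by
    refine Sp_and _ z0 ((mem_Sp _).2 fun i hi j => ?_)
    have h1 := (mem_Sp _).1 z0 i hi
    rw [← repr_shift (b2 p) (P := fun _ => True) (mo p (sg d j)) (fun i => (sg d j + i.1, i.2))
      (fun i i' _ _ e => Prod.ext (add_left_cancel (Prod.mk.inj e).1) (Prod.mk.inj e).2)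
      (fun i _ => mo_mul_b2 p _ i) (Sp_true _ (fun _ => trivial) z) trivial] at hi
    obtain ⟨k, hk⟩ := (mem_Sp _).1 (z1 (some j)) _ hi
    have h2 := h1 k
    simp only [sg, Pi.add_apply, Pi.single_apply] at hk
    split_ifs at hk with e
    · rw [← e]
      omega
    · omega
  obtain ⟨y1, y2, k1, k2, e⟩ := Sp_split (b2 p) (P := fun i => (i.2 d : ℕ) < 2)
    (Q := fun i => i.2 d = 2) z2 (fun i _ => by
      have := (i.2 d).2
      rw [Fin.ext_iff]
      change _ ∨ (i.2 d : ℕ) = 2
      omega)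
  have k3 : w2 p d * y1 ∈ S2 p := by
    have e' : w2 p d * y1 = ww p d none * z - w2 p d * y2 := by
      rw [e, ww]
      ring
    rw [e']
    refine sub_mem (z1 none) (Sp_induction (b2 p) (Q := fun y => w2 p d * y ∈ S2 p) (by simp)
      (fun c i hi => ?_) (fun y z h1 h2 => by rw [mul_add]; exact add_mem h1 h2) k2)
    rw [mul_smul_comm]
    exact Submodule.smul_mem _ _ (soc_top d hi.1.2 hi.2)
  have k4 : y1 = 0 := by
    refine Sp_false (b2 p) (P := fun _ => False) ((mem_Sp _).2 fun i hi => ?_) fun _ => id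
    have h1 := (mem_Sp _).1 k1 i hi
    rw [← repr_shift (b2 p) (w2 p d) (fun i => (i.1, Function.update i.2 d (i.2 d + 1)))
      (fun i i' _ _ e => soc_inj d e) (fun i hi => soc_up d hi.2) k1 h1] at hi
    obtain ⟨k, hk⟩ := (mem_Sp _).1 k3 _ hi
    exact absurd (h1.1.1 k) (not_lt.2 hk)
  rw [k4, zero_add] at e
  rw [← sub_add_cancel y z]
  refine add_mem (Sp_mono _ (fun i hi => Or.inl ?_) (hz ▸ sub_res_mem (b2 p) _ y))
    (Sp_mono _ (fun i hi => Or.inr ⟨hi.1.2 _, hi.1.2 _, hi.2⟩) (e ▸ k2))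
  exact (not_forall.1 hi).imp fun _ => not_lt.1

/-- Both cubics are ordinary. -/
lemma mu_ne : (b2 p).repr (b2 p iEE ^ p) iEE ≠ 0 := by
  obtain ⟨J, hJ⟩ : ∃ J : Ideal (L2 p), J = (RingHom.ker
    (MvPolynomial.constantCoeff : K1 p →+* ZMod p)).map (algebraMap (K1 p) (L2 p)) := ⟨_, rfl⟩
  have h1 : ∀ x ∈ J, MvPolynomial.constantCoeff ((b2 p).repr x iEE) = 0 := fun x hx => by
    rw [hJ, ← Submodule.restrictScalars_mem (K1 p), ← Ideal.smul_top_eq_map] at hx
    refine Submodule.smul_induction_on hx (fun c hc y _ => ?_) fun y z h1 h2 => ?_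
    · rw [map_smul, Finsupp.smul_apply, smul_eq_mul, map_mul, RingHom.mem_ker.1 hc, zero_mul]
    · rw [map_add, Finsupp.add_apply, map_add, h1, h2, add_zero]
  have h2 : ∀ d k, algebraMap (K1 p) (L2 p) (tt p d k) ∈ J := fun d k =>
    hJ ▸ Ideal.mem_map_of_mem _ (RingHom.mem_ker.2 (MvPolynomial.constantCoeff_X _ _))
  have h3 : ∀ d, IsIdempotentElem (Ideal.Quotient.mk J (ee p d)) := fun d => by
    rw [IsIdempotentElem, ← map_mul, Ideal.Quotient.eq]
    have e1 : mo p (-sg d false - sg d true) * mo p (sg d false) * mo p (sg d true) = 1 := by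
      rw [← mo_add, ← mo_add, ← mo_zero p]
      congr 1
      abel
    have e2 := w2_rel p d
    rw [Algebra.smul_def, Algebra.smul_def] at e2
    have e3 : ee p d * ee p d - ee p d =
        algebraMap (K1 p) (L2 p) (tt p d false) * (mo p (-sg d false - sg d true) ^ 2 * w2 p d *
          mo p (sg d false) ^ 3) + algebraMap (K1 p) (L2 p) (tt p d true) *
          (mo p (-sg d false - sg d true) ^ 2 * w2 p d * mo p (sg d true) ^ 3) := by
      rw [ee_eq]
      linear_combination mo p (-sg d false - sg d true) ^ 2 * w2 p d * e2 +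
        mo p (-sg d false - sg d true) * w2 p d ^ 2 * e1
    rw [e3]
    exact add_mem (J.mul_mem_right _ (h2 d false)) (J.mul_mem_right _ (h2 d true))
  have h4 : b2 p iEE ^ p - b2 p iEE ∈ J := by
    rw [← Ideal.Quotient.eq, map_pow, ← ee_mul_ee, map_mul]
    exact ((h3 false).mul (h3 true)).pow_eq (Fact.out : p.Prime).ne_zero
  intro h0
  have h5 := h1 _ h4
  rw [map_sub, Finsupp.sub_apply, h0] at h5
  simp at h5

/-- Frobenius is injective on `L2 / S2`. -/
theorem S2_frob {y : L2 p} (h : y ^ p ∈ S2 p) : y ∈ S2 p := by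
  have key : ∀ (r : ℕ) (y : L2 p), y ∈ V (b2 p) (wG2 1 1) (1 - r) → y ^ p ∈ S2 p → y ∈ S2 p := by
    intro r
    induction r with
    | zero =>
      intro y hy _
      refine Sp_mono _ (fun i hi => ?_) hy
      by_contra k
      push Not at k
      have h1 := k (false, false)
      have h2 := k (false, true)
      have h3 := k (true, false)
      have h4 := k (true, true)
      have h5 := (i.2 false).2
      have h6 := (i.2 true).2
      simp only [wG2, dg] at hi
      omega
    | succ r ih =>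
      intro y hy h
      have h1 : ∀ d j, ww p d j * y ∈ S2 p := fun d j => by
        refine ih _ ((wm_G p 1 1).mul' (ww_deg 1 1 d j) hy (by rw [ite_self]; push_cast; omega)) ?_
        rw [mul_pow]
        exact S2_mul (fun k => by simpa using (wm_ex p k).pow (ww_mem d j k) p) h
      obtain ⟨y0, y1, k0, k1, rfl⟩ := Sp_split (b2 p) (P := fun i => ∃ k, 0 ≤ i.1 k)
        (Q := fun i => i = iEE) (Sp_and _ (socle false (h1 false)) (socle true (h1 true)))
        (fun i hi => by
          rcases hi with ⟨a | a, b | b⟩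
          · exact Or.inl a
          · exact Or.inl a
          · exact Or.inl b
          · refine Or.inr (Prod.ext (funext fun ⟨x, y⟩ => ?_) (funext fun x => ?_))
            · cases x <;> cases y
              exacts [a.1, a.2.1, b.1, b.2.1]
            · cases x
              exacts [a.2.2, b.2.2])
      have a0 : y0 ∈ S2 p := Sp_mono _ (fun _ h => h.2) k0
      have a1 := Sp_single (b2 p) (Sp_mono _ (fun _ h => h.2) k1)
      have a2 : y1 ^ p ∈ S2 p := by
        have := sub_mem h (S2_pow a0)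
        rwa [add_pow_char, add_sub_cancel_left] at this
      rw [a1, smul_pow] at a2
      have a3 := Sp_repr (b2 p) a2 (i := iEE) (by simp [iEE])
      rw [map_smul, Finsupp.smul_apply, smul_eq_mul, mul_eq_zero] at a3
      rw [a1, eq_zero_of_pow_eq_zero (a3.resolve_right mu_ne), zero_smul, add_zero]
      exact a0
  obtain ⟨N, hN⟩ := exists_V (b2 p) (wG2 1 1) y
  exact key (N + 1) y (V_mono _ _ (by push_cast; omega) hN) h

end Pool.Agent.Work.MP_34c70a_al.N
end
end

-- merged part: Pool.Agent.Work.MP_34c70a_al.N.DD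
section
/-!
The ambient ring: the parameters `s` (and `f`) and the coordinate `z` are adjoined.
-/

set_option autoImplicit false

open Module MvPolynomial

noncomputable section

namespace Pool.Agent.Work.MP_34c70a_al.N

variable (p : ℕ) [hp : Fact p.Prime] {σ : Type} (ι : Option Bool → σ) (o : Option σ)

/-- Polynomials in the remaining parameters. -/
abbrev L3 (σ : Type) : Type := MvPolynomial σ (L2 p)

/-- The square of the deformation parameter, or zero. -/
def ph : L3 p σ := o.elim 0 (fun k => X k ^ 2)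

/-- The section `h`. -/
def hh : L3 p σ := ph p o * C (w2 p true)

/-- The generic inseparable form. -/
def aa : L3 p σ := ∑ k, X (ι k) * C (ww p true k) ^ p

/-- Linear coefficient of the equation of `z`. -/
def cz1 : L3 p σ := lam p • hh p o ^ (p - 1)

/-- Constant coefficient of the equation of `z`. -/
def cz0 (i : Bool) : L3 p σ := aa p ι - hh p o ^ p * C (gg p i)

/-- The ambient ring. -/
def DD : Type := AdjoinRoot (pq p (cz1 p o) (cz0 p ι o false))

instance : CommRing (DD p ι o) := inferInstanceAs (CommRing (AdjoinRoot _))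
instance : Algebra (K1 p) (DD p ι o) := inferInstanceAs (Algebra _ (AdjoinRoot _))
instance : Algebra (L3 p σ) (DD p ι o) := inferInstanceAs (Algebra _ (AdjoinRoot _))
instance : IsScalarTower (K1 p) (L3 p σ) (DD p ι o) :=
  inferInstanceAs (IsScalarTower _ _ (AdjoinRoot _))
instance : Nontrivial (DD p ι o) := ex_nontrivial hp.out.two_le _ _

/-- The map from the polynomial ring. -/
abbrev al : L3 p σ →+* DD p ι o := algebraMap _ _

/-- The adjoined root. -/
def rt : DD p ι o := (AdjoinRoot.root _ : AdjoinRoot _)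

/-- The two coordinates `z`. -/
def zz : Bool → DD p ι o
  | false => rt p ι o
  | true => rt p ι o + al p ι o (hh p o * C (ee p false))

lemma zz_true : zz p ι o true = zz p ι o false + al p ι o (hh p o * C (ee p false)) := rfl

/-- The basis of powers of the first coordinate. -/
def bz0 : Basis (Fin p) (L3 p σ) (DD p ι o) := exB hp.out.two_le _ _

lemma bz0_apply (j : Fin p) : bz0 p ι o j = zz p ι o false ^ (j : ℕ) := exB_apply _ _ _ j

lemma exists_bz (i : Bool) :
    ∃ c : Basis (Fin p) (L3 p σ) (DD p ι o), ∀ j, c j = zz p ι o i ^ (j : ℕ) := by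
  cases i
  · exact ⟨bz0 p ι o, bz0_apply p ι o⟩
  · exact exists_shift (bz0 p ι o) _ (bz0_apply p ι o) _

/-- The two bases of powers. -/
def bz (i : Bool) : Basis (Fin p) (L3 p σ) (DD p ι o) := (exists_bz p ι o i).choose

lemma bz_apply (i : Bool) (j : Fin p) : bz p ι o i j = zz p ι o i ^ (j : ℕ) :=
  (exists_bz p ι o i).choose_spec j

lemma al_inj : Function.Injective (al p ι o) := by
  rw [injective_iff_map_eq_zero]
  intro c hc
  have h1 : c • bz p ι o false 0 = 0 := by rw [Algebra.smul_def]; exact mul_eq_zero_of_left hc _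
  simpa using congrArg (fun x => (bz p ι o false).repr x 0) h1

instance : CharP (DD p ι o) p := charP_of_injective_ringHom (al_inj p ι o) p

lemma zz_rel (i : Bool) :
    zz p ι o i ^ p = al p ι o (cz1 p o) * zz p ι o i + al p ι o (cz0 p ι o i) := by
  have h0 : zz p ι o false ^ p =
      al p ι o (cz1 p o) * zz p ι o false + al p ι o (cz0 p ι o false) := ex_rel p _ _
  cases i
  · exact h0
  · have e : (hh p o * C (ee p false)) ^ p + cz0 p ι o false =
        cz1 p o * (hh p o * C (ee p false)) + cz0 p ι o true := by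
      have h2 : hh p o ^ p = hh p o ^ (p - 1) * hh p o := by
        rw [← pow_succ, Nat.sub_add_cancel hp.out.one_le]
      have h3 : (C (lam p • ee p false) : L3 p σ) = lam p • C (ee p false) := by
        rw [Algebra.smul_def, Algebra.smul_def, map_mul]
        rfl
      rw [mul_pow, ← map_pow, e_pow, map_sub, map_add, h3, cz0, cz0, cz1, smul_mul_assoc,
        ← mul_assoc, ← h2, mul_sub, mul_add, mul_smul_comm]
      ring
    rw [zz_true, add_pow_char, h0, ← map_pow, add_assoc, add_comm (al p ι o (cz0 p ι o false)),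
      ← map_add, e, map_add, map_mul]
    ring

/-- Indices of the basis of `L3`. -/
abbrev I3 (σ : Type) : Type := I2 × (σ →₀ ℕ)

/-- Indices of the bases of `DD`. -/
abbrev I4 (p : ℕ) (σ : Type) : Type := I3 σ × Fin p

/-- The monomial basis of `L3`. -/
def b3 (σ : Type) : Basis (I3 σ) (K1 p) (L3 p σ) :=
  (b2 p).smulTower (MvPolynomial.basisMonomials σ (L2 p))

/-- The two monomial bases of `DD`. -/
def b4 (i : Bool) : Basis (I4 p σ) (K1 p) (DD p ι o) := (b3 p σ).smulTower (bz p ι o i)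

lemma b3_apply (a : I2) (μ : σ →₀ ℕ) : b3 p σ (a, μ) = monomial μ (b2 p a) := by
  rw [b3, Basis.smulTower_apply]
  simp [MvPolynomial.smul_monomial]

lemma b3_repr (F : L3 p σ) (a : I2) (μ : σ →₀ ℕ) :
    (b3 p σ).repr F (a, μ) = (b2 p).repr (coeff μ F) a := by
  rw [b3, Basis.smulTower_repr]
  rfl

lemma mem_Sp3 {Q : I3 σ → Prop} {F : L3 p σ} :
    F ∈ Sp (b3 p σ) Q ↔ ∀ μ, coeff μ F ∈ Sp (b2 p) (fun a => Q (a, μ)) :=
  mem_Sp_tower (b2 p) (MvPolynomial.basisMonomials σ (L2 p))

lemma b4_apply (i : Bool) (y : I3 σ) (j : Fin p) :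
    b4 p ι o i (y, j) = al p ι o (b3 p σ y) * zz p ι o i ^ (j : ℕ) := by
  rw [b4, Basis.smulTower_apply, bz_apply, Algebra.smul_def]

lemma b4_repr (i : Bool) (x : DD p ι o) (y : I3 σ) (j : Fin p) :
    (b4 p ι o i).repr x (y, j) = (b3 p σ).repr ((bz p ι o i).repr x j) y := by
  rw [b4, Basis.smulTower_repr]

lemma mem_Sp4 {i : Bool} {Q : I4 p σ → Prop} {x : DD p ι o} :
    x ∈ Sp (b4 p ι o i) Q ↔ ∀ j, (bz p ι o i).repr x j ∈ Sp (b3 p σ) (fun y => Q (y, j)) :=
  mem_Sp_tower (b3 p σ) (bz p ι o i)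

lemma mon_mem {P : I2 → Prop} {Q : I3 σ → Prop} {x : L2 p} (hx : x ∈ Sp (b2 p) P) (μ : σ →₀ ℕ)
    (h : ∀ a, P a → Q (a, μ)) : (monomial μ x : L3 p σ) ∈ Sp (b3 p σ) Q := by
  have := smul_mem_Sp (b2 p) (MvPolynomial.basisMonomials σ (L2 p)) (Q := Q) hx μ h
  simpa [MvPolynomial.smul_monomial, b3] using this

lemma alz_mem (i : Bool) {P : I3 σ → Prop} {Q : I4 p σ → Prop} {F : L3 p σ}
    (hF : F ∈ Sp (b3 p σ) P) (j : Fin p) (h : ∀ y, P y → Q (y, j)) :
    al p ι o F * zz p ι o i ^ (j : ℕ) ∈ Sp (b4 p ι o i) Q := by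
  have := smul_mem_Sp (b3 p σ) (bz p ι o i) (Q := Q) hF j h
  rwa [bz_apply, Algebra.smul_def] at this

lemma al_mem (i : Bool) {P : I3 σ → Prop} {Q : I4 p σ → Prop} {F : L3 p σ}
    (hF : F ∈ Sp (b3 p σ) P) (h : ∀ y, P y → Q (y, 0)) : al p ι o F ∈ Sp (b4 p ι o i) Q := by
  simpa using alz_mem p ι o i hF 0 h

lemma wm3 (σ : Type) {w : I2 → ℤ} (h : WM (b2 p) w) : WM (b3 p σ) (fun y => w y.1) := h.mv

lemma C_mem {w : I2 → ℤ} {n : ℤ} {x : L2 p} (hx : x ∈ V (b2 p) w n) :
    (C x : L3 p σ) ∈ V (b3 p σ) (fun y => w y.1) n := mon_mem p hx 0 (fun _ h => h)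

lemma X_mem {w : I2 → ℤ} (h : WM (b2 p) w) (k : σ) :
    (X k : L3 p σ) ∈ V (b3 p σ) (fun y => w y.1) 0 := mon_mem p h.1 _ (fun _ h => h)

lemma hh_mem {w : I2 → ℤ} (h : WM (b2 p) w) {d : ℤ} (hd : w2 p true ∈ V (b2 p) w d) :
    hh p o ∈ V (b3 p σ) (fun y => w y.1) d := by
  have : ph p o ∈ V (b3 p σ) (fun y => w y.1) 0 := by
    cases o with
    | none => exact zero_mem _
    | some k => simpa [ph] using (wm3 p σ h).pow (X_mem p h k) 2
  exact (wm3 p σ h).mul' this (C_mem p hd) (by simp)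

lemma aa_mem {w : I2 → ℤ} (h : WM (b2 p) w) {d : ℤ} (hd : ∀ k, ww p true k ∈ V (b2 p) w d) :
    aa p ι ∈ V (b3 p σ) (fun y => w y.1) (p * d) :=
  sum_mem fun k _ => (wm3 p σ h).mul' (X_mem p h _) ((wm3 p σ h).pow (C_mem p (hd k)) p) (by simp)

/-- A weight on `L2` together with a weight of `z`. -/
def w4 (w : I2 → ℤ) (d : ℤ) (x : I4 p σ) : ℤ := w x.1.1 + (x.2 : ℕ) * d

theorem wm4 (i : Bool) {w : I2 → ℤ} (h : WM (b2 p) w) {d : ℤ}
    (hd : ∀ k, ww p true k ∈ V (b2 p) w d) (hg : gg p i ∈ V (b2 p) w 0) :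
    WM (b4 p ι o i) (w4 p w d) := by
  have W := wm3 p σ h
  have h1 := hh_mem p o h (hd none)
  refine W.ext hp.out.two_le (bz p ι o i) _ (bz_apply p ι o i) _ _ d (zz_rel p ι o i) ?_ ?_
  · have := W.pow h1 (p - 1)
    rw [Nat.cast_sub hp.out.one_le, Nat.cast_one] at this
    exact Submodule.smul_mem _ _ this
  · exact sub_mem (aa_mem p ι h hd) (W.mul' (W.pow h1 p) (C_mem p hg) (by simp))

/-- The exponent of an inverted coordinate. -/
def wE (k : Bool × Bool) (x : I4 p σ) : ℤ := x.1.1.1 k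

/-- The degree in the first group (`false`), or in the second group and `z` (`true`). -/
def dd : Bool → I4 p σ → ℤ
  | false, x => dg false x.1.1
  | true, x => dg true x.1.1 + (x.2 : ℕ)

/-- Combinations of the two degrees. -/
def wG (a b : ℤ) (x : I4 p σ) : ℤ := a * dd p false x + b * dd p true x

/-- Minus the degree in `z`. -/
def wZ (x : I4 p σ) : ℤ := -((x.2 : ℕ) : ℤ)

omit hp in
lemma wE_eq (k : Bool × Bool) : wE p k = w4 p (σ := σ) (fun a => a.1 k) 0 := by
  funext x
  simp [wE, w4]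

omit hp in
lemma wG_eq (a b : ℤ) : wG p a b = w4 p (σ := σ) (wG2 a b) b := by
  funext x
  simp only [wG, w4, dd, wG2]
  ring

omit hp in
lemma wZ_eq : wZ p = w4 p (σ := σ) (fun _ => 0) (-1) := by
  funext x
  simp [wZ, w4]

lemma pure_G (a b : ℤ) {i : I2} (h : Pure i) : wG2 a b i = 0 := by
  obtain ⟨h1, h2, h3, h4⟩ := h
  rw [wG2, h4]
  simp [dg, h1, h2, h3]

/-- The exponent weights; for the first group the basis has to fit. -/
theorem wmE (i : Bool) (k : Bool × Bool) (h : k.1 = true ∨ k.2 = !i) :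
    WM (b4 p ι o i) (wE p k) := by
  rw [wE_eq]
  refine wm4 p ι o i (wm_ex p k) (fun j => ww_mem _ _ _) (Sp_mono _ ?_ (gg_mem p i))
  obtain ⟨d, j⟩ := k
  rintro a ⟨⟨h1, h2, -, -⟩, h3⟩
  cases d
  · obtain rfl : j = !i := by simpa using h
    exact h3
  · cases j
    · exact h1.ge
    · exact h2.ge

theorem wmG (i : Bool) (a b : ℤ) : WM (b4 p ι o i) (wG p a b) := by
  rw [wG_eq]
  exact wm4 p ι o i (wm_G p a b) (fun j => ww_deg a b true j)
    (Sp_mono _ (fun _ h => (pure_G a b h.1).ge) (gg_mem p i))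

theorem wmZ (i : Bool) : WM (b4 p ι o i) (wZ p) := by
  rw [wZ_eq]
  exact wm4 p ι o i (wm_zero p) (fun j => Sp_true _ (fun _ => by simp) _)
    (Sp_true _ (fun _ => le_rfl) _)

lemma zz_eq (i : Bool) : zz p ι o i = b4 p ι o i (((0, 0), 0), ⟨1, hp.out.one_lt⟩) := by
  rw [b4_apply, b3_apply, ← mo_eq, mo_zero]
  simp

lemma V_swap {w : I2 → ℤ} (h : WM (b2 p) w) {d : ℤ} (h0 : w (0, 0) = 0)
    (hd : w2 p true ∈ V (b2 p) w d) (he : 0 ≤ w (iE false))
    (W : ∀ i, WM (b4 p ι o i) (w4 p w d)) (i i' : Bool) (n : ℤ) :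
    V (b4 p ι o i) (w4 p w d) n = V (b4 p ι o i') (w4 p w d) n := by
  have a : ∀ i, zz p ι o i ∈ V (b4 p ι o i) (w4 p w d) d := fun i => by
    rw [zz_eq]
    exact b_mem_Sp _ (by simp [w4, h0])
  have b : ∀ i, al p ι o (hh p o * C (ee p false)) ∈ V (b4 p ι o i) (w4 p w d) d := fun i =>
    al_mem p ι o i ((wm3 p σ h).mul' (hh_mem p o h hd) (C_mem p (b_mem_V (b2 p) w (iE false)))
      (by linarith : d ≤ _)) (fun y hy => by simpa [w4] using hy)
  have c : ∀ i i', zz p ι o i ∈ V (b4 p ι o i') (w4 p w d) d := by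
    intro i i'
    cases i <;> cases i'
    · exact a _
    · rw [eq_sub_of_add_eq (zz_true p ι o).symm]
      exact sub_mem (a _) (b _)
    · rw [zz_true]
      exact add_mem (a _) (b _)
    · exact a _
  have e : ∀ i i', V (b4 p ι o i) (w4 p w d) n ≤ V (b4 p ι o i') (w4 p w d) n := by
    intro i i'
    refine Sp_le _ ?_
    rintro ⟨y, j⟩ hy
    rw [b4_apply]
    exact (W i').mul' (al_mem p ι o i' (b_mem_V (b3 p σ) (fun y => w y.1) y)
      (fun y hy => by simpa [w4] using hy)) ((W i').pow (c i i') j) hy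
  exact le_antisymm (e _ _) (e _ _)

theorem swapE (k : Bool) (i i' : Bool) (n : ℤ) :
    V (b4 p ι o i) (wE p (true, k)) n = V (b4 p ι o i') (wE p (true, k)) n := by
  have := V_swap p ι o (wm_ex p (true, k)) (d := 0) rfl (ww_mem true none _) (by simp [iE, sg])
    (fun i => wE_eq p (σ := σ) _ ▸ wmE p ι o i (true, k) (Or.inl rfl)) i i' n
  rwa [← wE_eq] at this

theorem swapG (a b : ℤ) (i i' : Bool) (n : ℤ) :
    V (b4 p ι o i) (wG p a b) n = V (b4 p ι o i') (wG p a b) n := by
  have := V_swap p ι o (wm_G p a b) (d := b) (by simp [wG2, dg]) (ww_deg a b true none)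
    (by simp [iE, sg, wG2, dg]) (fun i => wG_eq p (σ := σ) a b ▸ wmG p ι o i a b) i i' n
  rwa [← wG_eq] at this

theorem swapZ (i i' : Bool) (n : ℤ) :
    V (b4 p ι o i) (wZ p) n = V (b4 p ι o i') (wZ p) n := by
  have := V_swap p ι o (wm_zero p) (d := -1) rfl (Sp_true _ (fun _ => by simp) _)
    le_rfl (fun i => wZ_eq p (σ := σ) ▸ wmZ p ι o i) i i' n
  rwa [← wZ_eq] at this

lemma zz_pow_sub (i i' k : Bool) (j : ℕ) :
    zz p ι o i ^ j - zz p ι o i' ^ j ∈ V (b4 p ι o k) (wZ p) (1 - j) := by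
  have a : ∀ i, zz p ι o i ∈ V (b4 p ι o k) (wZ p) (-1) := fun i => by
    rw [swapZ p ι o k i, zz_eq]
    exact b_mem_Sp _ (by simp [wZ])
  have b : al p ι o (hh p o * C (ee p false)) ∈ V (b4 p ι o k) (wZ p) (-1 + 1) :=
    al_mem p ι o k (Sp_true (P := fun _ => True) _ (fun _ => trivial) _) (fun y _ => by simp [wZ])
  have c : zz p ι o i - zz p ι o i' ∈ V (b4 p ι o k) (wZ p) (-1 + 1) := by
    cases i <;> cases i'
    · simp
    · rw [zz_true, sub_add_cancel_left]
      exact neg_mem b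
    · rw [zz_true, add_sub_cancel_left]
      exact b
    · simp
  exact V_mono _ _ (by linarith) ((wmZ p ι o k).pow_sub (a i) (a i') c j)

/-- The top coefficient in `z` does not depend on the basis. -/
theorem top_eq (i i' : Bool) (j : Fin p) {x : DD p ι o}
    (hx : x ∈ V (b4 p ι o i) (wZ p) (-((j : ℕ) : ℤ))) :
    (bz p ι o i).repr x j = (bz p ι o i').repr x j := by
  refine Sp_induction _ (Q := fun x => (bz p ι o i).repr x j = (bz p ι o i').repr x j)
    (by simp) ?_ (fun x y hx hy => by simp [hx, hy]) hx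
  rintro c ⟨y, k⟩ hk
  have hk' : (k : ℤ) ≤ j := by simpa [wZ] using hk
  have h1 := (mem_Sp4 p ι o).1 (zz_pow_sub p ι o i i' i' k) j
  have h2 := Sp_false _ h1 (fun y hy => by
    simp only [wZ] at hy
    omega)
  rw [map_sub, Finsupp.sub_apply, sub_eq_zero] at h2
  rw [b4_apply, ← Algebra.smul_def, ← smul_assoc, map_smul, map_smul, Finsupp.smul_apply,
    Finsupp.smul_apply, h2, ← bz_apply, ← bz_apply, Basis.repr_self, Basis.repr_self]

end Pool.Agent.Work.MP_34c70a_al.N
end
end
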