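import Pool.Agent.Work.MP_34c70a_al.N.HA
import Pool.Agent.Work.MP_34c70a_al.GDefs
import Pool.Agent.Work.MP_34c70a_al.N.DD
import Mathlib

-- merged part: Pool.Agent.Work.MP_34c70a_al.N.HB
section
/-! Localisation of the complex of four subrings at a prime. -/

set_option autoImplicit false

open CategoryTheory Pool.Agent.Lib.LocalCoh

noncomputable section

namespace Pool.Agent.Work.MP_34c70a_al.N

namespace Cfg

variable {R O : Type} [CommRing R] [CommRing O] (c : Cfg R O) (q : Ideal R) [hq : q.IsPrime]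

/-- The localised ambient ring. -/
abbrev K : Type := Localization (q.primeCompl.map c.ρ)

/-- The map to the localised ambient ring. -/
abbrev al : O →+* c.K q := algebraMap O (c.K q)

/-- The localised structure map. -/
def lρ : Localization.AtPrime q →+* c.K q :=
  IsLocalization.map (c.K q) c.ρ q.primeCompl.le_comap_map

lemma lρ_al (r : R) : c.lρ q (algebraMap R _ r) = c.al q (c.ρ r) := IsLocalization.map_eq _ r

lemma nm {s t : R} (hs : s ∉ q) (ht : t ∉ q) : s * t ∉ q := fun h => (hq.mem_or_mem h).elim hs ht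

lemma n1 : (1 : R) ∉ q := (Ideal.ne_top_iff_one q).1 hq.ne_top

lemma k_surj (x : c.K q) : ∃ s ∉ q, ∃ a, x * c.al q (c.ρ s) = c.al q a := by
  obtain ⟨⟨a, _, s, hs, rfl⟩, h⟩ := IsLocalization.surj (q.primeCompl.map c.ρ) x
  exact ⟨s, hs, a, h⟩

lemma k_eq {a b : O} (h : c.al q a = c.al q b) : ∃ s ∉ q, c.ρ s * a = c.ρ s * b := by
  obtain ⟨⟨_, s, hs, rfl⟩, h⟩ := (IsLocalization.eq_iff_exists (q.primeCompl.map c.ρ) _).1 h
  exact ⟨s, hs, h⟩

lemma k_inv {s : R} (hs : s ∉ q) : ∃ r, c.lρ q r * c.al q (c.ρ s) = 1 := by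
  obtain ⟨r, hr⟩ := (IsLocalization.map_units (Localization.AtPrime q)
    (⟨s, hs⟩ : q.primeCompl)).exists_left_inv
  exact ⟨r, by rw [← lρ_al, ← map_mul, hr, map_one]⟩

/-- Fractions with numerator in `S`. -/
def Ls (S : Subring O) (x : c.K q) : Prop := ∃ s ∉ q, ∃ a ∈ S, x * c.al q (c.ρ s) = c.al q a

/-- The localisation of a subring. -/
def ls (S : Subring O) (h : ∀ r, c.ρ r ∈ S) : Subring (c.K q) where
  carrier := {x | c.Ls q S x}
  mul_mem' := by
    rintro x y ⟨s, hs, a, ha, e⟩ ⟨t, ht, b, hb, e'⟩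
    refine ⟨s * t, nm q hs ht, a * b, mul_mem ha hb, ?_⟩
    rw [map_mul, map_mul, map_mul, ← e, ← e']
    ring
  one_mem' := ⟨1, n1 q, 1, one_mem _, by simp⟩
  add_mem' := by
    rintro x y ⟨s, hs, a, ha, e⟩ ⟨t, ht, b, hb, e'⟩
    refine ⟨s * t, nm q hs ht, c.ρ t * a + c.ρ s * b,
      add_mem (mul_mem (h t) ha) (mul_mem (h s) hb), ?_⟩
    simp only [map_mul, map_add]
    rw [← e, ← e']
    ring
  zero_mem' := ⟨1, n1 q, 0, zero_mem _, by simp⟩
  neg_mem' := by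
    rintro x ⟨s, hs, a, ha, e⟩
    exact ⟨s, hs, -a, neg_mem ha, by rw [map_neg, ← e, neg_mul]⟩

lemma al_mem {S : Subring O} {a : O} (ha : a ∈ S) : c.Ls q S (c.al q a) :=
  ⟨1, n1 q, a, ha, by simp⟩

lemma den4 {S1 S2 S3 S4 : Subring O} (h1 : ∀ r, c.ρ r ∈ S1) (h2 : ∀ r, c.ρ r ∈ S2)
    (h3 : ∀ r, c.ρ r ∈ S3) (h4 : ∀ r, c.ρ r ∈ S4) {x1 x2 x3 x4 : c.K q} (k1 : c.Ls q S1 x1)
    (k2 : c.Ls q S2 x2) (k3 : c.Ls q S3 x3) (k4 : c.Ls q S4 x4) :
    ∃ s ∉ q, ∃ a1 ∈ S1, ∃ a2 ∈ S2, ∃ a3 ∈ S3, ∃ a4 ∈ S4, x1 * c.al q (c.ρ s) = c.al q a1 ∧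
      x2 * c.al q (c.ρ s) = c.al q a2 ∧ x3 * c.al q (c.ρ s) = c.al q a3 ∧
      x4 * c.al q (c.ρ s) = c.al q a4 := by
  obtain ⟨s1, t1, a1, m1, e1⟩ := k1
  obtain ⟨s2, t2, a2, m2, e2⟩ := k2
  obtain ⟨s3, t3, a3, m3, e3⟩ := k3
  obtain ⟨s4, t4, a4, m4, e4⟩ := k4
  refine ⟨s1 * s2 * (s3 * s4), nm q (nm q t1 t2) (nm q t3 t4),
    _, mul_mem (h1 (s2 * s3 * s4)) m1, _, mul_mem (h2 (s1 * s3 * s4)) m2,
    _, mul_mem (h3 (s1 * s2 * s4)) m3, _, mul_mem (h4 (s1 * s2 * s3)) m4, ?_, ?_, ?_, ?_⟩ <;>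
    simp only [map_mul]
  · rw [← e1]; ring
  · rw [← e2]; ring
  · rw [← e3]; ring
  · rw [← e4]; ring

lemma eq4 {u1 v1 u2 v2 u3 v3 u4 v4 : O} (h1 : c.al q u1 = c.al q v1) (h2 : c.al q u2 = c.al q v2)
    (h3 : c.al q u3 = c.al q v3) (h4 : c.al q u4 = c.al q v4) :
    ∃ t ∉ q, c.ρ t * u1 = c.ρ t * v1 ∧ c.ρ t * u2 = c.ρ t * v2 ∧ c.ρ t * u3 = c.ρ t * v3 ∧
      c.ρ t * u4 = c.ρ t * v4 := by
  obtain ⟨s1, t1, e1⟩ := c.k_eq q h1
  obtain ⟨s2, t2, e2⟩ := c.k_eq q h2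
  obtain ⟨s3, t3, e3⟩ := c.k_eq q h3
  obtain ⟨s4, t4, e4⟩ := c.k_eq q h4
  refine ⟨s1 * s2 * (s3 * s4), nm q (nm q t1 t2) (nm q t3 t4), ?_, ?_, ?_, ?_⟩ <;>
    simp only [map_mul]
  · linear_combination c.ρ s2 * c.ρ s3 * c.ρ s4 * e1
  · linear_combination c.ρ s1 * c.ρ s3 * c.ρ s4 * e2
  · linear_combination c.ρ s1 * c.ρ s2 * c.ρ s4 * e3
  · linear_combination c.ρ s1 * c.ρ s2 * c.ρ s3 * e4

lemma ls_inf {S T : Subring O} (h : ∀ r, c.ρ r ∈ S) (h' : ∀ r, c.ρ r ∈ T) {x : c.K q}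
    (k : c.Ls q S x) (k' : c.Ls q T x) : c.Ls q (S ⊓ T) x := by
  obtain ⟨s, hs, a, m1, b, m2, _, -, _, -, e1, e2, -, -⟩ := c.den4 q h h' h h k k' k k
  obtain ⟨t, ht, e⟩ := c.k_eq q (e1.symm.trans e2)
  refine ⟨t * s, nm q ht hs, c.ρ t * a, ⟨mul_mem (h t) m1, e ▸ mul_mem (h' t) m2⟩, ?_⟩
  simp only [map_mul]
  rw [← e1]
  ring

/-- The localised configuration. -/
def loc : Cfg (Localization.AtPrime q) (c.K q) where
  ρ := c.lρ q
  A1 := c.ls q c.A1 c.m1
  A2 := c.ls q c.A2 c.m2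
  B1 := c.ls q c.B1 c.m3
  B2 := c.ls q c.B2 c.m4
  inj := IsLocalization.map_injective_of_injective q.primeCompl _ _ c.inj
  mem := fun x => by
    constructor
    · rintro ⟨k1, k2, k3, k4⟩
      obtain ⟨s, hs, a, ⟨⟨m1, m2⟩, m3, m4⟩, e⟩ :=
        c.ls_inf q (S := c.A1 ⊓ c.A2) (T := c.B1 ⊓ c.B2) (fun r => ⟨c.m1 r, c.m2 r⟩)
          (fun r => ⟨c.m3 r, c.m4 r⟩) (c.ls_inf q c.m1 c.m2 k1 k2) (c.ls_inf q c.m3 c.m4 k3 k4)
      obtain ⟨r, rfl⟩ := (c.mem a).1 ⟨m1, m2, m3, m4⟩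
      obtain ⟨w, hw⟩ := c.k_inv q hs
      refine ⟨w * algebraMap R _ r, ?_⟩
      rw [map_mul, lρ_al, ← e]
      linear_combination x * hw
    · rintro ⟨r, rfl⟩
      obtain ⟨⟨a, s, hs⟩, e⟩ := IsLocalization.surj q.primeCompl r
      have e' : c.lρ q r * c.al q (c.ρ s) = c.al q (c.ρ a) := by
        rw [← lρ_al, ← lρ_al, ← map_mul]
        exact congrArg _ e
      exact ⟨⟨s, hs, _, c.m1 a, e'⟩, ⟨s, hs, _, c.m2 a, e'⟩, ⟨s, hs, _, c.m3 a, e'⟩,
        ⟨s, hs, _, c.m4 a, e'⟩⟩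

variable {c q}

lemma sum_al {a : O} (h : c.Sum a) {x : c.K q} {s : R} (hs : s ∉ q)
    (e : x * c.al q (c.ρ s) = c.al q a) : (c.loc q).Sum x := by
  obtain ⟨a1, h1, a2, h2, b1, h3, b2, h4, rfl⟩ := h
  have k : (c.loc q).Sum (c.al q (a1 + a2 + b1 + b2)) :=
    ⟨_, c.al_mem q h1, _, c.al_mem q h2, _, c.al_mem q h3, _, c.al_mem q h4, by
      simp only [map_add]⟩
  obtain ⟨w, hw⟩ := c.k_inv q hs
  have := k.mul w
  rwa [← e, show (c.loc q).ρ w * (x * c.al q (c.ρ s)) = x by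
    change c.lρ q w * _ = x
    linear_combination x * hw] at this

lemma sum_loc {x : c.K q} (h : (c.loc q).Sum x) {s : R} {a : O}
    (e : x * c.al q (c.ρ s) = c.al q a) : ∃ t ∉ q, c.Sum (c.ρ t * a) := by
  obtain ⟨x1, k1, x2, k2, x3, k3, x4, k4, rfl⟩ := h
  obtain ⟨s', hs', a1, m1, a2, m2, a3, m3, a4, m4, e1, e2, e3, e4⟩ :=
    c.den4 q c.m1 c.m2 c.m3 c.m4 k1 k2 k3 k4
  obtain ⟨t, ht, e'⟩ := c.k_eq q (a := c.ρ s' * a) (b := c.ρ s * (a1 + a2 + a3 + a4)) (by
    simp only [map_mul, map_add]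
    rw [← e, ← e1, ← e2, ← e3, ← e4]
    ring)
  refine ⟨t * s', nm q ht hs', ?_⟩
  rw [map_mul, mul_assoc, e']
  exact ((show c.Sum (a1 + a2 + a3 + a4) from ⟨_, m1, _, m2, _, m3, _, m4, rfl⟩).mul s).mul t

lemma coc_loc {x1 x2 x3 x4 : c.K q} (h : (c.loc q).Coc x1 x2 x3 x4) :
    ∃ s ∉ q, ∃ a1 a2 a3 a4, c.Coc a1 a2 a3 a4 ∧ x1 * c.al q (c.ρ s) = c.al q a1 ∧
      x2 * c.al q (c.ρ s) = c.al q a2 ∧ x3 * c.al q (c.ρ s) = c.al q a3 ∧
      x4 * c.al q (c.ρ s) = c.al q a4 := by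
  obtain ⟨k1, k2, k3, k4, e⟩ := h
  obtain ⟨s, hs, a1, m1, a2, m2, a3, m3, a4, m4, e1, e2, e3, e4⟩ :=
    c.den4 q c.m1 c.m2 c.m3 c.m4 k1 k2 k3 k4
  obtain ⟨t, ht, e'⟩ := c.k_eq q (a := a1 - a2) (b := a3 - a4) (by
    simp only [map_sub]
    rw [← e1, ← e2, ← e3, ← e4, ← sub_mul, e, sub_mul])
  refine ⟨t * s, nm q ht hs, _, _, _, _, ⟨mul_mem (c.m1 t) m1, mul_mem (c.m2 t) m2,
    mul_mem (c.m3 t) m3, mul_mem (c.m4 t) m4, by linear_combination e'⟩, ?_, ?_, ?_, ?_⟩ <;>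
    simp only [map_mul]
  · rw [← e1]; ring
  · rw [← e2]; ring
  · rw [← e3]; ring
  · rw [← e4]; ring

lemma cob_al {a1 a2 a3 a4 : O} (h : c.Cob a1 a2 a3 a4) {x1 x2 x3 x4 : c.K q} {s : R} (hs : s ∉ q)
    (e1 : x1 * c.al q (c.ρ s) = c.al q a1) (e2 : x2 * c.al q (c.ρ s) = c.al q a2)
    (e3 : x3 * c.al q (c.ρ s) = c.al q a3) (e4 : x4 * c.al q (c.ρ s) = c.al q a4) :
    (c.loc q).Cob x1 x2 x3 x4 := by
  have k : (c.loc q).Cob (c.al q a1) (c.al q a2) (c.al q a3) (c.al q a4) := by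
    obtain ⟨x, y, z, w, h1, h2, h3, h4, rfl, rfl, rfl, rfl⟩ := h
    exact ⟨_, _, _, _, ⟨c.al_mem q h1.1, c.al_mem q h1.2⟩,
      ⟨c.al_mem q h2.1, c.al_mem q h2.2⟩, ⟨c.al_mem q h3.1, c.al_mem q h3.2⟩,
      ⟨c.al_mem q h4.1, c.al_mem q h4.2⟩, map_sub _ _ _, map_sub _ _ _, map_sub _ _ _,
      map_sub _ _ _⟩
  obtain ⟨w, hw⟩ := c.k_inv q hs
  have e : ∀ x, (c.loc q).ρ w * (x * c.al q (c.ρ s)) = x := fun x => by
    change c.lρ q w * _ = x
    linear_combination x * hw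
  have := k.mul w
  rwa [← e1, ← e2, ← e3, ← e4, e, e, e, e] at this

lemma cob_loc {a1 a2 a3 a4 : O}
    (h : (c.loc q).Cob (c.al q a1) (c.al q a2) (c.al q a3) (c.al q a4)) :
    ∃ t ∉ q, c.Cob (c.ρ t * a1) (c.ρ t * a2) (c.ρ t * a3) (c.ρ t * a4) := by
  obtain ⟨x, y, z, w, h1, h2, h3, h4, e1, e2, e3, e4⟩ := h
  obtain ⟨s, hs, x', m1, y', m2, z', m3, w', m4, d1, d2, d3, d4⟩ :=
    c.den4 q (S1 := c.A1 ⊓ c.B1) (S2 := c.A1 ⊓ c.B2) (S3 := c.A2 ⊓ c.B1) (S4 := c.A2 ⊓ c.B2)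
      (fun r => ⟨c.m1 r, c.m3 r⟩) (fun r => ⟨c.m1 r, c.m4 r⟩) (fun r => ⟨c.m2 r, c.m3 r⟩)
      (fun r => ⟨c.m2 r, c.m4 r⟩) (c.ls_inf q c.m1 c.m3 h1.1 h1.2) (c.ls_inf q c.m1 c.m4 h2.1 h2.2)
      (c.ls_inf q c.m2 c.m3 h3.1 h3.2) (c.ls_inf q c.m2 c.m4 h4.1 h4.2)
  obtain ⟨t, ht, f1, f2, f3, f4⟩ := c.eq4 q (u1 := c.ρ s * a1) (v1 := x' - y')
    (u2 := c.ρ s * a2) (v2 := z' - w') (u3 := c.ρ s * a3) (v3 := x' - z') (u4 := c.ρ s * a4)
    (v4 := y' - w') (by rw [map_mul, map_sub, e1, ← d1, ← d2]; ring)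
    (by rw [map_mul, map_sub, e2, ← d3, ← d4]; ring)
    (by rw [map_mul, map_sub, e3, ← d1, ← d3]; ring)
    (by rw [map_mul, map_sub, e4, ← d2, ← d4]; ring)
  refine ⟨t * s, nm q ht hs, ?_⟩
  simp only [map_mul, mul_assoc]
  rw [f1, f2, f3, f4]
  exact (show c.Cob (x' - y') (z' - w') (x' - z') (y' - w') from
    ⟨_, _, _, _, m1, m2, m3, m4, rfl, rfl, rfl, rfl⟩).mul t

lemma nil_loc {r : R} (h : c.Nil r) : (c.loc q).Nil (algebraMap R _ r) := by
  have e : ∀ (n : ℕ) (x : c.K q) (s : R) (a : O), x * c.al q (c.ρ s) = c.al q a →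
      (c.loc q).ρ (algebraMap R _ r) ^ n * x * c.al q (c.ρ s) = c.al q (c.ρ r ^ n * a) := by
    intro n x s a e
    rw [mul_assoc, e, map_mul, map_pow]
    exact congrArg (· ^ n * _) (c.lρ_al q r)
  refine ⟨fun x => ?_, fun x1 x2 x3 x4 k => ?_⟩
  · obtain ⟨s, hs, a, k⟩ := c.k_surj q x
    obtain ⟨n, hn⟩ := h.1 a
    exact ⟨n, sum_al hn hs (e n x s a k)⟩
  · obtain ⟨s, hs, a1, a2, a3, a4, k0, e1, e2, e3, e4⟩ := coc_loc k
    obtain ⟨n, hn⟩ := h.2 _ _ _ _ k0
    exact ⟨n, cob_al hn hs (e n _ s _ e1) (e n _ s _ e2) (e n _ s _ e3) (e n _ s _ e4)⟩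

lemma un1_loc {S T : Subring O} (hS : ∀ r, c.ρ r ∈ S) (hT : ∀ r, c.ρ r ∈ T) (h : c.Un1 q S T) :
    (c.loc q).Un1 (IsLocalRing.maximalIdeal _) (c.ls q S hS) (c.ls q T hT) := by
  obtain ⟨r, hr, w, h1, h2, e⟩ := h
  refine ⟨algebraMap R _ r, (IsLocalization.AtPrime.to_map_mem_maximal_iff _ q r).2 hr, c.al q w,
    c.al_mem q h1, c.al_mem q h2, ?_⟩
  change c.lρ q _ * _ = 1
  rw [lρ_al, ← map_mul, e, map_one]

lemma un_loc (h : c.Un q) : (c.loc q).Un (IsLocalRing.maximalIdeal _) :=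
  ⟨un1_loc c.m1 c.m3 h.1, un1_loc c.m1 c.m4 h.2.1, un1_loc c.m2 c.m3 h.2.2.1,
    un1_loc c.m2 c.m4 h.2.2.2⟩

lemma rad_loc {Y : Set R} (h : q ≤ (Ideal.span Y).radical) :
    IsLocalRing.maximalIdeal (Localization.AtPrime q) ≤
      (Ideal.span (algebraMap R (Localization.AtPrime q) '' Y)).radical := by
  rw [← Localization.AtPrime.map_eq_maximalIdeal, ← Ideal.map_span]
  exact (Ideal.map_mono h).trans (Ideal.map_radical_le _)

variable (c q) {p : ℕ} (hp : p.Prime) (h0 : (p : O) = 0) [IsNoetherianRing R]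

include hp h0 in
theorem finj_loc (hu : c.Un q) {Y : Set R} (hY : ∀ y ∈ Y, c.Nil y)
    (hr : q ≤ (Ideal.span Y).radical) (iQ : ∀ x, c.Sum (x ^ p) → c.Sum x)
    (iH : ∀ a1 a2 b1 b2, c.Coc a1 a2 b1 b2 → c.Cob (a1 ^ p) (a2 ^ p) (b1 ^ p) (b2 ^ p) →
      c.Cob a1 a2 b1 b2) : FInjective p (Localization.AtPrime q) := by
  intro F hF φ hφ i
  have e : ∀ (t : R) (a : O), (c.ρ t * a) ^ p = c.ρ (t ^ (p - 1)) * (c.ρ t * a ^ p) := by
    intro t a
    rw [map_pow, ← mul_assoc, ← pow_succ, Nat.sub_add_cancel hp.pos, mul_pow]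
  have e' : ∀ (x : c.K q) (s t : R) (a : O), x * c.al q (c.ρ s) = c.al q a →
      x * c.al q (c.ρ (t * s)) = c.al q (c.ρ t * a) := by
    intro x s t a k
    simp only [map_mul]
    rw [← k]
    ring
  refine (c.loc q).finj F hp (cast_eq_zero (c.al q) h0) hF (un_loc hu)
    (fun r hr' => Nil.rad ?_ (rad_loc hr hr')) (fun x hx => ?_) (fun x1 x2 x3 x4 k k' => ?_) φ hφ i
  · rintro _ ⟨y, hy, rfl⟩
    exact nil_loc (hY y hy)
  · obtain ⟨s, hs, a, k⟩ := c.k_surj q x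
    obtain ⟨t, ht, k'⟩ := sum_loc hx (s := s ^ p) (a := a ^ p) (by
      rw [map_pow, map_pow, map_pow, ← k, mul_pow])
    exact sum_al (iQ _ (e t a ▸ k'.mul _)) (nm q ht hs) (e' x s t a k)
  · obtain ⟨s, hs, a1, a2, a3, a4, k0, e1, e2, e3, e4⟩ := coc_loc k
    have d : ∀ (x : c.K q) (a : O), x * c.al q (c.ρ s) = c.al q a →
        (c.loc q).ρ (algebraMap R _ (s ^ p)) * x ^ p = c.al q (a ^ p) := by
      intro x a k
      change c.lρ q _ * _ = _
      rw [lρ_al, map_pow, map_pow, map_pow, ← k, mul_pow, mul_comm]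
    have k1 := k'.mul (algebraMap R _ (s ^ p))
    rw [d _ _ e1, d _ _ e2, d _ _ e3, d _ _ e4] at k1
    obtain ⟨t, ht, k2⟩ := cob_loc k1
    have k3 := k2.mul (t ^ (p - 1))
    rw [← e, ← e, ← e, ← e] at k3
    exact cob_al (iH _ _ _ _ (k0.mul t) k3) (nm q ht hs) (e' _ s t _ e1) (e' _ s t _ e2)
      (e' _ s t _ e3) (e' _ s t _ e4)

include hp h0 in
theorem nfinj_loc (hu : c.Un q) {f : R} (hf : f ∈ q) {Y : Set R} (hY : ∀ y ∈ Y, c.Nil y)
    (hr : q ≤ (Ideal.span (insert f Y)).radical) (ξ : O)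
    (h1 : ∀ s ∉ q, ∀ (n : ℕ) (w : O), ¬ c.Sum (c.ρ f ^ n * (c.ρ s * ξ - c.ρ f * w)))
    (h2 : ∃ (n : ℕ) (w : O), c.Sum (c.ρ f ^ n * (ξ ^ p - c.ρ f ^ p * w))) :
    ¬ FInjective p (Localization.AtPrime q) := by
  intro H
  have hR : (p : Localization.AtPrime q) = 0 :=
    cast_eq_zero (algebraMap R _) (c.inj (by rw [map_natCast, h0, map_zero]))
  let F : Localization.AtPrime q →+* Localization.AtPrime q :=
    { toFun := fun x => x ^ p
      map_one' := one_pow p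
      map_mul' := fun x y => mul_pow x y p
      map_zero' := zero_pow hp.ne_zero
      map_add' := add_pow_p hp hR }
  have ef : (c.loc q).ρ (algebraMap R _ f) = c.al q (c.ρ f) := c.lρ_al q f
  refine (c.loc q).nfinj F hp (cast_eq_zero (c.al q) h0) (fun _ => rfl) (un_loc hu)
    ((IsLocalization.AtPrime.to_map_mem_maximal_iff _ q f).2 hf) (fun r hr' => ?_) (c.al q ξ)
    (fun n w hw => ?_) ?_ (mk0 F) (fun _ => rfl) (H F (fun _ => rfl) (mk0 F) (fun _ => rfl) 4)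
  · obtain ⟨k, hk⟩ := rad_loc hr hr'
    rw [Set.image_insert_eq, Ideal.mem_span_insert] at hk
    obtain ⟨a, z, hz, e⟩ := hk
    refine ⟨k, a, Nil.rad ?_ (Ideal.le_radical (by rw [e, add_sub_cancel_left]; exact hz))⟩
    rintro _ ⟨y, hy, rfl⟩
    exact nil_loc (hY y hy)
  · obtain ⟨s, hs, a, k⟩ := c.k_surj q w
    obtain ⟨t, ht, k'⟩ := sum_loc hw (s := s) (a := c.ρ f ^ n * (c.ρ s * ξ - c.ρ f * a)) (by
      simp only [map_mul, map_sub, map_pow]
      rw [ef, ← k]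
      ring)
    refine h1 (t * s) (nm q ht hs) n (c.ρ t * a) ?_
    rw [map_mul]
    exact (by ring : c.ρ t * (c.ρ f ^ n * (c.ρ s * ξ - c.ρ f * a)) =
      c.ρ f ^ n * (c.ρ t * c.ρ s * ξ - c.ρ f * (c.ρ t * a))) ▸ k'
  · obtain ⟨n, w, h⟩ := h2
    refine ⟨n, c.al q w, sum_al h (n1 q) ?_⟩
    simp only [map_mul, map_sub, map_pow, map_one, mul_one]
    rw [ef]

end Cfg

end Pool.Agent.Work.MP_34c70a_al.N
end
end

-- merged part: Pool.Agent.Work.MP_34c70a_al.N.HC
section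
/-! The same criteria when the four subrings lie in a subring `T` that is the last term. -/

set_option autoImplicit false

noncomputable section

namespace Pool.Agent.Work.MP_34c70a_al.N

namespace Cfg

variable {R L : Type} [CommRing R] [CommRing L] (c : Cfg R L) (T : Subring L)

/-- The four subrings lie in `T`. -/
def In : Prop := c.A1 ≤ T ∧ c.A2 ≤ T ∧ c.B1 ≤ T ∧ c.B2 ≤ T

/-- The element `r` acts nilpotently on both cohomology modules of the complex ending in `T`. -/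
def NilT (r : R) : Prop :=
  (∀ x ∈ T, ∃ n : ℕ, c.Sum (c.ρ r ^ n * x)) ∧ ∀ a1 a2 b1 b2, c.Coc a1 a2 b1 b2 →
    ∃ n : ℕ, c.Cob (c.ρ r ^ n * a1) (c.ρ r ^ n * a2) (c.ρ r ^ n * b1) (c.ρ r ^ n * b2)

variable {c T} (h : c.In T)

/-- The configuration inside `T`. -/
def res : Cfg R T where
  ρ := c.ρ.codRestrict T fun r => h.1 (c.m1 r)
  A1 := c.A1.comap T.subtype
  A2 := c.A2.comap T.subtype
  B1 := c.B1.comap T.subtype
  B2 := c.B2.comap T.subtype
  inj := fun _ _ e => c.inj (congrArg Subtype.val e)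
  mem := fun x => (c.mem x.1).trans
    ⟨fun ⟨r, e⟩ => ⟨r, Subtype.ext e⟩, fun ⟨r, e⟩ => ⟨r, congrArg Subtype.val e⟩⟩

lemma res_sum (x : T) : (res h).Sum x ↔ c.Sum x.1 := by
  constructor
  · rintro ⟨a1, h1, a2, h2, b1, h3, b2, h4, rfl⟩
    exact ⟨a1.1, h1, a2.1, h2, b1.1, h3, b2.1, h4, rfl⟩
  · rintro ⟨a1, h1, a2, h2, b1, h3, b2, h4, e⟩
    exact ⟨⟨a1, h.1 h1⟩, h1, ⟨a2, h.2.1 h2⟩, h2, ⟨b1, h.2.2.1 h3⟩, h3, ⟨b2, h.2.2.2 h4⟩, h4,
      Subtype.ext e⟩

lemma res_coc {a1 a2 b1 b2 : T} (k : (res h).Coc a1 a2 b1 b2) : c.Coc a1.1 a2.1 b1.1 b2.1 :=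
  ⟨k.1, k.2.1, k.2.2.1, k.2.2.2.1, congrArg Subtype.val k.2.2.2.2⟩

lemma res_cob (a1 a2 b1 b2 : T) : (res h).Cob a1 a2 b1 b2 ↔ c.Cob a1.1 a2.1 b1.1 b2.1 := by
  constructor
  · rintro ⟨x, y, z, w, h1, h2, h3, h4, rfl, rfl, rfl, rfl⟩
    exact ⟨x.1, y.1, z.1, w.1, h1, h2, h3, h4, rfl, rfl, rfl, rfl⟩
  · rintro ⟨x, y, z, w, h1, h2, h3, h4, e1, e2, e3, e4⟩
    exact ⟨⟨x, h.1 h1.1⟩, ⟨y, h.1 h2.1⟩, ⟨z, h.2.1 h3.1⟩, ⟨w, h.2.1 h4.1⟩, h1, h2, h3, h4,
      Subtype.ext e1, Subtype.ext e2, Subtype.ext e3, Subtype.ext e4⟩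

lemma res_nil {r : R} (k : c.NilT T r) : (res h).Nil r :=
  ⟨fun x => (k.1 x.1 x.2).imp fun _ e => (res_sum h _).2 e,
    fun _ _ _ _ e => (k.2 _ _ _ _ (res_coc h e)).imp fun _ e => (res_cob h _ _ _ _).2 e⟩

lemma res_un {q : Ideal R} (k : c.Un q) : (res h).Un q := by
  have a : ∀ S S' : Subring L, S ≤ T → c.Un1 q S S' →
      (res h).Un1 q (S.comap T.subtype) (S'.comap T.subtype) := by
    rintro S S' hS ⟨r, hr, w, h1, h2, e⟩
    exact ⟨r, hr, ⟨w, hS h1⟩, h1, h2, Subtype.ext e⟩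
  exact ⟨a _ _ h.1 k.1, a _ _ h.1 k.2.1, a _ _ h.2.1 k.2.2.1, a _ _ h.2.1 k.2.2.2⟩

variable (q : Ideal R) [q.IsPrime] {p : ℕ} (hp : p.Prime) (h0 : (p : L) = 0) [IsNoetherianRing R]

include h hp h0 in
theorem finj_top (hu : c.Un q) {Y : Set R} (hY : ∀ y ∈ Y, c.NilT T y)
    (hr : q ≤ (Ideal.span Y).radical) (iQ : ∀ x ∈ T, c.Sum (x ^ p) → c.Sum x)
    (iH : ∀ a1 a2 b1 b2, c.Coc a1 a2 b1 b2 → c.Cob (a1 ^ p) (a2 ^ p) (b1 ^ p) (b2 ^ p) →
      c.Cob a1 a2 b1 b2) : FInjective p (Localization.AtPrime q) :=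
  (res h).finj_loc q hp (Subtype.ext (by simpa using h0)) (res_un h hu)
    (fun y hy => res_nil h (hY y hy)) hr
    (fun x hx => (res_sum h x).2 (iQ x.1 x.2 ((res_sum h _).1 hx)))
    fun _ _ _ _ k k' => (res_cob h _ _ _ _).2 (iH _ _ _ _ (res_coc h k) ((res_cob h _ _ _ _).1 k'))

include h hp h0 in
theorem nfinj_top (hu : c.Un q) {f : R} (hf : f ∈ q) {Y : Set R} (hY : ∀ y ∈ Y, c.NilT T y)
    (hr : q ≤ (Ideal.span (insert f Y)).radical) {ξ : L} (hξ : ξ ∈ T)
    (h1 : ∀ s ∉ q, ∀ (n : ℕ), ∀ w ∈ T, ¬ c.Sum (c.ρ f ^ n * (c.ρ s * ξ - c.ρ f * w)))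
    (h2 : ∃ (n : ℕ), ∃ w ∈ T, c.Sum (c.ρ f ^ n * (ξ ^ p - c.ρ f ^ p * w))) :
    ¬ FInjective p (Localization.AtPrime q) := by
  refine (res h).nfinj_loc q hp (Subtype.ext (by simpa using h0)) (res_un h hu) hf
    (fun y hy => res_nil h (hY y hy)) hr ⟨ξ, hξ⟩
    (fun s hs n w k => h1 s hs n w.1 w.2 ((res_sum h _).1 k)) ?_
  obtain ⟨n, w, hw, k⟩ := h2
  exact ⟨n, ⟨w, hw⟩, (res_sum h _).2 k⟩

end Cfg

end Pool.Agent.Work.MP_34c70a_al.N
end
end

-- merged part: Pool.Agent.Work.MP_34c70a_al.N.RR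
section
/-!
The four charts, their intersection and the irrelevant ideal.
-/

set_option autoImplicit false

open Module MvPolynomial

noncomputable section

namespace Pool.Agent.Work.MP_34c70a_al.N

variable (p : ℕ) [hp : Fact p.Prime] {σ : Type} (ι : Option Bool → σ) (o : Option σ)

/-- The diagonal of the bigrading. -/
def Dl (x : I4 p σ) : Prop := (p : ℤ) * dd p false x = (p + 1) * dd p true x

omit hp in
lemma Dl.ex {x : I4 p σ} (h : Dl p x) :
    ∃ n : ℤ, dd p false x = (p + 1) * n ∧ dd p true x = p * n :=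
  ⟨dd p false x - dd p true x, by rw [Dl] at h; linarith, by rw [Dl] at h; linarith⟩

/-- The diagonal subalgebra. -/
def Tp : Subalgebra (K1 p) (DD p ι o) :=
  (wmG p ι o false p (-(p + 1))).sub ⊓ (wmG p ι o false (-p) (p + 1)).sub

lemma mem_Tp' (i : Bool) {x : DD p ι o} : x ∈ Tp p ι o ↔
    x ∈ V (b4 p ι o i) (wG p p (-(p + 1))) 0 ∧ x ∈ V (b4 p ι o i) (wG p (-p) (p + 1)) 0 := by
  rw [swapG p ι o _ _ i false, swapG p ι o _ _ i false]
  rfl

lemma mem_Tp (i : Bool) {x : DD p ι o} : x ∈ Tp p ι o ↔ x ∈ Sp (b4 p ι o i) (Dl p) := by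
  rw [mem_Tp' p ι o i]
  constructor
  · exact fun h => Sp_mono _ (fun y hy => by
      simp only [wG] at hy
      rw [Dl]
      linarith [hy.1, hy.2]) (Sp_and _ h.1 h.2)
  · intro h
    constructor <;> refine Sp_mono _ (fun y hy => ?_) h <;> rw [Dl] at hy <;> simp only [wG] <;>
      linarith

/-- The chart with index `d, i`, before passing to the diagonal: in the group `d` only the coordinate `i`
is inverted. -/
def Cb (k : Bool × Bool) : Subalgebra (K1 p) (DD p ι o) :=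
  (wmE p ι o k.2 (k.1, !k.2) (Or.inr rfl)).sub

/-- The chart with index `d, i`. -/
def Ch (k : Bool × Bool) : Subalgebra (K1 p) (DD p ι o) := Cb p ι o k ⊓ Tp p ι o

lemma mem_Cb {d j : Bool} (i : Bool) (h : d = true ∨ i = j) {x : DD p ι o} :
    x ∈ Cb p ι o (d, j) ↔ x ∈ V (b4 p ι o i) (wE p (d, !j)) 0 := by
  rcases h with rfl | rfl
  · rw [swapE p ι o _ i j]
    rfl
  · rfl

lemma mem_Ch {d j : Bool} (i : Bool) (h : d = true ∨ i = j) {x : DD p ι o} :
    x ∈ Ch p ι o (d, j) ↔ x ∈ Sp (b4 p ι o i) (fun y => Dl p y ∧ 0 ≤ y.1.1.1 (d, !j)) := by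
  rw [Ch, Algebra.mem_inf, mem_Cb p ι o i h, mem_Tp p ι o i]
  exact ⟨fun h => Sp_and _ h.2 h.1,
    fun h => ⟨Sp_mono _ (fun _ h => h.2) h, Sp_mono _ (fun _ h => h.1) h⟩⟩

lemma Ch_le (k : Bool × Bool) : Ch p ι o k ≤ Tp p ι o := inf_le_right

/-- The intersection of the four charts. -/
def RR : Subalgebra (K1 p) (DD p ι o) := ⨅ k, Ch p ι o k

lemma mem_RR {x : DD p ι o} : x ∈ RR p ι o ↔ ∀ k, x ∈ Ch p ι o k := Algebra.mem_iInf

lemma mem_RR' {x : DD p ι o} : x ∈ RR p ι o ↔ x ∈ Tp p ι o ∧ ∀ k, x ∈ Cb p ι o k := by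
  rw [mem_RR]
  exact ⟨fun h => ⟨(h (false, false)).2, fun k => (h k).1⟩, fun h k => ⟨h.2 k, h.1⟩⟩

/-- The support conditions of an element of `RR` in the basis `i`. -/
lemma RR_supp (i : Bool) {x : DD p ι o} (h : x ∈ RR p ι o) :
    x ∈ Sp (b4 p ι o i) (fun y => Dl p y ∧ 0 ≤ y.1.1.1 (false, !i) ∧ 0 ≤ y.1.1.1 (true, false) ∧
      0 ≤ y.1.1.1 (true, true)) := by
  rw [mem_RR] at h
  exact Sp_mono _ (fun y hy => ⟨hy.1.1, hy.1.2, hy.2.1.2, hy.2.2.2⟩)
    (Sp_and _ ((mem_Ch p ι o i (Or.inr rfl)).1 (h (false, i)))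
      (Sp_and _ ((mem_Ch p ι o i (Or.inl rfl)).1 (h (true, true)))
        ((mem_Ch p ι o i (Or.inl rfl)).1 (h (true, false)))))

lemma RR_deg (i : Bool) {x : DD p ι o} (h : x ∈ RR p ι o) : x ∈ V (b4 p ι o i) (wG p 1 0) 0 := by
  refine Sp_mono _ ?_ (RR_supp p ι o i h)
  rintro y ⟨h1, -, h2, h3⟩
  obtain ⟨n, a, b⟩ := h1.ex
  have hp0 : (0 : ℤ) < p := by exact_mod_cast hp.out.pos
  have : 0 ≤ n := by
    refine le_of_not_gt fun hn => ?_
    have := mul_neg_of_pos_of_neg hp0 hn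
    simp only [dd, dg] at b
    omega
  simp only [wG]
  nlinarith

/-- The configuration of the four charts. -/
def cfg : Cfg (RR p ι o) (DD p ι o) where
  ρ := (RR p ι o).val.toRingHom
  A1 := (Ch p ι o (false, false)).toSubring
  A2 := (Ch p ι o (false, true)).toSubring
  B1 := (Ch p ι o (true, false)).toSubring
  B2 := (Ch p ι o (true, true)).toSubring
  inj := Subtype.val_injective
  mem x := by
    constructor
    · rintro ⟨a, b, c, d⟩
      refine ⟨⟨x, (mem_RR p ι o).2 ?_⟩, rfl⟩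
      rintro ⟨_ | _, _ | _⟩ <;> assumption
    · rintro ⟨r, rfl⟩
      have := (mem_RR p ι o).1 r.2
      exact ⟨this _, this _, this _, this _⟩

lemma cfg_in : (cfg p ι o).In (Tp p ι o).toSubring :=
  ⟨fun _ h => Ch_le p ι o _ h, fun _ h => Ch_le p ι o _ h, fun _ h => Ch_le p ι o _ h,
    fun _ h => Ch_le p ι o _ h⟩

/-- The sum of the four charts. -/
def SM : Submodule (K1 p) (DD p ι o) := ⨆ k, Subalgebra.toSubmodule (Ch p ι o k)

lemma mem_SM {k : Bool × Bool} {x : DD p ι o} (h : x ∈ Ch p ι o k) : x ∈ SM p ι o :=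
  Submodule.mem_iSup_of_mem k h

lemma SM_induction {Q : DD p ι o → Prop} (h : ∀ k, ∀ x ∈ Ch p ι o k, Q x)
    (ha : ∀ x y, Q x → Q y → Q (x + y)) {x : DD p ι o} (hx : x ∈ SM p ι o) : Q x :=
  Submodule.iSup_induction _ (motive := Q) hx h (h (false, false) 0 (zero_mem _)) ha

lemma sum_iff {x : DD p ι o} : (cfg p ι o).Sum x ↔ x ∈ SM p ι o := by
  constructor
  · rintro ⟨a, ha, b, hb, c, hc, d, hd, rfl⟩
    exact add_mem (add_mem (add_mem (mem_SM p ι o ha) (mem_SM p ι o hb)) (mem_SM p ι o hc))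
      (mem_SM p ι o hd)
  · refine SM_induction p ι o ?_ ?_
    · rintro ⟨_ | _, _ | _⟩ x hx
      · exact ⟨x, hx, 0, zero_mem _, 0, zero_mem _, 0, zero_mem _, by simp⟩
      · exact ⟨0, zero_mem _, x, hx, 0, zero_mem _, 0, zero_mem _, by simp⟩
      · exact ⟨0, zero_mem _, 0, zero_mem _, x, hx, 0, zero_mem _, by simp⟩
      · exact ⟨0, zero_mem _, 0, zero_mem _, 0, zero_mem _, x, hx, by simp⟩
    · rintro x y ⟨a, ha, b, hb, c, hc, d, hd, rfl⟩ ⟨a', ha', b', hb', c', hc', d', hd', rfl⟩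
      exact ⟨_, add_mem ha ha', _, add_mem hb hb', _, add_mem hc hc', _, add_mem hd hd', by ring⟩

lemma SM_mul {r x : DD p ι o} (hr : r ∈ RR p ι o) (hx : x ∈ SM p ι o) : r * x ∈ SM p ι o :=
  SM_induction p ι o (Q := fun x => r * x ∈ SM p ι o)
    (fun k _ h => mem_SM p ι o (mul_mem ((mem_RR p ι o).1 hr k) h))
    (fun x y hx hy => by rw [mul_add]; exact add_mem hx hy) hx

lemma SM_pow {x : DD p ι o} (hx : x ∈ SM p ι o) : x ^ p ∈ SM p ι o :=
  SM_induction p ι o (Q := fun x => x ^ p ∈ SM p ι o)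
    (fun _ _ h => mem_SM p ι o (pow_mem h p))
    (fun x y hx hy => by rw [add_pow_char]; exact add_mem hx hy) hx

/-- The elements of positive degree. -/
def qq : Ideal (RR p ι o) where
  carrier := {x | x.1 ∈ V (b4 p ι o false) (wG p 1 0) 1}
  add_mem' hx hy := (V (b4 p ι o false) (wG p 1 0) 1).add_mem hx hy
  zero_mem' := (V (b4 p ι o false) (wG p 1 0) 1).zero_mem
  smul_mem' c _ hx := (wmG p ι o false 1 0).mul' (RR_deg p ι o false c.2) hx (by simp)

lemma mem_qq (i : Bool) {x : RR p ι o} : x ∈ qq p ι o ↔ x.1 ∈ V (b4 p ι o i) (wG p 1 0) 1 := by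
  rw [swapG p ι o 1 0 i false]
  rfl

/-- The map from `L2`. -/
def em : L2 p →+* DD p ι o := (al p ι o).comp C

lemma em_apply (x : L2 p) : em p ι o x = al p ι o (C x) := rfl

lemma em_smul (c : K1 p) (x : L2 p) : em p ι o (c • x) = c • em p ι o x := by
  rw [Algebra.smul_def, Algebra.smul_def, map_mul,
    IsScalarTower.algebraMap_apply (K1 p) (L3 p σ) (DD p ι o)]
  rfl

lemma em_b2 (i : Bool) (a : I2) : em p ι o (b2 p a) = b4 p ι o i ((a, 0), 0) := by
  rw [b4_apply, b3_apply]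
  simp [em_apply]

lemma em_mem (i : Bool) {P : I2 → Prop} {Q : I4 p σ → Prop} {x : L2 p} (hx : x ∈ Sp (b2 p) P)
    (h : ∀ a, P a → Q ((a, 0), 0)) : em p ι o x ∈ Sp (b4 p ι o i) Q :=
  al_mem p ι o i (P := fun y => Q (y, 0)) (mon_mem p hx 0 h) (fun _ h => h)

lemma mo_mul_b4 (i : Bool) (u : GG) (y : I4 p σ) :
    em p ι o (mo p u) * b4 p ι o i y = b4 p ι o i (((u + y.1.1.1, y.1.1.2), y.1.2), y.2) := by
  obtain ⟨⟨a, μ⟩, j⟩ := y
  rw [b4_apply, b4_apply, b3_apply, b3_apply, ← mo_mul_b2, em_apply, ← mul_assoc, ← map_mul,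
    C_mul_monomial]

lemma mon_mul_b4 (i : Bool) (ν : σ →₀ ℕ) (y : I4 p σ) :
    al p ι o (monomial ν 1) * b4 p ι o i y = b4 p ι o i ((y.1.1, ν + y.1.2), y.2) := by
  obtain ⟨⟨a, μ⟩, j⟩ := y
  rw [b4_apply, b4_apply, b3_apply, b3_apply, ← mul_assoc, ← map_mul, monomial_mul, one_mul]

/-- An element of `L3` whose support is on the diagonal lies in a chart as soon as the exponent
is nonnegative. -/
lemma al_mem_Ch (k : Bool × Bool) {F : L3 p σ}
    (hF : F ∈ Sp (b3 p σ) (fun y => (p : ℤ) * dg false y.1 = (p + 1) * dg true y.1 ∧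
      0 ≤ y.1.1 (k.1, !k.2))) : al p ι o F ∈ Ch p ι o k :=
  (mem_Ch p ι o k.2 (Or.inr rfl)).2 (al_mem p ι o k.2 hF (fun y hy => ⟨by
    simpa [Dl, dd] using hy.1, hy.2⟩))

lemma mon_mem_RR (ν : σ →₀ ℕ) : al p ι o (monomial ν 1) ∈ RR p ι o :=
  (mem_RR p ι o).2 fun k => al_mem_Ch p ι o k (mon_mem p (P := fun a => a = (0, 0))
    (by rw [← mo_zero, mo_eq]; exact b_mem_Sp _ rfl) ν (by rintro _ rfl; simp [dg]))

/-- The parameters as elements of `RR`. -/
def XX (k : σ) : RR p ι o := ⟨al p ι o (X k), mon_mem_RR p ι o _⟩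

/-- Multiplication by a parameter reflects support conditions that ignore the parameters. -/
lemma X_cancel (i : Bool) (k : σ) {P : I2 → Fin p → Prop} {x : DD p ι o}
    (h : al p ι o (X k) * x ∈ Sp (b4 p ι o i) (fun y => P y.1.1 y.2)) :
    x ∈ Sp (b4 p ι o i) (fun y => P y.1.1 y.2) := by
  rw [mem_Sp] at h ⊢
  intro y hy
  refine h ((y.1.1, Finsupp.single k 1 + y.1.2), y.2) ?_
  rwa [repr_shift (b4 p ι o i) (P := fun _ => True) (al p ι o (X k))
    (fun y => ((y.1.1, Finsupp.single k 1 + y.1.2), y.2)) ?_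
    (fun y _ => mon_mul_b4 p ι o i _ y) (Sp_true _ (fun _ => trivial) x) trivial]
  rintro ⟨⟨a, μ⟩, j⟩ ⟨⟨a', μ'⟩, j'⟩ - - e
  simpa using e

lemma X_reg (k : σ) {x : DD p ι o} (h : al p ι o (X k) * x = 0) : x = 0 :=
  Sp_false _ (X_cancel p ι o false k (P := fun _ _ => False) (by rw [h]; exact zero_mem _))
    (fun _ h => h)

lemma X_cancel_Tp (k : σ) {x : DD p ι o} (h : al p ι o (X k) * x ∈ Tp p ι o) :
    x ∈ Tp p ι o := by
  rw [mem_Tp p ι o false] at h ⊢
  exact X_cancel p ι o false k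
    (P := fun a j => (p : ℤ) * dg false a = (p + 1) * (dg true a + (j : ℕ))) h

lemma X_cancel_RR (k : σ) {x : DD p ι o} (h : al p ι o (X k) * x ∈ RR p ι o) :
    x ∈ RR p ι o := by
  rw [mem_RR'] at h ⊢
  exact ⟨X_cancel_Tp p ι o k h.1, fun c =>
    X_cancel p ι o c.2 k (P := fun a _ => 0 ≤ a.1 (c.1, !c.2)) (h.2 c)⟩

/-- The exponent vector of `u_i ^ (p + 1) x_j ^ p`. -/
def yv (i j : Bool) : GG := (p + 1) • sg false i + p • sg true j

lemma mo_mem_Ch (k : Bool × Bool) {v : GG}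
    (h : (p : ℤ) * (v (false, false) + v (false, true)) =
      (p + 1) * (v (true, false) + v (true, true))) (h' : 0 ≤ v (k.1, !k.2)) :
    em p ι o (mo p v) ∈ Ch p ι o k :=
  al_mem_Ch p ι o k (mon_mem p (P := fun a => a = (v, 0)) (by rw [mo_eq]; exact b_mem_Sp _ rfl) 0
    (by rintro _ rfl; simpa [dg] using ⟨h, h'⟩))

/-- The four monomials `u_i ^ (p + 1) x_j ^ p`. -/
def yy (k : Bool × Bool) : RR p ι o :=
  ⟨em p ι o (mo p (yv p k.1 k.2)), (mem_RR p ι o).2 fun c => mo_mem_Ch p ι o c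
    (by obtain ⟨_ | _, _ | _⟩ := k <;> simp [yv, sg, mul_comm])
    (by
      obtain ⟨_ | _, _ | _⟩ := k <;> obtain ⟨_ | _, _ | _⟩ := c <;> simp [yv, sg] <;>
        positivity)⟩

lemma yy_val (k : Bool × Bool) : (yy p ι o k).1 = em p ι o (mo p (yv p k.1 k.2)) := rfl

lemma yy_mem (k : Bool × Bool) : yy p ι o k ∈ qq p ι o := by
  rw [mem_qq p ι o false, yy_val, mo_eq, em_b2 p ι o false]
  refine b_mem_Sp _ ?_
  obtain ⟨_ | _, _ | _⟩ := k <;> simp [wG, dd, dg, yv, sg]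

lemma yy_rel : yy p ι o (false, true) * yy p ι o (true, false) =
    yy p ι o (false, false) * yy p ι o (true, true) := by
  apply Subtype.ext
  simp only [MulMemClass.coe_mul, yy_val, ← map_mul, ← mo_add, yv]
  congr 2
  abel

lemma yy_inv (i j : Bool) : ∃ w, w ∈ Ch p ι o (false, i) ∧ w ∈ Ch p ι o (true, j) ∧
    (yy p ι o (i, j)).1 * w = 1 := by
  refine ⟨em p ι o (mo p (-yv p i j)), mo_mem_Ch p ι o _ ?_ ?_, mo_mem_Ch p ι o _ ?_ ?_, ?_⟩
  · cases i <;> cases j <;> simp [yv, sg] <;> ring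
  · cases i <;> cases j <;> simp [yv, sg]
  · cases i <;> cases j <;> simp [yv, sg] <;> ring
  · cases i <;> cases j <;> simp [yv, sg]
  · rw [yy_val, ← map_mul, mo_neg, map_one]

lemma cfg_un {q : Ideal (RR p ι o)} (h : ∀ k, yy p ι o k ∈ q) : (cfg p ι o).Un q :=
  ⟨⟨_, h _, yy_inv p ι o false false⟩, ⟨_, h _, yy_inv p ι o false true⟩,
    ⟨_, h _, yy_inv p ι o true false⟩, ⟨_, h _, yy_inv p ι o true true⟩⟩

/-- Clearing denominators. -/
lemma yy_clear (k c : Bool × Bool) (hc : c.2 = !(if c.1 then k.2 else k.1)) {x : DD p ι o}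
    (hx : x ∈ Tp p ι o) : ∃ N : ℕ, ∀ n, N ≤ n → (yy p ι o k).1 ^ n * x ∈ Ch p ι o c := by
  obtain ⟨N, hN⟩ := exists_V (b4 p ι o c.2) (wE p (c.1, !c.2)) x
  have W := wmE p ι o c.2 (c.1, !c.2) (Or.inr rfl)
  have h1 : (yy p ι o k).1 ∈ V (b4 p ι o c.2) (wE p (c.1, !c.2)) 1 := by
    rw [yy_val, mo_eq, em_b2 p ι o c.2]
    refine b_mem_Sp _ ?_
    have := hp.out.one_le
    obtain ⟨_ | _, _ | _⟩ := k <;> obtain ⟨_ | _, _ | _⟩ := c <;> simp at hc <;>
      simp [wE, yv, sg, this]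
  refine ⟨N, fun n hn => ⟨W.mul' (W.pow h1 n) hN (by omega), ?_⟩⟩
  exact mul_mem (pow_mem ((mem_RR' p ι o).1 (yy p ι o k).2).1 n) hx

theorem cfg_nil (k : Bool × Bool) : (cfg p ι o).NilT (Tp p ι o).toSubring (yy p ι o k) := by
  have cl : ∀ x ∈ Tp p ι o, ∃ N : ℕ, ∀ n, N ≤ n → (yy p ι o k).1 ^ n * x ∈ Ch p ι o (false, !k.1) ∧
      (yy p ι o k).1 ^ n * x ∈ Ch p ι o (true, !k.2) := fun x hx => by
    obtain ⟨N, h⟩ := yy_clear p ι o k (false, !k.1) rfl hx
    obtain ⟨M, h'⟩ := yy_clear p ι o k (true, !k.2) rfl hx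
    exact ⟨N + M, fun n hn => ⟨h n (by omega), h' n (by omega)⟩⟩
  refine ⟨fun x hx => ?_, ?_⟩
  · obtain ⟨N, h⟩ := cl x hx
    exact ⟨N, (sum_iff p ι o).2 (mem_SM p ι o (h N le_rfl).1)⟩
  · rintro a1 a2 b1 b2 ⟨h1, h2, h3, h4, e⟩
    obtain ⟨N1, k1⟩ := cl a1 (Ch_le p ι o _ h1)
    obtain ⟨N2, k2⟩ := cl a2 (Ch_le p ι o _ h2)
    obtain ⟨N3, k3⟩ := cl b1 (Ch_le p ι o _ h3)
    obtain ⟨N4, k4⟩ := cl b2 (Ch_le p ι o _ h4)
    refine ⟨N1 + N2 + N3 + N4, ?_⟩
    have k1 := k1 (N1 + N2 + N3 + N4) (by omega)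
    have k2 := k2 (N1 + N2 + N3 + N4) (by omega)
    have k3 := k3 (N1 + N2 + N3 + N4) (by omega)
    have k4 := k4 (N1 + N2 + N3 + N4) (by omega)
    have r := (mem_RR p ι o).1 (pow_mem (yy p ι o k).2 (N1 + N2 + N3 + N4))
    have h1 := mul_mem (r (false, false)) h1
    have h2 := mul_mem (r (false, true)) h2
    have h3 := mul_mem (r (true, false)) h3
    have h4 := mul_mem (r (true, true)) h4
    have e' := congrArg (fun x => (yy p ι o k).1 ^ (N1 + N2 + N3 + N4) * x) e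
    simp only [mul_sub] at e'
    change (cfg p ι o).Cob ((yy p ι o k).1 ^ _ * _) ((yy p ι o k).1 ^ _ * _)
      ((yy p ι o k).1 ^ _ * _) ((yy p ι o k).1 ^ _ * _)
    generalize (yy p ι o k).1 ^ (N1 + N2 + N3 + N4) * a1 = x1 at *
    generalize (yy p ι o k).1 ^ (N1 + N2 + N3 + N4) * a2 = x2 at *
    generalize (yy p ι o k).1 ^ (N1 + N2 + N3 + N4) * b1 = y1 at *
    generalize (yy p ι o k).1 ^ (N1 + N2 + N3 + N4) * b2 = y2 at *
    obtain ⟨_ | _, _ | _⟩ := k
    · exact ⟨0, -x1, -y1, -y1 - x2, ⟨zero_mem _, zero_mem _⟩, ⟨neg_mem h1, neg_mem k1.2⟩,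
        ⟨neg_mem k3.1, neg_mem h3⟩, ⟨sub_mem (neg_mem k3.1) h2, sub_mem (neg_mem k3.2) k2.2⟩,
        by ring, by ring, by ring, by linear_combination e'⟩
    · exact ⟨x1, 0, x2 - y2, -y2, ⟨h1, k1.2⟩, ⟨zero_mem _, zero_mem _⟩,
        ⟨sub_mem h2 k4.1, sub_mem k2.2 k4.2⟩, ⟨neg_mem k4.1, neg_mem h4⟩,
        by ring, by ring, by linear_combination -e', by ring⟩
    · exact ⟨y1, y1 - x1, 0, -x2, ⟨k3.1, h3⟩, ⟨sub_mem k3.1 h1, sub_mem k3.2 k1.2⟩,
        ⟨zero_mem _, zero_mem _⟩, ⟨neg_mem h2, neg_mem k2.2⟩,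
        by ring, by ring, by ring, by linear_combination e'⟩
    · exact ⟨x1 + y2, y2, x2, 0, ⟨add_mem h1 k4.1, add_mem k1.2 k4.2⟩, ⟨k4.1, h4⟩,
        ⟨h2, k2.2⟩, ⟨zero_mem _, zero_mem _⟩,
        by ring, by ring, by linear_combination -e', by ring⟩

/-- The ambient ring of the special fibre. -/
abbrev DS : Type := DD p (id : Option Bool → Option Bool) none

/-- The ambient ring of the total space. -/
abbrev DR : Type := DD p (some : Option Bool → Option (Option Bool)) (some none)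

/-- The special fibre. -/
abbrev SS : Subalgebra (K1 p) (DS p) := RR p id none

/-- The total space. -/
abbrev RT : Subalgebra (K1 p) (DR p) := RR p some (some none)

/-- The deformation parameter. -/
def ff : RT p := XX p some (some none) none

lemma zz_none (i : Bool) : zz p ι none i = zz p ι none false := by
  cases i
  · rfl
  · rw [zz_true]
    simp [hh, ph]

lemma bz_none (i : Bool) : bz p ι none i = bz p ι none false := by
  ext j
  rw [bz_apply, bz_apply, zz_none]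

lemma b4_none (i : Bool) : b4 p ι none i = b4 p ι none false := by rw [b4, b4, bz_none]

lemma zz_pow_none : zz p ι none false ^ p = al p ι none (aa p ι) := by
  have h1 : p - 1 ≠ 0 := Nat.sub_ne_zero_of_lt hp.out.one_lt
  rw [zz_rel]
  simp [cz1, cz0, hh, ph, h1, hp.out.ne_zero]

end Pool.Agent.Work.MP_34c70a_al.N
end
end

-- merged part: Pool.Agent.Work.MP_34c70a_al.N.Inj
section
/-!
Frobenius is injective on the cohomology of the special fibre.
-/

set_option autoImplicit false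

open Module MvPolynomial

noncomputable section

namespace Pool.Agent.Work.MP_34c70a_al.N

variable (p : ℕ) [hp : Fact p.Prime]

/-- Polynomials all of whose coefficients lie in the sum of the four subrings. -/
def S3 : Submodule (K1 p) (L3 p (Option Bool)) :=
  Sp (b3 p (Option Bool)) (fun y => ∃ k, 0 ≤ y.1.1 k)

/-- The same in the ambient ring of the special fibre. -/
def S4 : Submodule (K1 p) (DS p) := Sp (b4 p id none false) (fun y => ∃ k, 0 ≤ y.1.1.1 k)

lemma mem_S3 {F : L3 p (Option Bool)} : F ∈ S3 p ↔ ∀ μ, coeff μ F ∈ S2 p := mem_Sp3 p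

/-- Products and powers for unions of half spaces. -/
lemma Inj_mul {K R I κ : Type} [CommRing K] [CommRing R] [Algebra K R] {b : Basis I K R}
    {w : κ → I → ℤ} (W : ∀ k, WM b (w k)) {x y : R} (hx : ∀ k, x ∈ V b (w k) 0)
    (hy : y ∈ Sp b (fun i => ∃ k, 0 ≤ w k i)) : x * y ∈ Sp b (fun i => ∃ k, 0 ≤ w k i) := by
  refine Sp_induction b (Q := fun y => x * y ∈ Sp b (fun i => ∃ k, 0 ≤ w k i)) (by simp) ?_ ?_ hy
  · rintro c i ⟨k, hk⟩
    rw [mul_smul_comm]
    exact Submodule.smul_mem _ _ (Sp_mono _ (fun j hj => ⟨k, hj⟩)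
      ((W k).mul' (hx k) (b_mem_V b _ i) (by simpa using hk)))
  · intro y z h1 h2
    rw [mul_add]
    exact add_mem h1 h2

lemma Inj_pow {K R I κ : Type} [CommRing K] [CommRing R] [Algebra K R] [CharP R p]
    {b : Basis I K R} {w : κ → I → ℤ} (W : ∀ k, WM b (w k)) {y : R}
    (hy : y ∈ Sp b (fun i => ∃ k, 0 ≤ w k i)) : y ^ p ∈ Sp b (fun i => ∃ k, 0 ≤ w k i) := by
  refine Sp_induction b (Q := fun y => y ^ p ∈ Sp b (fun i => ∃ k, 0 ≤ w k i)) ?_ ?_ ?_ hy
  · rw [zero_pow hp.out.ne_zero]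
    exact zero_mem _
  · rintro c i ⟨k, hk⟩
    rw [smul_pow]
    refine Submodule.smul_mem _ _ (Sp_mono _ (fun j hj => ⟨k, le_trans ?_ hj⟩)
      ((W k).pow (b_mem_V b _ i) p))
    positivity
  · intro y z h1 h2
    rw [add_pow_char]
    exact add_mem h1 h2

lemma Inj_cancel {K R I : Type} [CommRing K] [IsDomain K] [CommRing R] [Algebra K R]
    {b : Basis I K R} {P : I → Prop} {c : K} (hc : c ≠ 0) {x : R} (h : c • x ∈ Sp b P) :
    x ∈ Sp b P := by
  rw [mem_Sp] at h ⊢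
  intro i hi
  refine h i ?_
  rw [map_smul, Finsupp.smul_apply, smul_eq_mul]
  exact mul_ne_zero hc hi

lemma Inj_wm3 (k : Bool × Bool) : WM (b3 p (Option Bool)) (fun i => i.1.1 k) :=
  wm3 p (Option Bool) (w := fun i => i.1 k) (wm_ex p k)

lemma Inj_C {x : L2 p} {k : Bool × Bool} (h : x ∈ V (b2 p) (fun i => i.1 k) 0) :
    (C x : L3 p (Option Bool)) ∈ V (b3 p (Option Bool)) (fun i => i.1.1 k) 0 :=
  C_mem p (w := fun i => i.1 k) h

lemma S3_mul {x y : L3 p (Option Bool)}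
    (hx : ∀ k, x ∈ V (b3 p (Option Bool)) (fun i => i.1.1 k) 0) (hy : y ∈ S3 p) : x * y ∈ S3 p :=
  Inj_mul (w := fun k (i : I3 (Option Bool)) => i.1.1 k) (Inj_wm3 p) hx hy

lemma S3_pow {y : L3 p (Option Bool)} (hy : y ∈ S3 p) : y ^ p ∈ S3 p :=
  Inj_pow p (w := fun k (i : I3 (Option Bool)) => i.1.1 k) (Inj_wm3 p) hy

lemma S3_frob {F : L3 p (Option Bool)} (h : F ^ p ∈ S3 p) : F ∈ S3 p := by
  rw [mem_S3] at h ⊢
  intro μ
  have h1 := h (p • μ)
  rw [← map_frobenius_expand, coeff_map, coeff_expand_smul p hp.out.ne_zero, frobenius_def] at h1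
  exact S2_frob h1

lemma S3_pderiv (k : Option Bool) {F : L3 p (Option Bool)} (h : F ∈ S3 p) :
    pderiv k F ∈ S3 p := by
  rw [mem_S3] at h ⊢
  intro μ
  rw [coeff_pderiv, ← Nat.cast_succ, mul_comm, ← nsmul_eq_mul]
  exact nsmul_mem (h _) _

lemma Inj_daa (k : Option Bool) : pderiv k (aa p id) = C (ww p true k) ^ p := by
  rw [aa, map_sum, Finset.sum_eq_single k]
  · rw [← map_pow, mul_comm, pderiv_C_mul, id, pderiv_X_self, mul_one]
  · intro j _ hj
    rw [← map_pow, mul_comm, pderiv_C_mul, id, pderiv_X_of_ne hj, mul_zero]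
  · simp

lemma Inj_der (k : Option Bool) (n : ℕ) (η : ℕ → L3 p (Option Bool)) :
    pderiv k (∑ m ∈ Finset.range (n + 1), η m ^ p * aa p id ^ m) =
      ∑ m ∈ Finset.range n, (((m + 1 : ℕ) : L3 p (Option Bool)) *
        (η (m + 1) * C (ww p true k))) ^ p * aa p id ^ m := by
  have h0 : ∀ F : L3 p (Option Bool), pderiv k (F ^ p) = 0 := fun F => by
    rw [pderiv_pow, CharP.cast_eq_zero, zero_mul, zero_mul]
  rw [map_sum, Finset.sum_range_succ', pow_zero, mul_one, h0, add_zero]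
  refine Finset.sum_congr rfl fun m _ => ?_
  have h1 : ((m + 1 : ℕ) : L3 p (Option Bool)) ^ p = (m + 1 : ℕ) := by
    rw [← frobenius_def, map_natCast]
  rw [pderiv_mul, h0, pderiv_pow, Inj_daa, mul_pow, mul_pow, h1, Nat.add_sub_cancel]
  ring

/-- The step that uses the inseparability of the form. -/
lemma zstep (n : ℕ) (hn : n < p) (η : ℕ → L3 p (Option Bool))
    (h : ∑ k ∈ Finset.range (n + 1), η k ^ p * aa p id ^ k ∈ S3 p)
    (hd : η n ∈ Sp (b3 p (Option Bool)) (fun y => (∃ k, 0 ≤ y.1.1 k) ∨ dg true y.1 ≤ -n)) :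
    η n ∈ S3 p := by
  induction n generalizing η with
  | zero => exact S3_frob p (by simpa using h)
  | succ n ih =>
    have h1 : ∀ k, η (n + 1) * C (ww p true k) ∈ S3 p := by
      intro k
      have h2 := S3_pderiv p k h
      rw [Inj_der] at h2
      have h3 := ih (by omega) (fun m => ((m + 1 : ℕ) : L3 p (Option Bool)) *
        (η (m + 1) * C (ww p true k))) h2 (by
          rw [← nsmul_eq_mul]
          refine nsmul_mem ?_ _
          obtain ⟨y, z, hy, hz, e⟩ := Sp_split _ hd (fun _ h => h)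
          rw [e, add_mul]
          have a1 : y ∈ S3 p := Sp_mono _ (fun _ h => h.2) hy
          have a2 := S3_mul p (fun j => Inj_C p (ww_mem true k j)) a1
          have a3 : z ∈ V (b3 p (Option Bool)) (fun y => wG2 0 (-1) y.1) (n + 1) :=
            Sp_mono _ (fun i h => by
              have := h.2
              simp only [wG2]
              omega) hz
          have a4 := (wm3 p (Option Bool) (wm_G p 0 (-1))).mul a3
            (C_mem p (ww_deg 0 (-1) true k))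
          rw [mul_comm] at a2
          refine add_mem (Sp_mono _ (fun _ h => Or.inl h) a2)
            (Sp_mono _ (fun i h => Or.inr ?_) a4)
          simp only [wG2, if_true] at h
          omega)
      refine Inj_cancel (c := ((n + 1 : ℕ) : K1 p)) ?_ (by rwa [Nat.cast_smul_eq_nsmul, nsmul_eq_mul])
      rw [Ne, CharP.cast_eq_zero_iff (K1 p) p]
      exact Nat.not_dvd_of_pos_of_lt (by omega) hn
    rw [mem_S3]
    intro μ
    have h4 := socle true (y := coeff μ (η (n + 1))) (fun k => by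
      have := (mem_S3 p).1 (h1 k) μ
      rwa [mul_comm, coeff_C_mul] at this)
    refine Sp_mono _ (fun i hi => ?_) (Sp_and _ h4 ((mem_Sp3 p).1 hd μ))
    rcases hi with ⟨a | ⟨a1, a2, a3⟩, b | b⟩
    · exact a
    · exact a
    · exact b
    · simp only [dg, a1, a2, a3, Fin.val_two] at b
      omega

lemma Inj_all (n : ℕ) (hn : n ≤ p) (η : ℕ → L3 p (Option Bool))
    (h : ∑ k ∈ Finset.range n, η k ^ p * aa p id ^ k ∈ S3 p)
    (hd : ∀ k < n, η k ∈ Sp (b3 p (Option Bool))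
      (fun y => (∃ k, 0 ≤ y.1.1 k) ∨ dg true y.1 ≤ -k)) : ∀ k < n, η k ∈ S3 p := by
  induction n with
  | zero => simp
  | succ n ih =>
    have h1 := zstep p n (by omega) η h (hd n (by omega))
    have h2 : η n ^ p * aa p id ^ n ∈ S3 p := by
      rw [mul_comm]
      refine S3_mul p (fun k => ?_) (S3_pow p h1)
      simpa using (Inj_wm3 p k).pow (aa_mem p id (wm_ex p k) (fun j => ww_mem true j k)) n
    rw [Finset.sum_range_succ] at h
    have h3 := ih (by omega) (by simpa using sub_mem h h2) (fun k hk => hd k (by omega))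
    intro k hk
    rcases Nat.lt_succ_iff_lt_or_eq.1 hk with a | rfl
    · exact h3 k a
    · exact h1

lemma Inj_Ch {d j : Bool} {x : DS p} : x ∈ Ch p id none (d, j) ↔
    x ∈ Sp (b4 p id none false) (fun y => Dl p y ∧ 0 ≤ y.1.1.1 (d, !j)) := by
  rw [mem_Ch p id none j (Or.inr rfl), b4_none]

lemma Inj_wm (k : Bool × Bool) : WM (b4 p id none false) (wE p k) :=
  b4_none p id (!k.2) ▸ wmE p id none (!k.2) k (Or.inr (by simp))

lemma SM_iff {x : DS p} : x ∈ SM p id none ↔ x ∈ Tp p id none ∧ x ∈ S4 p := by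
  constructor
  · refine SM_induction p id none (Q := fun x => x ∈ Tp p id none ∧ x ∈ S4 p) ?_
      (fun x y hx hy => ⟨add_mem hx.1 hy.1, add_mem hx.2 hy.2⟩)
    rintro ⟨d, j⟩ x hx
    exact ⟨Ch_le p id none _ hx, Sp_mono _ (fun _ h => ⟨_, h.2⟩) ((Inj_Ch p).1 hx)⟩
  · rintro ⟨h1, h2⟩
    refine Sp_le _ ?_ (Sp_and _ ((mem_Tp p id none false).1 h1) h2)
    rintro y ⟨h3, ⟨d, j⟩, h4⟩
    exact mem_SM p id none (k := (d, !j)) ((Inj_Ch p).2 (b_mem_Sp _ ⟨h3, by simpa using h4⟩))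

lemma S4_pow {x : DS p} (h : x ∈ S4 p) : x ^ p ∈ S4 p := by
  exact Inj_pow p (w := wE p) (Inj_wm p) h

lemma S4_frob {x : DS p}
    (hd : x ∈ Sp (b4 p id none false) (fun y => (∃ k, 0 ≤ y.1.1.1 k) ∨ dd p true y ≤ 0))
    (h : x ^ p ∈ S4 p) : x ∈ S4 p := by
  classical
  let η : ℕ → L3 p (Option Bool) := fun k =>
    if hk : k < p then (bz p id none false).repr x ⟨k, hk⟩ else 0
  have e0 : ∀ j : Fin p, η j = (bz p id none false).repr x j := fun j => dif_pos j.2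
  have e1 : x ^ p = al p id none (∑ k ∈ Finset.range p, η k ^ p * aa p id ^ k) := by
    conv_lhs => rw [← (bz p id none false).sum_repr x]
    rw [sum_pow_char, Finset.sum_range, map_sum]
    refine Finset.sum_congr rfl fun j _ => ?_
    rw [e0, bz_apply, Algebra.smul_def, mul_pow, ← pow_mul, mul_comm (j : ℕ) p, pow_mul,
      zz_pow_none, map_mul, map_pow, map_pow]
  have e2 := (mem_Sp4 p id none).1 h 0
  have e3 : ∀ F, (bz p id none false).repr (al p id none F) 0 = F := fun F => by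
    have : al p id none F = F • bz p id none false 0 := by
      rw [bz_apply, Algebra.smul_def]
      simp
    rw [this]
    simp
  rw [e1, e3] at e2
  have e4 := Inj_all p p le_rfl η e2 (fun k hk => by
    rw [e0 ⟨k, hk⟩]
    refine Sp_mono _ (fun y hy => hy.imp id fun a => ?_) ((mem_Sp4 p id none).1 hd ⟨k, hk⟩)
    simp only [dd] at a
    omega)
  refine (mem_Sp4 p id none).2 fun j => ?_
  rw [← e0]
  exact e4 j j.2

lemma Inj_T {x : DS p} (hx : x ∈ Tp p id none) (h : x ^ p ∈ S4 p) : x ∈ S4 p := by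
  refine S4_frob p (Sp_mono _ (fun y hy => ?_) ((mem_Tp p id none false).1 hx)) h
  rw [or_iff_not_imp_left]
  intro k
  push Not at k
  obtain ⟨n, a, b⟩ := hy.ex
  have h1 := k (false, false)
  have h2 := k (false, true)
  have h3 := (y.1.1.2 false).2
  have hp0 : (0 : ℤ) < p := by exact_mod_cast hp.out.pos
  have h4 : (p + 1) * n ≤ 0 := by
    simp only [dd, dg] at a
    omega
  nlinarith

theorem inj_Q (x : DS p) (hx : x ∈ (Tp p id none).toSubring) (h : (cfg p id none).Sum (x ^ p)) :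
    (cfg p id none).Sum x := by
  rw [sum_iff, SM_iff] at h ⊢
  exact ⟨hx, Inj_T p hx h.2⟩

/-- The sum of the two subrings of one group. -/
def Sd (d : Bool) : Submodule (K1 p) (DS p) :=
  Sp (b4 p id none false) (fun y => ∃ j, 0 ≤ y.1.1.1 (d, j))

lemma Inj_shift (d : Bool) (y : I4 p (Option Bool)) (h : y.1.1.2 d = 0) :
    em p id none (ee p d) * b4 p id none false y = b4 p id none false
      ((((iE d).1 + y.1.1.1, Function.update y.1.1.2 d 2), y.1.2), y.2) := by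
  obtain ⟨⟨a, μ⟩, j⟩ := y
  have e : ee p d * b2 p a = b2 p ((iE d).1 + a.1, Function.update a.2 d 2) := by
    rw [ee_eq, soc_b2 d, soc_b2 d, mo_add]
    simp only [Function.update_self, Function.update_of_ne (Bool.not_ne_self d), iE] at h ⊢
    rw [h, Fin.val_two, Fin.val_zero]
    ring
  rw [b4_apply, b4_apply, b3_apply, b3_apply, ← e, em_apply, ← mul_assoc, ← map_mul,
    C_mul_monomial]

lemma Inj_key (d : Bool) {w : DS p} (hT : w ∈ Tp p id none)
    (hw : w ∈ Sp (b4 p id none false) (fun y => (∀ j, y.1.1.1 (d, j) = 0) ∧ y.1.1.2 d = 0 ∧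
      ∀ j, y.1.1.1 (!d, j) < 0)) (h : w ^ p ∈ Sd p (!d)) : w = 0 := by
  have e1 : em p id none (ee p d) = b4 p id none false ((iE d, 0), 0) := em_b2 p id none false _
  have e2 : em p id none (ee p d) ∈ Tp p id none := by
    rw [mem_Tp p id none false, e1]
    refine b_mem_Sp _ ?_
    cases d <;> simp [Dl, dd, dg, iE, sg]
  have e3 : (em p id none (ee p d) * w) ^ p ∈ S4 p := by
    rw [mul_pow]
    refine Sp_mono _ (fun y hy => hy.elim fun j a => ⟨_, a⟩)
      (Inj_mul (w := fun j => wE p (!d, j)) (fun j => Inj_wm p _) (fun j => ?_) h)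
    have : em p id none (ee p d) ∈ V (b4 p id none false) (wE p (!d, j)) 0 := by
      rw [e1]
      refine b_mem_Sp _ ?_
      cases d <;> cases j <;> simp [wE, iE, sg]
    simpa using (Inj_wm p _).pow this p
  have e4 := Inj_T p (mul_mem e2 hT) e3
  refine Sp_false (b4 p id none false) (P := fun _ => False) ((mem_Sp _).2 fun y hy => ?_)
    fun _ => id
  have e5 := (mem_Sp _).1 hw y hy
  rw [← repr_shift _ (em p id none (ee p d))
    (fun y => ((((iE d).1 + y.1.1.1, Function.update y.1.1.2 d 2), y.1.2), y.2)) ?_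
    (fun y hy => Inj_shift p d y hy.2.1) hw e5] at hy
  · obtain ⟨⟨c, j⟩, hk⟩ := (mem_Sp _).1 e4 _ hy
    have a1 := e5.1 j
    have a2 := e5.2.2 j
    cases d <;> cases c <;> cases j <;> simp [iE, sg] at hk a1 a2 <;> omega
  · rintro ⟨⟨⟨v, a⟩, μ⟩, j⟩ ⟨⟨⟨v', a'⟩, μ'⟩, j'⟩ b1 b2 e
    simp only [Prod.mk.injEq, add_right_inj] at e ⊢
    refine ⟨⟨⟨e.1.1.1, funext fun c => ?_⟩, e.1.2⟩, e.2⟩
    by_cases hc : c = d
    · subst hc
      exact b1.2.1.trans b2.2.1.symm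
    · simpa [Function.update_of_ne hc] using congrFun e.1.1.2 c

lemma Inj_half (d : Bool) {c1 c2 : DS p} (h1 : c1 ∈ Ch p id none (d, false))
    (h2 : c2 ∈ Ch p id none (d, true)) (h : c1 - c2 ∈ Sd p (!d)) (h' : c1 ^ p ∈ Sd p (!d)) :
    c1 ∈ Sd p (!d) := by
  obtain ⟨w, hw⟩ : ∃ w, w = res (b4 p id none false) (fun y => ∀ j, y.1.1.1 (!d, j) < 0) c1 :=
    ⟨_, rfl⟩
  have a0 : c1 - w ∈ Sd p (!d) := Sp_mono _ (fun y hy => (not_forall.1 hy).imp fun _ => not_lt.1)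
    (hw ▸ sub_res_mem (b4 p id none false) _ c1)
  have a1 : w ∈ Sp (b4 p id none false) (fun y => ∀ j, y.1.1.1 (!d, j) < 0) := hw ▸ res_mem _ _ _
  have a2 : w ∈ Sp (b4 p id none false) (fun y => Dl p y ∧ 0 ≤ y.1.1.1 (d, !false)) :=
    hw ▸ res_mem_of _ ((Inj_Ch p).1 h1)
  have a3 : w ∈ Sp (b4 p id none false) (fun y => 0 ≤ y.1.1.1 (d, !true)) := by
    refine (mem_Sp _).2 fun y hy => ((mem_Sp _).1 ((Inj_Ch p).1 h2) y ?_).2
    have b1 := (mem_Sp _).1 a1 y hy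
    have b2 := Sp_repr _ (sub_mem h a0) (i := y) (fun ⟨j, hj⟩ => absurd (b1 j) (not_lt.2 hj))
    rw [show c1 - c2 - (c1 - w) = w - c2 by ring, map_sub, Finsupp.sub_apply, sub_eq_zero] at b2
    exact b2 ▸ hy
  have a4 : w ^ p ∈ Sd p (!d) := by
    rw [show w = c1 - (c1 - w) by ring, sub_pow_char]
    exact sub_mem h' (Inj_pow p (w := fun j => wE p (!d, j)) (fun j => Inj_wm p _) a0)
  have a5 : w = 0 := by
    refine Inj_key p d ((mem_Tp p id none false).2 (Sp_mono _ (fun _ h => h.1) a2))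
      (Sp_mono _ ?_ (Sp_and _ a1 (Sp_and _ a2 a3))) a4
    rintro y ⟨b1, ⟨b2, b3⟩, b4⟩
    obtain ⟨n, c1, c2⟩ := b2.ex
    have hp0 : (0 : ℤ) < p := by exact_mod_cast hp.out.pos
    have d1 := b1 false
    have d2 := b1 true
    have d3 := (y.1.1.2 false).2
    have d4 := (y.1.1.2 true).2
    have d5 := y.2.2
    have d6 : n = 0 := by
      rcases lt_trichotomy n 0 with a | a | a
      · have e1 : (p + 1) * n < 0 := mul_neg_of_pos_of_neg (by omega) a
        have e2 : p * n < 0 := mul_neg_of_pos_of_neg hp0 a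
        cases d <;> simp only [dd, dg, Bool.not_false, Bool.not_true] at * <;> omega
      · exact a
      · have e1 : (p + 1) * 1 ≤ (p + 1) * n := mul_le_mul_of_nonneg_left a (by omega)
        have e2 : p * 1 ≤ p * n := mul_le_mul_of_nonneg_left a hp0.le
        cases d <;> simp only [dd, dg, Bool.not_false, Bool.not_true] at * <;> omega
    subst d6
    refine ⟨fun j => ?_, Fin.ext ?_, b1⟩
    · cases d <;> cases j <;> simp only [dd, dg, Bool.not_false, Bool.not_true] at * <;> omega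
    · cases d <;> simp only [dd, dg, Bool.not_false, Bool.not_true, Fin.val_zero] at * <;> omega
  rwa [a5, sub_zero] at a0

lemma Inj_split (d : Bool) {x : DS p} (hT : x ∈ Tp p id none) (h : x ∈ Sd p d) :
    ∃ y z, (y ∈ Ch p id none (d, false) ∧ ∀ k, x ∈ Ch p id none k → y ∈ Ch p id none k) ∧
      (z ∈ Ch p id none (d, true) ∧ ∀ k, x ∈ Ch p id none k → z ∈ Ch p id none k) ∧ x = y + z := by
  have a : ∀ k, x ∈ Ch p id none k →
      res (b4 p id none false) (fun y => 0 ≤ y.1.1.1 (d, true)) x ∈ Ch p id none k :=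
    fun k hk => (Inj_Ch p).2 (res_mem_of _ ((Inj_Ch p).1 hk))
  have b := (mem_Tp p id none false).1 hT
  refine ⟨res (b4 p id none false) (fun y => 0 ≤ y.1.1.1 (d, true)) x,
    x - res (b4 p id none false) (fun y => 0 ≤ y.1.1.1 (d, true)) x,
    ⟨(Inj_Ch p).2 (Sp_and _ (res_mem_of _ b) (res_mem _ _ _)), a⟩,
    ⟨(Inj_Ch p).2 (Sp_and _ (sub_mem b (res_mem_of _ b)) (Sp_mono _ ?_
      (Sp_and _ (sub_mem h (res_mem_of _ h)) (sub_res_mem _ _ x)))),
      fun k hk => sub_mem hk (a k hk)⟩, by ring⟩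
  rintro y ⟨⟨_ | _, c⟩, c'⟩
  · exact c
  · exact absurd c c'

theorem inj_H (a1 a2 b1 b2 : DS p) (h : (cfg p id none).Coc a1 a2 b1 b2)
    (h' : (cfg p id none).Cob (a1 ^ p) (a2 ^ p) (b1 ^ p) (b2 ^ p)) :
    (cfg p id none).Cob a1 a2 b1 b2 := by
  obtain ⟨h1, h2, h3, h4, e⟩ := h
  obtain ⟨x11, x12, x21, x22, k11, k12, k21, k22, f1, f2, f3, -⟩ := h'
  have up : ∀ (d j : Bool) {x : DS p}, x ∈ Ch p id none (d, j) → x ∈ Sd p d := fun d j x hx =>
    Sp_mono _ (fun _ h => ⟨_, h.2⟩) ((Inj_Ch p).1 hx)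
  have g1 : a1 ∈ Sd p true := Inj_half p false h1 h2
    (e ▸ sub_mem (up true false h3) (up true true h4))
    (f1 ▸ sub_mem (up true false k11.2) (up true true k12.2))
  have g2 : a2 ∈ Sd p true := by
    rw [show a2 = a1 - (b1 - b2) by rw [← e]; ring]
    exact sub_mem g1 (sub_mem (up true false h3) (up true true h4))
  have g3 : b1 ∈ Sd p false := Inj_half p true h3 h4
    (e ▸ sub_mem (up false false h1) (up false true h2))
    (f3 ▸ sub_mem (up false false k11.1) (up false true k21.1))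
  obtain ⟨y11, y12, m11, m12, rfl⟩ := Inj_split p true (Ch_le p id none _ h1) g1
  obtain ⟨y21, y22, m21, m22, rfl⟩ := Inj_split p true (Ch_le p id none _ h2) g2
  have n1 := m11.2 _ h1
  have n2 := m21.2 _ h2
  have n3 := m12.2 _ h1
  have n4 := m22.2 _ h2
  have v1 : b1 - y11 + y21 ∈ Ch p id none (true, false) := add_mem (sub_mem h3 m11.1) m21.1
  have v2 : b1 - y11 + y21 ∈ Ch p id none (true, true) := by
    rw [show b1 - y11 + y21 = b2 + y12 - y22 by linear_combination -e]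
    exact sub_mem (add_mem h4 m12.1) m22.1
  obtain ⟨v0, v1', r0, r1, ev⟩ := Inj_split p false (Ch_le p id none _ v1)
    (add_mem (sub_mem g3 (up false false n1)) (up false true n2))
  exact ⟨y11 + v0, -y12 + v0, y21 - v1', -y22 - v1',
    ⟨add_mem n1 r0.1, add_mem m11.1 (r0.2 _ v1)⟩,
    ⟨add_mem (neg_mem n3) r0.1, add_mem (neg_mem m12.1) (r0.2 _ v2)⟩,
    ⟨sub_mem n2 r1.1, sub_mem m21.1 (r1.2 _ v1)⟩,
    ⟨sub_mem (neg_mem n4) r1.1, sub_mem (neg_mem m22.1) (r1.2 _ v2)⟩,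
    by ring, by ring, by linear_combination ev, by linear_combination e + ev⟩

end Pool.Agent.Work.MP_34c70a_al.N
end
end

-- merged part: Pool.Agent.Work.MP_34c70a_al.N.Nrm
section
/-! A Noetherian local ring with a normal hyperplane section is normal. -/

set_option autoImplicit false

namespace Pool.Agent.Work.MP_34c70a_al.N

variable {R S : Type} [CommRing R] [IsLocalRing R] [IsNoetherianRing R] [CommRing S] {f : R}

lemma nrm_krull (hf : f ∈ IsLocalRing.maximalIdeal R) (I : Ideal R) {x : R}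
    (h : ∀ n : ℕ, ∃ y ∈ I, f ^ n ∣ x - y) : x ∈ I := by
  have hI : Ideal.span {f} ≠ ⊤ := fun e =>
    (IsLocalRing.mem_maximalIdeal f).1 hf (Ideal.span_singleton_eq_top.1 e)
  have k := Ideal.iInf_pow_smul_eq_bot_of_isLocalRing (M := R ⧸ I) (Ideal.span {f}) hI
  have : (Submodule.Quotient.mk x : R ⧸ I) ∈ (⊥ : Submodule R (R ⧸ I)) := by
    rw [← k, Submodule.mem_iInf]
    intro n
    obtain ⟨y, hy, z, hz⟩ := h n
    have e : (Submodule.Quotient.mk x : R ⧸ I) = f ^ n • Submodule.Quotient.mk z := by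
      rw [← Submodule.Quotient.mk_smul, Submodule.Quotient.eq, smul_eq_mul, ← hz, sub_sub_cancel]
      exact hy
    rw [e]
    exact Submodule.smul_mem_smul (Ideal.pow_mem_pow (Ideal.mem_span_singleton_self f) n) trivial
  exact (Submodule.Quotient.mk_eq_zero I).1 this

lemma nrm_ord (hf : f ∈ IsLocalRing.maximalIdeal R) {x : R} (hx : x ≠ 0) :
    ∃ (n : ℕ) (y : R), ¬ f ∣ y ∧ x = f ^ n * y := by
  classical
  have h : ∃ n : ℕ, ¬ f ^ n ∣ x := by
    by_contra k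
    push Not at k
    exact hx (nrm_krull hf ⊥ fun n => ⟨0, zero_mem _, by simpa using k n⟩)
  have h0 : Nat.find h ≠ 0 := fun e => Nat.find_spec h (by rw [e, pow_zero]; exact one_dvd x)
  obtain ⟨n, hn⟩ := Nat.exists_eq_succ_of_ne_zero h0
  obtain ⟨y, hy⟩ := not_not.1 (Nat.find_min h (show n < Nat.find h by omega))
  refine ⟨n, y, fun k => Nat.find_spec h ?_, hy⟩
  rw [hn, hy, pow_succ]
  exact mul_dvd_mul_left _ k

theorem domain_of_quot [IsDomain S] (π : R →+* S) (hk : RingHom.ker π = Ideal.span {f})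
    (hf : f ∈ IsLocalRing.maximalIdeal R) (hr : ∀ x, f * x = 0 → x = 0) : IsDomain R := by
  have e : ∀ x, π x = 0 ↔ f ∣ x := fun x => by
    rw [← RingHom.mem_ker, hk, Ideal.mem_span_singleton]
  have hr' : ∀ (n : ℕ) x, f ^ n * x = 0 → x = 0 := fun n => by
    induction n with
    | zero => simp
    | succ n ih => exact fun x hx => hr x (ih _ (by rw [← hx]; ring))
  have : NoZeroDivisors R := ⟨fun {a b} hab => by
    by_contra k
    push Not at k
    obtain ⟨n, a', ha, rfl⟩ := nrm_ord hf k.1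
    obtain ⟨m, b', hb, rfl⟩ := nrm_ord hf k.2
    have h1 : a' * b' = 0 := hr' (n + m) _ (by rw [← hab]; ring)
    have h2 : π a' * π b' = 0 := by rw [← map_mul, h1, map_zero]
    exact (mul_eq_zero.1 h2).elim (fun k => ha ((e _).1 k)) fun k => hb ((e _).1 k)⟩
  exact NoZeroDivisors.to_isDomain R

lemma nrm_almost [IsDomain S] [IsNoetherianRing S] [IsIntegrallyClosed S] {a b c : S} (hc : c ≠ 0)
    (hb : b ≠ 0) (h : ∀ n : ℕ, b ^ n ∣ c * a ^ n) : b ∣ a := by
  have inj := IsFractionRing.injective S (FractionRing S)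
  have hb' : algebraMap S (FractionRing S) b ≠ 0 := fun e => hb (inj (e.trans (map_zero _).symm))
  have hc' : algebraMap S (FractionRing S) c ≠ 0 := fun e => hc (inj (e.trans (map_zero _).symm))
  obtain ⟨x, hx⟩ : ∃ x, x = algebraMap S (FractionRing S) a / algebraMap S (FractionRing S) b :=
    ⟨_, rfl⟩
  have hle : Subalgebra.toSubmodule (Algebra.adjoin S {x}) ≤
      Submodule.span S {(algebraMap S (FractionRing S) c)⁻¹} := by
    rw [Algebra.adjoin_eq_span, Submodule.span_le]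
    intro y hy
    obtain ⟨n, rfl⟩ := Submonoid.mem_closure_singleton.1 hy
    obtain ⟨q, hq⟩ := h n
    refine Submodule.mem_span_singleton.2 ⟨q, ?_⟩
    have := congrArg (algebraMap S (FractionRing S)) hq
    simp only [map_mul, map_pow] at this
    rw [Algebra.smul_def, hx, div_pow]
    field_simp
    linear_combination -this
  have hi : IsIntegral S x := IsIntegral.of_mem_of_fg _
    (Submodule.FG.of_le (Submodule.fg_span_singleton _) hle) x (Algebra.self_mem_adjoin_singleton S x)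
  obtain ⟨d, hd⟩ := IsIntegrallyClosed.isIntegral_iff.1 hi
  refine ⟨d, inj ?_⟩
  rw [map_mul, hd, hx, mul_div_cancel₀ _ hb']

lemma nrm_step [IsDomain R] [IsDomain S] [IsIntegrallyClosed S] (π : R →+* S)
    (hs : Function.Surjective π) (e : ∀ x, π x = 0 ↔ f ∣ x)
    (hf : f ∈ IsLocalRing.maximalIdeal R) (f0 : f ≠ 0) {a b c : R} (hb : b ≠ 0) (hc : c ≠ 0)
    (h : ∀ n : ℕ, b ^ n ∣ c * a ^ n) {r : ℕ} (hr : f ^ r ∣ a) : ∃ d, f ^ (r + 1) ∣ a - b * d := by
  have : IsNoetherianRing S := isNoetherianRing_of_surjective R S π hs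
  obtain ⟨a0, rfl⟩ := hr
  by_cases ha : f ∣ a0
  · exact ⟨0, by rw [mul_zero, sub_zero, pow_succ]; exact mul_dvd_mul_left _ ha⟩
  obtain ⟨m, b0, hb0, rfl⟩ := nrm_ord hf hb
  obtain ⟨l, c0, hc0, rfl⟩ := nrm_ord hf hc
  have nd : ∀ n : ℕ, ¬ f ∣ c0 * a0 ^ n := fun n k => by
    have := (e _).2 k
    rw [map_mul, map_pow] at this
    exact (mul_eq_zero.1 this).elim (fun k => hc0 ((e _).1 k))
      fun k => ha ((e _).1 (eq_zero_of_pow_eq_zero k))
  have le : ∀ i j : ℕ, ∀ x y : R, ¬ f ∣ x → f ^ i * x = f ^ j * y → j ≤ i := by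
    intro i j x y hx k
    by_contra lt
    obtain ⟨t, rfl⟩ := Nat.exists_eq_add_of_lt (not_le.1 lt)
    refine hx ⟨f ^ t * y, mul_left_cancel₀ (pow_ne_zero i f0) ?_⟩
    rw [k]
    ring
  have hm : m ≤ r := by
    obtain ⟨q, hq⟩ := h (l + 1)
    have := le (l + r * (l + 1)) (m * (l + 1)) _ (b0 ^ (l + 1) * q) (nd (l + 1)) (by
      linear_combination hq)
    by_contra k
    have k' : (r + 1) * (l + 1) ≤ m * (l + 1) := Nat.mul_le_mul_right _ (by omega)
    rw [add_mul] at k'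
    omega
  obtain ⟨t, rfl⟩ := Nat.exists_eq_add_of_le hm
  obtain ⟨d, hd⟩ := nrm_almost (a := π a0) (b := π b0) (c := π c0) (fun k => hc0 ((e _).1 k))
    (fun k => hb0 ((e _).1 k)) fun n => by
      obtain ⟨q, hq⟩ := h n
      have h1 : f ^ (l + t * n) * (c0 * a0 ^ n) = b0 ^ n * q :=
        mul_left_cancel₀ (pow_ne_zero (m * n) f0) (by linear_combination hq)
      have q0 : q ≠ 0 := by
        rintro rfl
        rw [mul_zero, mul_eq_zero] at h1
        exact h1.elim (pow_ne_zero _ f0) fun k => nd n (k ▸ dvd_zero f)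
      obtain ⟨j, q', hq', rfl⟩ := nrm_ord hf q0
      have nd' : ¬ f ∣ b0 ^ n * q' := fun k => by
        have := (e _).2 k
        rw [map_mul, map_pow] at this
        exact (mul_eq_zero.1 this).elim (fun k => hb0 ((e _).1 (eq_zero_of_pow_eq_zero k)))
          fun k => hq' ((e _).1 k)
      have h2 : f ^ (l + t * n) * (c0 * a0 ^ n) = f ^ j * (b0 ^ n * q') := by
        linear_combination h1
      have h3 := le_antisymm (le _ _ _ _ (nd n) h2) (le _ _ _ _ nd' h2.symm)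
      rw [h3] at h2
      refine ⟨π q', ?_⟩
      simpa only [map_mul, map_pow] using
        congrArg π (mul_left_cancel₀ (pow_ne_zero _ f0) h2)
  obtain ⟨d, rfl⟩ := hs d
  obtain ⟨w, hw⟩ := (e (a0 - b0 * d)).1 (by rw [map_sub, map_mul, hd, sub_self])
  exact ⟨f ^ t * d, w, by linear_combination f ^ (m + t) * hw⟩

theorem normal_of_quot [IsDomain R] [IsDomain S] [IsIntegrallyClosed S] (π : R →+* S)
    (hs : Function.Surjective π) (hk : RingHom.ker π = Ideal.span {f})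
    (hf : f ∈ IsLocalRing.maximalIdeal R) (f0 : f ≠ 0) : IsIntegrallyClosed R := by
  have e : ∀ x, π x = 0 ↔ f ∣ x := fun x => by
    rw [← RingHom.mem_ker, hk, Ideal.mem_span_singleton]
  refine (isIntegrallyClosed_iff (FractionRing R)).2 fun {x} hx => ?_
  have inj := IsFractionRing.injective R (FractionRing R)
  obtain ⟨a, b, hb, rfl⟩ := IsFractionRing.div_surjective (A := R) x
  have hb0 : b ≠ 0 := nonZeroDivisors.ne_zero hb
  have hb' : algebraMap R (FractionRing R) b ≠ 0 := fun e => hb0 (inj (e.trans (map_zero _).symm))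
  obtain ⟨x, hx'⟩ : ∃ x, x = algebraMap R (FractionRing R) a / algebraMap R (FractionRing R) b :=
    ⟨_, rfl⟩
  rw [← hx'] at hx ⊢
  obtain ⟨c, hc, hcx⟩ : ∃ c : R, c ≠ 0 ∧ ∀ y ∈ Algebra.adjoin R {x},
      ∃ q, algebraMap R (FractionRing R) q = c • y := by
    obtain ⟨s, hs⟩ := hx.fg_adjoin_singleton
    obtain ⟨c, hc⟩ := IsLocalization.exist_integer_multiples_of_finset (nonZeroDivisors R) s
    refine ⟨c, nonZeroDivisors.ne_zero c.2, fun y hy => ?_⟩
    change y ∈ Subalgebra.toSubmodule (Algebra.adjoin R {x}) at hy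
    rw [← hs] at hy
    induction hy using Submodule.span_induction with
    | mem y hy => exact hc y hy
    | zero => exact ⟨0, by simp⟩
    | add y z _ _ h1 h2 =>
      obtain ⟨u, hu⟩ := h1
      obtain ⟨v, hv⟩ := h2
      exact ⟨u + v, by rw [map_add, hu, hv, smul_add]⟩
    | smul r y _ h1 =>
      obtain ⟨u, hu⟩ := h1
      exact ⟨r * u, by rw [map_mul, hu, smul_comm, Algebra.smul_def r]⟩
  have key : ∀ (d : R) (n : ℕ), b ^ n ∣ c * (a - b * d) ^ n := fun d n => by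
    obtain ⟨q, hq⟩ := hcx ((x - algebraMap R _ d) ^ n) (pow_mem (sub_mem
      (Algebra.self_mem_adjoin_singleton R x) (Subalgebra.algebraMap_mem _ d)) n)
    refine ⟨q, inj ?_⟩
    simp only [map_mul, map_pow, map_sub]
    rw [hq, Algebra.smul_def, mul_left_comm, ← mul_pow, mul_sub, hx', mul_div_cancel₀ _ hb']
  have all : ∀ r : ℕ, ∃ d, f ^ r ∣ a - b * d := fun r => by
    induction r with
    | zero => exact ⟨0, by simp⟩
    | succ r ih =>
      obtain ⟨d, hd⟩ := ih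
      obtain ⟨d', hd'⟩ := nrm_step π hs e hf f0 hb0 hc (key d) hd
      exact ⟨d + d', by rwa [mul_add, ← sub_sub]⟩
  obtain ⟨d, hd⟩ := Ideal.mem_span_singleton.1 (nrm_krull hf (Ideal.span {b}) fun n =>
    (all n).elim fun d hd => ⟨b * d, Ideal.mem_span_singleton.2 (dvd_mul_right b d), hd⟩)
  exact ⟨d, by rw [hx', hd, map_mul, mul_div_cancel_left₀ _ hb']⟩

end Pool.Agent.Work.MP_34c70a_al.N
end

-- merged part: Pool.Agent.Work.MP_34c70a_al.N.Chart0
section
/-!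
Charts which are localisations of a normal domain away from one element.
-/

set_option autoImplicit false

noncomputable section

namespace Pool.Agent.Work.MP_34c70a_al.N

/-- The image of `S` in `D` lies in a subring which is `A` with `μ` inverted. -/
structure Cht (A S D : Type) [CommRing A] [CommRing S] [CommRing D] where
  Ψ : A →+* D
  Θ : D →+* FractionRing A
  j : S →+* D
  μ : A
  μ0 : μ ≠ 0
  comp : ∀ a, Θ (Ψ a) = algebraMap A _ a
  den : ∀ s, ∃ (N : ℕ) (a : A), Ψ μ ^ N * j s = Ψ a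

namespace Cht

variable {A S D : Type} [CommRing A] [IsDomain A] [CommRing S] [CommRing D] (c : Cht A S D)

lemma le : Submonoid.powers c.μ ≤ nonZeroDivisors A :=
  powers_le_nonZeroDivisors_of_noZeroDivisors c.μ0

/-- The localisation inside the field of fractions. -/
abbrev E : Subalgebra A (FractionRing A) :=
  Localization.subalgebra.ofField (FractionRing A) (Submonoid.powers c.μ) c.le

lemma ne (N : ℕ) : algebraMap A (FractionRing A) (c.μ ^ N) ≠ 0 :=
  IsFractionRing.to_map_ne_zero_of_mem_nonZeroDivisors (c.le ⟨N, rfl⟩)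

omit [IsDomain A] in
lemma eq {s : S} {N : ℕ} {a : A} (h : c.Ψ c.μ ^ N * c.j s = c.Ψ a) :
    algebraMap A (FractionRing A) (c.μ ^ N) * c.Θ (c.j s) = algebraMap A _ a := by
  rw [← c.comp, ← c.comp, ← h, map_mul, map_pow c.Ψ]

/-- The map to the localisation. -/
def ρ : S →+* c.E := (c.Θ.comp c.j).codRestrict c.E.toSubring (fun s => by
  obtain ⟨N, a, h⟩ := c.den s
  refine ⟨a, c.μ ^ N, ⟨N, rfl⟩, ?_⟩
  rw [eq_mul_inv_iff_mul_eq₀ (c.ne N), mul_comm]
  exact c.eq h)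

theorem prime (κ : A →+* A) (hκ : κ c.μ = c.μ) : ∃ Q : Ideal S, Q.IsPrime ∧
    ∀ (s : S) (N : ℕ) (a : A), c.Ψ c.μ ^ N * c.j s = c.Ψ a → (s ∈ Q ↔ κ a = 0) := by
  have hu : ∀ y : Submonoid.powers c.μ, IsUnit (((algebraMap A (FractionRing A)).comp κ) y) := by
    rintro ⟨_, N, rfl⟩
    refine Ne.isUnit ?_
    change algebraMap A _ (κ (c.μ ^ N)) ≠ 0
    rw [map_pow κ, hκ]
    exact c.ne N
  refine ⟨RingHom.ker ((IsLocalization.lift (S := c.E) hu).comp c.ρ), RingHom.ker_isPrime _,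
    fun s N a h => ?_⟩
  have e : algebraMap A c.E (c.μ ^ N) * c.ρ s = algebraMap A c.E a := Subtype.ext (c.eq h)
  have e2 := congrArg (IsLocalization.lift (S := c.E) hu) e
  rw [map_mul, IsLocalization.lift_eq, IsLocalization.lift_eq] at e2
  rw [RingHom.mem_ker, RingHom.comp_apply, ← (hu ⟨_, N, rfl⟩).mul_right_eq_zero, e2]
  exact IsFractionRing.to_map_eq_zero_iff (R := A) (K := FractionRing A)

theorem div [IsIntegrallyClosed A] [IsDomain S] (hΘ : Function.Injective c.Θ)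
    (hj : Function.Injective c.j) {x : FractionRing S} (hx : IsIntegral S x) {a b : S}
    (h : algebraMap S _ b * x = algebraMap S _ a) :
    ∃ (N : ℕ) (r : A), c.j b * c.Ψ r = c.Ψ c.μ ^ N * c.j a := by
  have hi : Function.Injective (c.Θ.comp c.j) := hΘ.comp hj
  have h0 : IsIntegrallyClosed c.E := isIntegrallyClosed_of_isLocalization c.E _ c.le
  obtain ⟨ψ, hψ⟩ : ∃ ψ : FractionRing S →+* FractionRing A,
      ∀ s, ψ (algebraMap S _ s) = c.Θ (c.j s) :=
    ⟨IsFractionRing.lift hi, IsFractionRing.lift_algebraMap hi⟩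
  have h1 : IsIntegral c.E (ψ x) := hx.map_of_comp_eq c.ρ ψ (RingHom.ext fun s => (hψ s).symm)
  obtain ⟨y, hy0⟩ := (isIntegrallyClosed_iff (FractionRing A)).1 h0 h1
  have h3 : ψ x ∈ c.E := hy0 ▸ y.2
  obtain ⟨r, _, ⟨N, rfl⟩, hy⟩ := h3
  have h2 := congrArg ψ h
  rw [map_mul, hψ, hψ, hy] at h2
  refine ⟨N, r, hΘ ?_⟩
  rw [map_mul, map_mul, ← map_pow c.Ψ, c.comp, c.comp, ← h2, mul_left_comm,
    mul_left_comm _ (algebraMap A _ r), mul_inv_cancel₀ (c.ne N), mul_one]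

end Cht

open MvPolynomial in
/-- Killing variables. -/
def kil {τ k : Type} [CommRing k] (P : τ → Prop) [DecidablePred P] :
    MvPolynomial τ k →+* MvPolynomial τ k := eval₂Hom C (fun t => if P t then 0 else X t)

open MvPolynomial in
lemma kil_X {τ k : Type} [CommRing k] (P : τ → Prop) [DecidablePred P] (t : τ) :
    kil P (X t : MvPolynomial τ k) = if P t then 0 else X t := eval₂Hom_X' _ _ _

open MvPolynomial in
lemma kil_C {τ k : Type} [CommRing k] (P : τ → Prop) [DecidablePred P] (r : k) :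
    kil P (C r : MvPolynomial τ k) = C r := eval₂Hom_C _ _ _

open MvPolynomial in
lemma kil_kil {τ k : Type} [CommRing k] (P Q : τ → Prop) [DecidablePred P] [DecidablePred Q]
    (h : ∀ t, P t → Q t) (a : MvPolynomial τ k) : kil Q (kil P a) = kil Q a := by
  have : (kil Q).comp (kil P) = kil (k := k) Q := ringHom_ext
    (fun r => by rw [RingHom.comp_apply, kil_C, kil_C]) fun t => by
      rw [RingHom.comp_apply, kil_X]
      split_ifs with ht
      · rw [map_zero, kil_X, if_pos (h t ht)]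
      · rfl
  exact RingHom.congr_fun this a

open MvPolynomial in
lemma kil_two {τ k : Type} [CommRing k] [DecidableEq τ] (s t : τ) (a : MvPolynomial τ k) :
    ∃ a₁ a₂, a = kil (fun x => x = s ∨ x = t) a + X s * a₁ + X t * a₂ := by
  induction a using MvPolynomial.induction_on with
  | C r => exact ⟨0, 0, by simp [kil_C]⟩
  | add a b ha hb =>
    obtain ⟨a₁, a₂, ha⟩ := ha
    obtain ⟨b₁, b₂, hb⟩ := hb
    exact ⟨a₁ + b₁, a₂ + b₂, by rw [map_add]; linear_combination ha + hb⟩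
  | mul_X a x ha =>
    obtain ⟨a₁, a₂, ha⟩ := ha
    rw [map_mul, kil_X]
    split_ifs with h
    · rcases h with rfl | rfl
      · exact ⟨a, 0, by ring⟩
      · exact ⟨0, a, by ring⟩
    · exact ⟨a₁ * X x, a₂ * X x, by linear_combination X x * ha⟩

end Pool.Agent.Work.MP_34c70a_al.N
end
end

-- merged part: Pool.Agent.Work.MP_34c70a_al.N.Chart
section
/-!
The special fibre is a normal domain with a chain of primes of length three.
-/

set_option autoImplicit false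

open Module MvPolynomial

noncomputable section

namespace Pool.Agent.Work.MP_34c70a_al.N

variable (p : ℕ) [hp : Fact p.Prime]

/-- The variables of the chart. -/
abbrev τc : Type := (Bool × Option Bool) ⊕ Bool ⊕ Option Bool

/-- The polynomial ring of the chart. -/
abbrev Ac : Type := MvPolynomial τc (ZMod p)

/-- The map from `L2` to the special fibre. -/
abbrev eS : L2 p →+* DS p := em p id none

/-- The map from `L3` to the special fibre. -/
abbrev aS : L3 p (Option Bool) →+* DS p := al p id none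

/-- The coordinates of the chart `i`. -/
def gc (i : Bool) : τc → DS p
  | .inl k => eS p (ww p k.1 k.2)
  | .inr (.inl d) => algebraMap (K1 p) (DS p) (tt p d (!i))
  | .inr (.inr k) => if k = some i then zz p id none false else aS p (X k)

/-- Evaluation at the coordinates. -/
def Ψc (i : Bool) : Ac p →+* DS p := eval₂Hom ((algebraMap (K1 p) (DS p)).comp C) (gc p i)

lemma Ψc_X (i : Bool) (t : τc) : Ψc p i (X t) = gc p i t := eval₂Hom_X' _ _ _

lemma eS_alg (c : K1 p) : eS p (algebraMap (K1 p) (L2 p) c) = algebraMap (K1 p) (DS p) c := by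
  rw [Algebra.algebraMap_eq_smul_one, em_smul, map_one, Algebra.algebraMap_eq_smul_one]

lemma cz1_none : cz1 p (none : Option (Option Bool)) = 0 := by
  have h1 : p - 1 ≠ 0 := Nat.sub_ne_zero_of_lt hp.out.one_lt
  simp [cz1, hh, ph, h1]

lemma cz0_none : cz0 p (id : Option Bool → Option Bool) none false = aa p id := by
  simp [cz0, hh, ph, hp.out.ne_zero]

lemma aa_eq (i : Bool) : aa p (id : Option Bool → Option Bool) =
    X none * C (w2 p true) ^ p + X (some (!i)) * C (mo p (sg true (!i))) ^ p +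
      X (some i) * C (mo p (sg true i)) ^ p := by
  rw [aa, Fintype.sum_option, Fintype.sum_bool]
  cases i <;> simp only [ww, id, Bool.not_false, Bool.not_true] <;> ring

lemma exists_Θ (i : Bool) : ∃ Θ : DS p →+* FractionRing (Ac p),
    ∀ a, Θ (Ψc p i a) = algebraMap (Ac p) _ a := by
  obtain ⟨x, hx⟩ : ∃ x : τc → FractionRing (Ac p), ∀ t, algebraMap (Ac p) _ (X t) = x t :=
    ⟨_, fun _ => rfl⟩
  have x0 : ∀ t, x t ≠ 0 := fun t => hx t ▸ (map_ne_zero_iff _
    (IsFractionRing.injective (Ac p) (FractionRing (Ac p)))).2 (X_ne_zero t)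
  obtain ⟨θ, h0, h1⟩ : ∃ θ : K1 p →+* FractionRing (Ac p),
      (∀ d, θ (tt p d (!i)) = x (.inr (.inl d))) ∧ ∀ d, θ (tt p d i) =
        (x (.inl (d, none)) ^ 3 - x (.inl (d, some i)) * x (.inl (d, some (!i))) *
          x (.inl (d, none)) - x (.inr (.inl d)) * x (.inl (d, some (!i))) ^ 3) /
            x (.inl (d, some i)) ^ 3 := by
    refine ⟨eval₂Hom ((algebraMap (Ac p) _).comp C) fun k => if k.2 = i then
      (x (.inl (k.1, none)) ^ 3 - x (.inl (k.1, some i)) * x (.inl (k.1, some (!i))) *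
        x (.inl (k.1, none)) - x (.inr (.inl k.1)) * x (.inl (k.1, some (!i))) ^ 3) /
          x (.inl (k.1, some i)) ^ 3 else x (.inr (.inl k.1)), fun d => ?_, fun d => ?_⟩
    · rw [tt, eval₂Hom_X', if_neg (by simp)]
    · rw [tt, eval₂Hom_X', if_pos rfl]
  obtain ⟨Θ₂, a1, a2, a3⟩ := exists_lift2 p θ
    (fun k => Units.mk0 (x (.inl (k.1, some k.2))) (x0 _)) (fun d => x (.inl (d, none)))
    (fun d => by
      have e0 := h0 d
      have e1 := h1 d
      rw [eq_div_iff (pow_ne_zero 3 (x0 _))] at e1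
      cases i
      · simp only [Units.val_mk0, Bool.not_false] at e0 e1 ⊢
        rw [e0]
        linear_combination -e1
      · simp only [Units.val_mk0, Bool.not_true] at e0 e1 ⊢
        rw [e0]
        linear_combination -e1)
  simp only [Units.val_mk0] at a2
  obtain ⟨Θ₃, b1, b2, b3⟩ : ∃ Θ₃ : L3 p (Option Bool) →+* FractionRing (Ac p),
      (∀ y, Θ₃ (C y) = Θ₂ y) ∧ (∀ k, k ≠ some i → Θ₃ (X k) = x (.inr (.inr k))) ∧
        Θ₃ (X (some i)) = (x (.inr (.inr (some i))) ^ p -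
          x (.inr (.inr none)) * x (.inl (true, none)) ^ p -
          x (.inr (.inr (some (!i)))) * x (.inl (true, some (!i))) ^ p) /
            x (.inl (true, some i)) ^ p := by
    refine ⟨eval₂Hom Θ₂ fun k => if k = some i then (x (.inr (.inr (some i))) ^ p -
          x (.inr (.inr none)) * x (.inl (true, none)) ^ p -
          x (.inr (.inr (some (!i)))) * x (.inl (true, some (!i))) ^ p) /
            x (.inl (true, some i)) ^ p else x (.inr (.inr k)), fun y => eval₂Hom_C _ _ _,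
      fun k hk => ?_, ?_⟩
    · rw [eval₂Hom_X', if_neg hk]
    · rw [eval₂Hom_X', if_pos rfl]
  have hz : x (.inr (.inr (some i))) ^ p = Θ₃ (cz1 p none) * x (.inr (.inr (some i))) +
      Θ₃ (cz0 p id none false) := by
    rw [eq_div_iff (pow_ne_zero p (x0 _))] at b3
    rw [cz1_none, cz0_none, aa_eq p i]
    simp only [map_zero, map_add, map_mul, map_pow, b1, a2, a3, b2 none (by simp),
      b2 (some (!i)) (by simp)]
    linear_combination -b3
  obtain ⟨Θ, c1, c2⟩ : ∃ Θ : DS p →+* FractionRing (Ac p), (∀ y, Θ (aS p y) = Θ₃ y) ∧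
      Θ (zz p id none false) = x (.inr (.inr (some i))) :=
    ⟨exLift p _ _ Θ₃ _ hz, exLift_alg _ _ _ _ _ _, exLift_root _ _ _ _ _ _⟩
  have c3 : ∀ y, Θ (eS p y) = Θ₂ y := fun y => by rw [em_apply, c1, b1]
  refine ⟨Θ, fun a => RingHom.congr_fun (f := Θ.comp (Ψc p i)) (ringHom_ext
    (fun r => RingHom.congr_fun (RingHom.ext_zmod ((Θ.comp (Ψc p i)).comp C)
      ((algebraMap (Ac p) _).comp C)) r) fun t => ?_) a⟩
  rw [RingHom.comp_apply, Ψc_X, hx]
  obtain ⟨d, _ | k⟩ | d | k := t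
  · exact (c3 _).trans (a3 d)
  · exact (c3 _).trans (a2 d k)
  · rw [gc, ← eS_alg, c3, a1, h0]
  · rw [gc]
    split_ifs with h
    · rw [c2, h]
    · rw [c1, b2 k h]

/-- The two coordinates which are inverted in the chart. -/
def μc (i : Bool) : Ac p := X (.inl (false, some i)) * X (.inl (true, some i))

lemma Ψc_μ (i : Bool) : Ψc p i (μc p i) = eS p (mo p (sg false i)) * eS p (mo p (sg true i)) := by
  rw [μc, map_mul, Ψc_X, Ψc_X]
  rfl

/-- Fractions whose denominator is a power of the two inverted coordinates. -/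
def Fc (i : Bool) : Subring (DS p) where
  carrier := {c | ∃ (N : ℕ) (a : Ac p), Ψc p i (μc p i) ^ N * c = Ψc p i a}
  mul_mem' := by
    rintro c c' ⟨N, a, h⟩ ⟨N', a', h'⟩
    exact ⟨N + N', a * a', by rw [map_mul (Ψc p i) a, ← h, ← h']; ring⟩
  one_mem' := ⟨0, 1, by simp⟩
  add_mem' := by
    rintro c c' ⟨N, a, h⟩ ⟨N', a', h'⟩
    refine ⟨N + N', μc p i ^ N' * a + μc p i ^ N * a', ?_⟩
    rw [map_add, map_mul, map_mul, map_pow, map_pow, ← h, ← h']
    ring
  zero_mem' := ⟨0, 0, by simp⟩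
  neg_mem' := by
    rintro c ⟨N, a, h⟩
    exact ⟨N, -a, by rw [map_neg, ← h, mul_neg]⟩

lemma Fc_g (i : Bool) (t : τc) : gc p i t ∈ Fc p i := ⟨0, X t, by rw [Ψc_X]; simp⟩

lemma Fc_w (i d : Bool) (k : Option Bool) : eS p (ww p d k) ∈ Fc p i := Fc_g p i (.inl (d, k))

lemma Fc_u (i d k : Bool) : eS p (mo p (sg d k)) ∈ Fc p i := Fc_w p i d (some k)

lemma Fc_div (i d : Bool) (n : ℕ) {c : DS p} (h : eS p (mo p (sg d i)) ^ n * c ∈ Fc p i) :
    c ∈ Fc p i := by
  obtain ⟨N, a, h⟩ := mul_mem (pow_mem (Fc_u p i (!d) i) n) h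
  refine ⟨N + n, a, ?_⟩
  rw [← h, pow_add, Ψc_μ]
  cases d <;> simp only [Bool.not_false, Bool.not_true] <;> ring

lemma Fc_t (i d k : Bool) : algebraMap (K1 p) (DS p) (tt p d k) ∈ Fc p i := by
  have h0 : algebraMap (K1 p) (DS p) (tt p d (!i)) ∈ Fc p i := Fc_g p i (.inr (.inl d))
  by_cases h : k = i
  · subst h
    refine Fc_div p k d 3 ?_
    have e := congrArg (eS p) (w2_rel p d)
    simp only [map_add, map_mul, map_pow, Algebra.smul_def, eS_alg] at e
    have e2 : eS p (mo p (sg d k)) ^ 3 * algebraMap (K1 p) (DS p) (tt p d k) =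
        eS p (w2 p d) ^ 3 - eS p (mo p (sg d false)) * eS p (mo p (sg d true)) * eS p (w2 p d) -
          algebraMap (K1 p) (DS p) (tt p d (!k)) * eS p (mo p (sg d (!k))) ^ 3 := by
      cases k <;> simp only [Bool.not_false, Bool.not_true] <;> linear_combination -e
    rw [e2]
    exact sub_mem (sub_mem (pow_mem (Fc_w p k d none) 3) (mul_mem (mul_mem (Fc_u p k d _)
      (Fc_u p k d _)) (Fc_w p k d none))) (mul_mem h0 (pow_mem (Fc_u p k d _) 3))
  · rwa [Bool.eq_not_of_ne h]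

lemma Fc_K (i : Bool) (c : K1 p) : algebraMap (K1 p) (DS p) c ∈ Fc p i := by
  induction c using MvPolynomial.induction_on with
  | C r => exact ⟨0, C r, by rw [pow_zero, one_mul, Ψc, eval₂Hom_C]; rfl⟩
  | add a b ha hb => rw [map_add]; exact add_mem ha hb
  | mul_X a k ha => rw [map_mul]; exact mul_mem ha (Fc_t p i k.1 k.2)

lemma Fc_z (i : Bool) : zz p id none false ∈ Fc p i := by
  have := Fc_g p i (.inr (.inr (some i)))
  rwa [gc, if_pos rfl] at this

lemma Fc_s (i : Bool) (k : Option Bool) : aS p (X k) ∈ Fc p i := by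
  have h0 : ∀ k, k ≠ some i → aS p (X k) ∈ Fc p i := fun k hk => by
    have := Fc_g p i (.inr (.inr k))
    rwa [gc, if_neg hk] at this
  by_cases h : k = some i
  · subst h
    refine Fc_div p i true p ?_
    have e := zz_pow_none p (id : Option Bool → Option Bool)
    rw [aa_eq p i] at e
    simp only [map_add, map_mul, map_pow, ← em_apply] at e
    rw [show eS p (mo p (sg true i)) ^ p * aS p (X (some i)) = zz p id none false ^ p -
      aS p (X none) * eS p (w2 p true) ^ p -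
        aS p (X (some (!i))) * eS p (mo p (sg true (!i))) ^ p by linear_combination -e]
    exact sub_mem (sub_mem (pow_mem (Fc_z p i) p) (mul_mem (h0 _ (by simp))
      (pow_mem (Fc_w p i true none) p))) (mul_mem (h0 _ (by simp)) (pow_mem (Fc_u p i _ _) p))
  · exact h0 k h

lemma Fc_mo1 (i d k : Bool) (n : ℤ) (h : k = i ∨ 0 ≤ n) : eS p (mo p (n • sg d k)) ∈ Fc p i := by
  obtain ⟨m, rfl | rfl⟩ := Int.eq_nat_or_neg n
  · rw [natCast_zsmul, mo_nsmul, map_pow]
    exact pow_mem (Fc_u p i d k) m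
  · rcases h with rfl | h
    · refine Fc_div p k d m ?_
      rw [← map_pow, ← mo_nsmul, ← map_mul, neg_zsmul, natCast_zsmul, mo_neg, map_one]
      exact one_mem _
    · obtain rfl : m = 0 := by omega
      rw [Nat.cast_zero, neg_zero, zero_smul, mo_zero, map_one]
      exact one_mem _

lemma Fc_mo (i : Bool) (v : GG) (h : ∀ d, 0 ≤ v (d, !i)) : eS p (mo p v) ∈ Fc p i := by
  have e : v = v (false, i) • sg false i + v (false, !i) • sg false (!i) +
      v (true, i) • sg true i + v (true, !i) • sg true (!i) := by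
    funext ⟨d, k⟩
    cases i <;> cases d <;> cases k <;> simp [sg]
  rw [e, mo_add, mo_add, mo_add, map_mul, map_mul, map_mul]
  exact mul_mem (mul_mem (mul_mem (Fc_mo1 p i _ _ _ (Or.inl rfl)) (Fc_mo1 p i _ _ _ (Or.inr (h _))))
    (Fc_mo1 p i _ _ _ (Or.inl rfl))) (Fc_mo1 p i _ _ _ (Or.inr (h _)))

lemma mem_CbS (d i : Bool) {x : DS p} :
    x ∈ Cb p id none (d, i) ↔ x ∈ V (b4 p id none false) (wE p (d, !i)) 0 := by
  rw [mem_Cb p id none i (Or.inr rfl), b4_none]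

lemma wmES (k : Bool × Bool) : WM (b4 p (id : Option Bool → Option Bool) none false) (wE p k) := by
  have := wmE p (id : Option Bool → Option Bool) none (!k.2) k (Or.inr (Bool.not_not _).symm)
  rwa [b4_none] at this

lemma Fc_of (i : Bool) {x : DS p} (h : ∀ d, x ∈ Cb p id none (d, i)) : x ∈ Fc p i := by
  refine Sp_induction _ (Q := fun x => x ∈ Fc p i) (zero_mem _) ?_ (fun _ _ => add_mem)
    (Sp_and _ ((mem_CbS p false i).1 (h false)) ((mem_CbS p true i).1 (h true)))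
  rintro c ⟨⟨⟨v, a⟩, ν⟩, j⟩ ⟨h1, h2⟩
  rw [Algebra.smul_def, b4_apply, b3_apply, monomial_eq, b2_apply, Finsupp.prod]
  simp only [map_mul, map_prod, map_pow, ← em_apply]
  refine mul_mem (Fc_K p i c) (mul_mem (mul_mem (mul_mem (mul_mem (Fc_mo p i v ?_)
    (pow_mem (Fc_w p i false none) _)) (pow_mem (Fc_w p i true none) _))
    (prod_mem fun k _ => pow_mem (Fc_s p i k) _)) (pow_mem (Fc_z p i) _))
  rintro (_ | _)
  · exact h1
  · exact h2

lemma mo_V (v : GG) (k : Bool × Bool) :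
    eS p (mo p v) ∈ V (b4 p id none false) (wE p k) (v k) := by
  rw [mo_eq, em_b2 p id none false]
  exact b_mem_Sp _ le_rfl

lemma Ψc_mem (i : Bool) (k : Bool × Bool) (a : Ac p) :
    Ψc p i a ∈ V (b4 p id none false) (wE p k) 0 := by
  have W := wmES p k
  induction a using MvPolynomial.induction_on with
  | C r => rw [Ψc, eval₂Hom_C]; exact W.alg _
  | add a b ha hb => rw [map_add]; exact add_mem ha hb
  | mul_X a t ha =>
    rw [map_mul, Ψc_X]
    refine W.mul' (n := 0) ha ?_ (by simp)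
    obtain ⟨d, j⟩ | d | j := t
    · exact em_mem p id none false (ww_mem d j k) (fun _ h => h)
    · exact W.alg _
    · rw [gc]
      split_ifs
      · rw [zz_eq]
        exact b_mem_Sp _ le_rfl
      · exact al_mem p id none false (X_mem p (wm_ex p k) j) (fun _ h => h)

lemma Θ_inj (i : Bool) {Θ : DS p →+* FractionRing (Ac p)}
    (h : ∀ a, Θ (Ψc p i a) = algebraMap (Ac p) _ a) : Function.Injective Θ := by
  rw [injective_iff_map_eq_zero]
  intro x hx
  obtain ⟨N, hN⟩ := exists_V (b4 p id none false) (wE p (false, !i)) x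
  obtain ⟨M, hM⟩ := exists_V (b4 p id none false) (wE p (true, !i)) x
  obtain ⟨n, a, e⟩ := Fc_of p i (x := eS p (mo p ((N : ℤ) • sg false (!i) + (M : ℤ) • sg true (!i)))
    * x) (by
      rintro (_ | _) <;> rw [mem_CbS]
      · exact (wmES p _).mul' (mo_V p _ _) hN (by simp [sg])
      · exact (wmES p _).mul' (mo_V p _ _) hM (by simp [sg]))
  have e2 := congrArg Θ e
  rw [map_mul, map_mul, hx, mul_zero, mul_zero, h, eq_comm,
    IsFractionRing.to_map_eq_zero_iff] at e2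
  have u : ∀ v, IsUnit (eS p (mo p v)) := fun v => (IsUnit.of_mul_eq_one _ (mo_neg p v)).map _
  rwa [e2, map_zero, Ψc_μ, (((u _).mul (u _)).pow n).mul_right_eq_zero,
    (u _).mul_right_eq_zero] at e

/-- The chart `i` of the special fibre. -/
def chS (i : Bool) : Cht (Ac p) (SS p) (DS p) where
  Ψ := Ψc p i
  Θ := (exists_Θ p i).choose
  j := (SS p).val.toRingHom
  μ := μc p i
  μ0 := mul_ne_zero (X_ne_zero _) (X_ne_zero _)
  comp := (exists_Θ p i).choose_spec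
  den s := Fc_of p i fun d => ((mem_RR' p id none).1 s.2).2 (d, i)

lemma μ_inv (i : Bool) (N : ℕ) :
    eS p (mo p (N • -(sg false i + sg true i))) * Ψc p i (μc p i) ^ N = 1 := by
  rw [Ψc_μ, ← map_mul, ← mo_add, mo_nsmul, map_pow, ← mul_pow, ← map_mul, mul_comm, mo_neg,
    map_one, one_pow]

lemma μ_inv_mem (i d : Bool) (N : ℕ) : eS p (mo p (N • -(sg false i + sg true i))) ∈
    V (b4 p id none false) (wE p (d, !i)) 0 :=
  V_mono _ _ (by cases i <;> cases d <;> simp [sg]) (mo_V p _ _)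

instance DS_domain : IsDomain (DS p) := by
  exact (Θ_inj p false (exists_Θ p false).choose_spec).isDomain _

theorem SS_normal : IsIntegrallyClosed (SS p) := by
  refine (isIntegrallyClosed_iff (FractionRing (SS p))).2 fun {x} hx => ?_
  obtain ⟨a, b, hb, rfl⟩ := IsFractionRing.div_surjective (A := SS p) x
  have hb' := IsFractionRing.to_map_ne_zero_of_mem_nonZeroDivisors (K := FractionRing (SS p)) hb
  have b0 : b.1 ≠ 0 := fun h => nonZeroDivisors.ne_zero hb (Subtype.ext h)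
  have key : ∀ i, ∃ y : DS p, (∀ d, y ∈ Cb p id none (d, i)) ∧ b.1 * y = a.1 := fun i => by
    obtain ⟨N, r, h⟩ := (chS p i).div (Θ_inj p i (chS p i).comp) Subtype.val_injective hx
      (mul_div_cancel₀ _ hb')
    refine ⟨eS p (mo p (N • -(sg false i + sg true i))) * Ψc p i r, fun d => (mem_CbS p d i).2
      ((wmES p _).mul' (μ_inv_mem p i d N) (Ψc_mem p i _ r) (by simp)), ?_⟩
    change b.1 * Ψc p i r = Ψc p i (μc p i) ^ N * a.1 at h
    rw [mul_left_comm, h, ← mul_assoc, μ_inv, one_mul]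
  obtain ⟨y, h0, e0⟩ := key false
  obtain ⟨y', h1, e1⟩ := key true
  obtain rfl : y = y' := mul_left_cancel₀ b0 (e0.trans e1.symm)
  obtain ⟨t1, t2⟩ := (mem_Tp' p id none false).1 ((mem_RR' p id none).1 b.2).1
  obtain ⟨t3, t4⟩ := (mem_Tp' p id none false).1 ((mem_RR' p id none).1 a.2).1
  have n1 : wG p (σ := Option Bool) (-p) (p + 1) = fun i => - wG p p (-(p + 1)) i := by
    funext i
    simp only [wG]
    ring
  have n2 : wG p (σ := Option Bool) p (-(p + 1)) = fun i => - wG p (-p) (p + 1) i := by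
    funext i
    simp only [wG]
    ring
  have hy : y ∈ SS p := (mem_RR' p id none).2 ⟨(mem_Tp' p id none false).2
    ⟨(wmG p id none false _ _).div (n1 ▸ wmG p id none false _ _) t1 (n1 ▸ t2) b0 (e0 ▸ t3),
      (wmG p id none false _ _).div (n2 ▸ wmG p id none false _ _) t2 (n2 ▸ t1) b0 (e0 ▸ t4)⟩,
    by rintro ⟨d, _ | _⟩ <;> [exact h0 d; exact h1 d]⟩
  refine ⟨⟨y, hy⟩, ?_⟩
  rw [eq_div_iff hb', ← map_mul]
  exact congrArg _ (Subtype.ext ((mul_comm _ _).trans e0))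

theorem qq_prime : (qq p (id : Option Bool → Option Bool) none).IsPrime := by
  have n1 : wG p (σ := Option Bool) (-1) 0 = fun i => - wG p 1 0 i := by
    funext i
    simp only [wG]
    ring
  have W := wmG p (id : Option Bool → Option Bool) none false 1 0
  have W' := wmG p (id : Option Bool → Option Bool) none false (-1) 0
  refine ⟨(Ideal.ne_top_iff_one _).2 fun h => one_ne_zero (α := DS p) ?_, fun {x y} h =>
    W.prime (n1 ▸ W') (RR_deg p id none false x.2) (RR_deg p id none false y.2) h⟩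
  refine Sp_false _ (Sp_and _ ((mem_qq p id none false).1 h) W'.1) fun i hi => ?_
  simp only [wG] at hi
  omega

theorem SS_chain : ∃ Q₁ Q₂ : Ideal (SS p), Q₁.IsPrime ∧ Q₂.IsPrime ∧ ⊥ < Q₁ ∧ Q₁ < Q₂ ∧
    Q₂ < qq p id none := by
  obtain ⟨Q₁, p1, h1⟩ := (chS p false).prime (kil fun t => t = .inl (false, some true))
    (by simp [chS, μc, kil_X])
  obtain ⟨Q₂, p2, h2⟩ := (chS p false).prime
    (kil fun t => t = .inl (false, some true) ∨ t = .inl (true, some true))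
    (by simp [chS, μc, kil_X])
  have ey : ∀ i j, (chS p false).Ψ (chS p false).μ ^ 0 * (chS p false).j (yy p id none (i, j)) =
      (chS p false).Ψ (X (.inl (false, some i)) ^ (p + 1) * X (.inl (true, some j)) ^ p) := by
    intro i j
    change _ * eS p (mo p (yv p i j)) = Ψc p false _
    rw [pow_zero, one_mul, yv, mo_add, mo_nsmul, mo_nsmul, map_mul, map_mul, map_pow, map_pow,
      map_pow, map_pow, Ψc_X, Ψc_X]
    rfl
  have p0 := hp.out.ne_zero
  refine ⟨Q₁, Q₂, p1, p2, bot_lt_iff_ne_bot.2 ((Submodule.ne_bot_iff _).2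
    ⟨yy p id none (true, false), (h1 _ _ _ (ey _ _)).2 (by simp [kil_X]), fun h => ?_⟩),
    lt_of_le_not_ge (fun s hs => ?_) fun h => ?_, lt_of_le_not_ge (fun s hs => ?_) fun h => ?_⟩
  · obtain ⟨w, -, -, hw⟩ := yy_inv p (id : Option Bool → Option Bool) none true false
    rw [h] at hw
    exact zero_ne_one ((zero_mul w).symm.trans hw)
  · obtain ⟨N, a, e⟩ := (chS p false).den s
    rw [h2 s N a e, ← kil_kil (fun t : τc => t = .inl (false, some true))
      (fun t => t = .inl (false, some true) ∨ t = .inl (true, some true)) (fun _ => Or.inl) a,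
      (h1 s N a e).1 hs, map_zero]
  · have := (h1 _ _ _ (ey false true)).1 (h ((h2 _ _ _ (ey false true)).2 (by simp [kil_X, p0])))
    simp [kil_X] at this
  · obtain ⟨N, a, e⟩ := (chS p false).den s
    obtain ⟨a₁, a₂, ha⟩ := kil_two (.inl (false, some true) : τc) (.inl (true, some true)) a
    rw [(h2 s N a e).1 hs, zero_add] at ha
    change Ψc p false (μc p false) ^ N * s.1 = Ψc p false a at e
    have e2 : s.1 = eS p (mo p (sg false true)) *
        (eS p (mo p (N • -(sg false false + sg true false))) * Ψc p false a₁) +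
          eS p (mo p (sg true true)) *
        (eS p (mo p (N • -(sg false false + sg true false))) * Ψc p false a₂) := by
      rw [ha, map_add, map_mul, map_mul, Ψc_X, Ψc_X] at e
      rw [← one_mul s.1, ← μ_inv p false N, mul_assoc, e]
      simp only [gc, ww]
      ring
    have k : ∀ d a, eS p (mo p (sg d true)) *
        (eS p (mo p (N • -(sg false false + sg true false))) * Ψc p false a) ∈
          V (b4 p id none false) (wE p (d, true)) 1 := fun d a =>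
      (wmES p _).mul' (mo_V p _ _) ((wmES p _).mul (μ_inv_mem p false d N) (Ψc_mem p false _ a))
        (by simp [sg])
    have m1 : s.1 ∈ Sp (b4 p id none false)
        (fun y => 1 ≤ wE p (false, true) y ∨ 1 ≤ wE p (true, true) y) := by
      rw [e2]
      exact add_mem (Sp_mono _ (fun _ => Or.inl) (k false a₁))
        (Sp_mono _ (fun _ => Or.inr) (k true a₂))
    have m2 := RR_supp p id none true s.2
    rw [b4_none] at m2
    refine (mem_qq p id none false).2 (Sp_mono _ ?_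
      (Sp_and _ m1 (Sp_and _ (RR_supp p id none false s.2) m2)))
    rintro y ⟨k1, ⟨k2, k3, k4, k5⟩, -, k6, -⟩
    obtain ⟨n, k7, k8⟩ := k2.ex
    have hp0 : (0 : ℤ) < p := by exact_mod_cast hp.out.pos
    simp only [wE, wG, dd, dg, Bool.not_true, Bool.not_false] at *
    have : 0 < n := by
      refine lt_of_not_ge fun hn => ?_
      have a1 := mul_nonpos_of_nonneg_of_nonpos hp0.le hn
      rw [add_mul] at k7
      omega
    nlinarith
  · have := (h2 _ _ _ (ey false false)).1 (h (yy_mem p id none (false, false)))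
    simp [kil_X] at this

end Pool.Agent.Work.MP_34c70a_al.N
end
end
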