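import Pool.Agent.Work.MP_34c70a_al.N.Chart
import Mathlib

-- merged part: Pool.Agent.Work.MP_34c70a_al.N.Gen
section
/-!
Generators of the intersection of the four charts.
-/

set_option autoImplicit false

open Module MvPolynomial

noncomputable section

namespace Pool.Agent.Work.MP_34c70a_al.N

variable (p : ℕ) [hp : Fact p.Prime] {σ : Type} (ι : Option Bool → σ) (o : Option σ)

/-- Indices of the generators: six coordinates and two sections. -/
abbrev Gm : Type := (Bool × Option Bool) ⊕ Bool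

/-- The generators. -/
def gen : Gm → DD p ι o
  | .inl k => em p ι o (ww p k.1 k.2)
  | .inr i => em p ι o (mo p (sg false i)) * zz p ι o i

/-- Monomials in the generators. -/
def Lm (τ : Gm → ℕ) : DD p ι o := ∏ g, gen p ι o g ^ τ g

/-- The two degrees of a monomial in the generators. -/
def dm (d : Bool) (τ : Gm → ℕ) : ℕ :=
  τ (.inl (d, none)) + τ (.inl (d, some false)) + τ (.inl (d, some true)) + τ (.inr false) +
    τ (.inr true)

/-- Reduced monomials on the diagonal. -/
def Good (τ : Gm → ℕ) : Prop :=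
  p * dm false τ = (p + 1) * dm true τ ∧ τ (.inl (false, none)) ≤ 2 ∧ τ (.inl (true, none)) ≤ 2 ∧
    τ (.inr false) + τ (.inr true) < p

lemma Gen_uz (i i' : Bool) : em p ι o (mo p (sg false i)) * zz p ι o i' =
    b4 p ι o i' (((sg false i, 0), 0), ⟨1, hp.out.one_lt⟩) := by
  rw [zz_eq, mo_mul_b4, add_zero]

lemma gen_mem_Cb (g : Gm) (k : Bool × Bool) : gen p ι o g ∈ Cb p ι o k := by
  obtain ⟨d, j⟩ := k
  rcases g with g | i
  · exact em_mem p ι o j (ww_mem g.1 g.2 (d, !j)) (fun _ h => h)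
  · have a : ∀ i', em p ι o (mo p (sg false i)) * zz p ι o i' ∈
        V (b4 p ι o i') (wE p (d, !j)) 0 := fun i' => by
      rw [Gen_uz]
      refine b_mem_Sp _ ?_
      simp only [wE, sg, Pi.single_apply]
      split_ifs <;> simp
    by_cases h : d = true ∨ i = j
    · exact (mem_Cb p ι o i h).2 (a i)
    · obtain ⟨rfl, rfl⟩ : d = false ∧ j = !i := by
        revert h
        cases d <;> cases i <;> cases j <;> simp
      have b : em p ι o (mo p (sg false i)) * al p ι o (hh p o * C (ee p false)) ∈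
          V (b4 p ι o (!i)) (wE p (false, !!i)) 0 := by
        have b1 : mo p (sg false i) * ee p false ∈ V (b2 p) (fun a => a.1 (false, !!i)) 0 := by
          rw [ee, mo_mul_b2]
          refine b_mem_Sp _ ?_
          cases i <;> simp [iE, sg]
        have b0 := hh_mem p o (wm_ex p (false, !!i)) (ww_mem true none (false, !!i))
        have b1' := C_mem p (σ := σ) b1
        have b2 := (wm3 p σ (wm_ex p (false, !!i))).mul b0 b1'
        have e : em p ι o (mo p (sg false i)) * al p ι o (hh p o * C (ee p false)) =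
            al p ι o (hh p o * C (mo p (sg false i) * ee p false)) := by
          rw [em_apply, ← map_mul, C_mul, mul_left_comm]
        rw [e]
        exact al_mem p ι o _ b2 (fun y hy => by simpa [wE] using hy)
      refine (mem_Cb p ι o (!i) (Or.inr rfl)).2 ?_
      have c := a (!i)
      cases i
      · rw [gen, eq_sub_of_add_eq (zz_true p ι o).symm, mul_sub]
        exact sub_mem c b
      · rw [gen, zz_true, mul_add]
        exact add_mem c b

lemma Lm_deg (i : Bool) (a b : ℤ) (τ : Gm → ℕ) :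
    Lm p ι o τ ∈ V (b4 p ι o i) (wG p a b) (a * dm false τ + b * dm true τ) := by
  have W := wmG p ι o i a b
  have h : ∀ g : Gm, gen p ι o g ∈ V (b4 p ι o i) (wG p a b)
      (g.elim (fun k => if k.1 then b else a) (fun _ => a + b)) := by
    rintro (g | i')
    · exact em_mem p ι o i (ww_deg a b g.1 g.2) (fun _ h => by simpa [wG, dd, wG2] using h)
    · rw [swapG p ι o a b i i', gen, Gen_uz]
      refine b_mem_Sp _ ?_
      cases i' <;> simp [wG, dd, dg, sg]
  refine V_mono _ _ (le_of_eq ?_) (W.prod Finset.univ _ _ (fun g _ => W.pow (h g) (τ g)))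
  simp only [dm, Fintype.sum_sum_type, Fintype.sum_prod_type, Fintype.sum_bool, Fintype.sum_option,
    Sum.elim_inl, Sum.elim_inr, if_true, Bool.false_eq_true, if_false]
  push_cast
  ring

lemma Lm_mem {τ : Gm → ℕ} (h : p * dm false τ = (p + 1) * dm true τ) :
    Lm p ι o τ ∈ RR p ι o := by
  have h' : (p : ℤ) * dm false τ = (p + 1) * dm true τ := by exact_mod_cast h
  refine (mem_RR' p ι o).2 ⟨(mem_Tp' p ι o false).2 ⟨?_, ?_⟩,
    fun k => prod_mem fun g _ => pow_mem (gen_mem_Cb p ι o g k) _⟩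
  · exact V_mono _ _ (by linarith) (Lm_deg p ι o false _ _ τ)
  · exact V_mono _ _ (by linarith) (Lm_deg p ι o false _ _ τ)

lemma Gen_top (a : I2) (μ : σ →₀ ℕ) (J : Fin p) (h : Dl p ((a, μ), J))
    (h0 : 0 ≤ a.1 (false, false)) (h1 : 0 ≤ a.1 (false, true)) (h2 : 0 ≤ a.1 (true, false))
    (h3 : 0 ≤ a.1 (true, true)) :
    ∃ τ, Good p τ ∧ dg false a = dm false τ ∧ al p ι o (monomial μ 1) * Lm p ι o τ -
      al p ι o (b3 p σ (a, μ)) * zz p ι o false ^ (J : ℕ) ∈
        V (b4 p ι o false) (wZ p) (1 - (J : ℕ)) := by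
  obtain ⟨v, a⟩ := a
  obtain ⟨n0, e0⟩ := Int.eq_ofNat_of_zero_le h0
  obtain ⟨n1, e1⟩ := Int.eq_ofNat_of_zero_le h1
  obtain ⟨c0, e2⟩ := Int.eq_ofNat_of_zero_le h2
  obtain ⟨c1, e3⟩ := Int.eq_ofNat_of_zero_le h3
  have a0 := (a false).2
  have a1 := (a true).2
  have a2 := J.2
  dsimp only at e0 e1 e2 e3
  have hJ : (J : ℕ) ≤ n0 + n1 := by
    obtain ⟨n, b1, b2⟩ := h.ex
    simp only [dd, dg] at b1 b2
    rcases le_or_gt n 0 with c | c
    · have : (p : ℤ) * n ≤ 0 := mul_nonpos_of_nonneg_of_nonpos (by omega) c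
      omega
    · have : ((p : ℤ) + 1) * 1 ≤ (p + 1) * n := mul_le_mul_of_nonneg_left c (by omega)
      omega
  obtain ⟨j0, j1, r0, r1, f, rfl, rfl⟩ :
      ∃ j0 j1 r0 r1 : ℕ, (J : ℕ) = j0 + j1 ∧ n0 = r0 + j0 ∧ n1 = r1 + j1 :=
    ⟨min J.1 n0, J.1 - min J.1 n0, n0 - min J.1 n0, n1 - (J.1 - min J.1 n0), by omega, by omega,
      by omega⟩
  let τ : Gm → ℕ := Sum.elim
    (fun k => k.2.elim (a k.1) fun i => if k.1 then (if i then c1 else c0) else if i then r1 else r0)
    (fun i => if i then j1 else j0)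
  have d0 : dm false τ = a false + r0 + r1 + j0 + j1 := rfl
  have d1 : dm true τ = a true + c0 + c1 + j0 + j1 := rfl
  refine ⟨τ, ⟨?_, Nat.le_of_lt_succ a0, Nat.le_of_lt_succ a1, (f ▸ a2 : j0 + j1 < p)⟩, ?_, ?_⟩
  · simp only [Dl, dd, dg, e0, e1, e2, e3, f] at h
    rw [d0, d1]
    zify
    push_cast at h
    linarith
  · simp only [dg, d0, e0, e1]
    push_cast
    ring
  · have ev : v = (r0 + j0) • sg false false + (r1 + j1) • sg false true + c0 • sg true false +
        c1 • sg true true := by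
      funext ⟨x, y⟩
      cases x <;> cases y <;> simp [sg, e0, e1, e2, e3]
    have eb : al p ι o (b3 p σ ((v, a), μ)) = al p ι o (monomial μ 1) * em p ι o (b2 p (v, a)) := by
      rw [b3_apply, em_apply, ← map_mul, mul_comm, C_mul_monomial, mul_one]
    have eL : Lm p ι o τ = em p ι o (b2 p (v, a)) * zz p ι o false ^ j0 * zz p ι o true ^ j1 := by
      rw [b2_apply, ev]
      simp only [Lm, τ, Fintype.prod_sum_type, Fintype.prod_prod_type, Fintype.prod_bool,
        Fintype.prod_option, Sum.elim_inl, Sum.elim_inr, Option.elim, gen, ww, if_true,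
        Bool.false_eq_true, if_false, mo_add, mo_nsmul, map_mul, map_pow]
      ring
    have W := wmZ p ι o false
    have z0 : zz p ι o false ∈ V (b4 p ι o false) (wZ p) (-1) := by
      rw [zz_eq]
      exact b_mem_Sp _ (by simp [wZ])
    have z1 : al p ι o (b3 p σ ((v, a), μ)) ∈ V (b4 p ι o false) (wZ p) 0 :=
      al_mem p ι o false (Sp_true (P := fun _ => True) _ (fun _ => trivial) _)
        (fun y _ => by simp [wZ])
    have e : al p ι o (monomial μ 1) * Lm p ι o τ -
        al p ι o (b3 p σ ((v, a), μ)) * zz p ι o false ^ (J : ℕ) =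
        al p ι o (b3 p σ ((v, a), μ)) * zz p ι o false ^ j0 *
          (zz p ι o true ^ j1 - zz p ι o false ^ j1) := by
      rw [eL, eb, f]
      ring
    rw [e, f]
    exact W.mul' (W.mul z1 (W.pow z0 j0)) (zz_pow_sub p ι o true false false j1)
      (by push_cast; omega)

/-- The part of degree at least `m` is spanned by monomials in the generators. -/
theorem gen_span (m : ℕ) {x : DD p ι o} (hx : x ∈ RR p ι o)
    (hm : x ∈ V (b4 p ι o false) (wG p 1 0) m) :
    x ∈ Submodule.span (K1 p) {y | ∃ (μ : σ →₀ ℕ) (τ : Gm → ℕ), Good p τ ∧ m ≤ dm false τ ∧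
      y = al p ι o (monomial μ 1) * Lm p ι o τ} := by
  obtain ⟨N, hN⟩ : ∃ N, N = Submodule.span (K1 p) {y | ∃ (μ : σ →₀ ℕ) (τ : Gm → ℕ), Good p τ ∧
    m ≤ dm false τ ∧ y = al p ι o (monomial μ 1) * Lm p ι o τ} := ⟨_, rfl⟩
  have N1 : ∀ y ∈ N, y ∈ RR p ι o ∧ y ∈ V (b4 p ι o false) (wG p 1 0) m := by
    have : N ≤ Subalgebra.toSubmodule (RR p ι o) ⊓ V (b4 p ι o false) (wG p 1 0) m := by
      rw [hN, Submodule.span_le]
      rintro _ ⟨μ, τ, g, l, rfl⟩
      exact ⟨(RR p ι o).mul_mem (mon_mem_RR p ι o μ) (Lm_mem p ι o g.1),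
        (wmG p ι o false 1 0).mul' (RR_deg p ι o false (mon_mem_RR p ι o μ))
          (Lm_deg p ι o false 1 0 τ) (by omega)⟩
    exact fun y hy => this hy
  rw [← hN]
  have key : ∀ j : ℕ, j ≤ p → ∀ x ∈ RR p ι o, x ∈ V (b4 p ι o false) (wG p 1 0) m →
      x ∈ V (b4 p ι o false) (wZ p) (1 - j) → x ∈ N := by
    intro j
    induction j with
    | zero =>
      intro _ x _ _ h
      rw [Sp_false _ h (fun y hy => by simp only [wZ] at hy; omega)]
      exact zero_mem _
    | succ j ih =>
      intro hj x hx hm h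
      obtain ⟨J, rfl⟩ : ∃ J : Fin p, j = J := ⟨⟨j, hj⟩, rfl⟩
      have h0 : x ∈ V (b4 p ι o false) (wZ p) (-((J : ℕ) : ℤ)) :=
        V_mono _ _ (by push_cast; omega) h
      have h1 := (mem_Sp4 p ι o).1 (RR_supp p ι o false hx) J
      have h2 := (mem_Sp4 p ι o).1 (RR_supp p ι o true hx) J
      have h3 := (mem_Sp4 p ι o).1 hm J
      rw [← top_eq p ι o false true J h0] at h2
      have h4 : x - al p ι o ((bz p ι o false).repr x J) * zz p ι o false ^ (J : ℕ) ∈
          V (b4 p ι o false) (wZ p) (1 - (J : ℕ)) := by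
        rw [← bz_apply, ← Algebra.smul_def]
        refine (mem_Sp4 p ι o).2 fun k => ?_
        by_cases e : k = J
        · subst e
          simp
        · have e' : (k : ℕ) ≠ J := fun c => e (Fin.ext c)
          rw [map_sub, map_smul, Basis.repr_self, Finsupp.sub_apply, Finsupp.smul_apply,
            Finsupp.single_eq_of_ne e, smul_zero, sub_zero]
          refine Sp_mono _ (fun y hy => ?_) ((mem_Sp4 p ι o).1 h0 k)
          simp only [wZ] at hy ⊢
          omega
      obtain ⟨y, y1, y2⟩ : ∃ y ∈ N, y - al p ι o ((bz p ι o false).repr x J) *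
          zz p ι o false ^ (J : ℕ) ∈ V (b4 p ι o false) (wZ p) (1 - (J : ℕ)) := by
        refine Sp_induction _ (Q := fun F => ∃ y ∈ N, y - al p ι o F * zz p ι o false ^ (J : ℕ) ∈
          V (b4 p ι o false) (wZ p) (1 - (J : ℕ))) ⟨0, zero_mem _, by simp⟩ ?_ ?_
          (Sp_and _ h1 (Sp_and _ h2 h3))
        · rintro c ⟨a, μ⟩ ⟨⟨k1, k2, k3, k4⟩, ⟨-, k5, -⟩, k6⟩
          obtain ⟨τ, g, l, e⟩ := Gen_top p ι o a μ J k1 k5 k2 k3 k4
          refine ⟨c • (al p ι o (monomial μ 1) * Lm p ι o τ), Submodule.smul_mem _ _ ?_, ?_⟩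
          · rw [hN]
            refine Submodule.subset_span ⟨μ, τ, g, ?_, rfl⟩
            simp only [wG, dd] at k6
            omega
          · rw [← Algebra.smul_def (c • b3 p σ (a, μ)), smul_assoc,
              Algebra.smul_def (b3 p σ (a, μ)), ← smul_sub]
            exact Submodule.smul_mem _ _ e
        · rintro F G ⟨y, y1, y2⟩ ⟨z, z1, z2⟩
          refine ⟨y + z, add_mem y1 z1, ?_⟩
          rw [map_add, add_mul, add_sub_add_comm]
          exact add_mem y2 z2
      have h5 := ih (by omega) (x - y) (sub_mem hx (N1 y y1).1) (sub_mem hm (N1 y y1).2)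
        (by simpa using sub_mem h4 y2)
      simpa using add_mem h5 y1
  exact key p le_rfl x hx hm (Sp_true _ (fun y => by
    have := y.2.2
    simp only [wZ]
    omega) _)

lemma Lm_add (τ τ' : Gm → ℕ) : Lm p ι o (τ + τ') = Lm p ι o τ * Lm p ι o τ' := by
  simp only [Lm, Pi.add_apply, pow_add, Finset.prod_mul_distrib]

lemma Lm_single (g : Gm) (n : ℕ) : Lm p ι o (Pi.single g n) = gen p ι o g ^ n := by
  rw [Lm, Finset.prod_eq_single g]
  · simp
  · intro g' _ h
    simp [Pi.single_eq_of_ne h]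
  · simp

/-- The exponents of the four `y`. -/
def ty (k : Bool × Bool) : Gm → ℕ :=
  Pi.single (.inl (false, some k.1)) (p + 1) + Pi.single (.inl (true, some k.2)) p

lemma Lm_ty (k : Bool × Bool) : Lm p ι o (ty p k) = (yy p ι o k).1 := by
  rw [ty, Lm_add, Lm_single, Lm_single, yy_val, yv, mo_add, mo_nsmul, mo_nsmul, map_mul, map_pow,
    map_pow]
  rfl

omit hp in
lemma dm_ty (d : Bool) (k : Bool × Bool) (τ : Gm → ℕ) :
    dm d (ty p k + τ) = (if d then p else p + 1) + dm d τ := by
  obtain ⟨_ | _, _ | _⟩ := k <;> cases d <;> simp [dm, ty] <;> omega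

/-- A reduced monomial of large degree is divisible by one of the four `y`. -/
lemma Lm_div {τ : Gm → ℕ} (h : Good p τ) (h3 : 2 * p + 3 ≤ dm false τ) :
    ∃ k τ', Good p τ' ∧ dm false τ' < dm false τ ∧
      Lm p ι o τ = (yy p ι o k).1 * Lm p ι o τ' := by
  obtain ⟨h1, h2, h4, h5⟩ := h
  obtain ⟨n, a, b⟩ : ∃ n, dm false τ = (p + 1) * n ∧ dm true τ = p * n := by
    have : dm true τ ≤ dm false τ := by nlinarith [hp.out.pos]
    obtain ⟨n, hn⟩ := Nat.exists_eq_add_of_le this
    rw [hn] at h1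
    exact ⟨n, by nlinarith, by nlinarith⟩
  have c : 3 ≤ n := by
    by_contra c
    have : (p + 1) * n ≤ (p + 1) * 2 := Nat.mul_le_mul_left _ (by omega)
    omega
  have c1 : (p + 1) * 3 ≤ dm false τ := a ▸ Nat.mul_le_mul_left _ c
  have c2 : p * 3 ≤ dm true τ := b ▸ Nat.mul_le_mul_left _ c
  obtain ⟨i, hi⟩ : ∃ i, p + 1 ≤ τ (.inl (false, some i)) := by
    by_contra k
    push Not at k
    have k0 := k false
    have k1 := k true
    simp only [dm] at c1
    omega
  obtain ⟨j, hj⟩ : ∃ j, p ≤ τ (.inl (true, some j)) := by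
    by_contra k
    push Not at k
    have k0 := k false
    have k1 := k true
    simp only [dm] at c2
    omega
  obtain ⟨τ', rfl⟩ : ∃ τ', τ = ty p (i, j) + τ' := by
    refine ⟨τ - ty p (i, j), funext fun g => ?_⟩
    have : ty p (i, j) g ≤ τ g := by
      simp only [ty, Pi.add_apply, Pi.single_apply]
      split_ifs with e1 e2 e2
      · simp [e1] at e2
      · simpa [e1] using hi
      · simpa [e2] using hj
      · simp
    simp only [Pi.add_apply, Pi.sub_apply]
    omega
  have e1 := dm_ty p false (i, j) τ'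
  have e2 := dm_ty p true (i, j) τ'
  simp only [if_true, Bool.false_eq_true, if_false] at e1 e2
  refine ⟨(i, j), τ', ⟨?_, le_trans (Nat.le_add_left _ _) h2, le_trans (Nat.le_add_left _ _) h4,
    lt_of_le_of_lt (add_le_add (Nat.le_add_left _ _) (Nat.le_add_left _ _)) h5⟩, by omega,
    by rw [Lm_add, Lm_ty]⟩
  rw [e1, e2] at h1
  linarith

theorem RR_ft [Finite σ] : Algebra.FiniteType (K1 p) (RR p ι o) := by
  classical
  let T : Set (DD p ι o) := (Set.range fun k => al p ι o (X k)) ∪
    (Set.range fun k => (yy p ι o k).1) ∪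
    Lm p ι o '' {τ | Good p τ ∧ dm false τ ≤ 2 * p + 2}
  have hf : {τ : Gm → ℕ | Good p τ ∧ dm false τ ≤ 2 * p + 2}.Finite := by
    refine (Set.finite_Iic (fun _ => 2 * p + 2 : Gm → ℕ)).subset ?_
    rintro τ ⟨⟨h1, -⟩, h2⟩ g
    have h3 : dm true τ ≤ dm false τ := by nlinarith [hp.out.pos]
    simp only [dm] at h2 h3
    rcases g with ⟨_ | _, _ | _ | _⟩ | _ | _ <;> dsimp only <;> omega
  have hT : T.Finite := ((Set.finite_range _).union (Set.finite_range _)).union (hf.image _)
  have h1 : ∀ (n : ℕ) (τ : Gm → ℕ), dm false τ < n → Good p τ →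
      Lm p ι o τ ∈ Algebra.adjoin (K1 p) T := by
    intro n
    induction n with
    | zero => omega
    | succ n ih =>
      intro τ h hg
      by_cases c : dm false τ ≤ 2 * p + 2
      · exact Algebra.subset_adjoin (Or.inr ⟨τ, ⟨hg, c⟩, rfl⟩)
      · obtain ⟨k, τ', g', l, e⟩ := Lm_div p ι o hg (by omega)
        rw [e]
        exact mul_mem (Algebra.subset_adjoin (Or.inl (Or.inr ⟨k, rfl⟩))) (ih τ' (by omega) g')
  have h2 : ∀ μ : σ →₀ ℕ, al p ι o (monomial μ 1) ∈ Algebra.adjoin (K1 p) T := by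
    intro μ
    rw [monomial_eq, C_1, one_mul, Finsupp.prod, map_prod]
    refine prod_mem fun k _ => ?_
    rw [map_pow]
    have : al p ι o (X k) ∈ T := Or.inl (Or.inl ⟨k, rfl⟩)
    exact pow_mem (Algebra.subset_adjoin this) _
  have h3 : Algebra.adjoin (K1 p) T = RR p ι o := by
    apply le_antisymm
    · rw [Algebra.adjoin_le_iff]
      rintro _ ((⟨k, rfl⟩ | ⟨k, rfl⟩) | ⟨τ, hτ, rfl⟩)
      · exact (XX p ι o k).2
      · exact (yy p ι o k).2
      · exact Lm_mem p ι o hτ.1.1
    · intro x hx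
      refine (Submodule.span_le (p := Subalgebra.toSubmodule (Algebra.adjoin (K1 p) T))).2 ?_
        (gen_span p ι o 0 hx (by simpa using RR_deg p ι o false hx))
      rintro _ ⟨μ, τ, g, -, rfl⟩
      exact (Algebra.adjoin (K1 p) T).mul_mem (h2 μ) (h1 _ τ (Nat.lt_succ_self _) g)
  rw [← Subalgebra.fg_iff_finiteType, ← h3]
  exact Subalgebra.fg_def.2 ⟨T, hT, rfl⟩

theorem qq_rad : qq p ι o ≤ (Ideal.span (Set.range (yy p ι o))).radical := by
  intro x hx
  refine ⟨2 * p + 3, ?_⟩
  have h1 := (wmG p ι o false 1 0).pow ((mem_qq p ι o false).1 hx) (2 * p + 3)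
  rw [mul_one] at h1
  have h2 := gen_span p ι o (2 * p + 3) (pow_mem x.2 (2 * p + 3)) h1
  have h3 : ∀ y ∈ Submodule.span (K1 p) {y | ∃ (μ : σ →₀ ℕ) (τ : Gm → ℕ), Good p τ ∧
      2 * p + 3 ≤ dm false τ ∧ y = al p ι o (monomial μ 1) * Lm p ι o τ},
      ∃ r ∈ Ideal.span (Set.range (yy p ι o)), r.1 = y := by
    intro y hy
    induction hy using Submodule.span_induction with
    | mem y hy =>
      obtain ⟨μ, τ, g, l, rfl⟩ := hy
      obtain ⟨k, τ', g', -, e⟩ := Lm_div p ι o g l
      refine ⟨⟨_, mul_mem (mon_mem_RR p ι o μ) (Lm_mem p ι o g'.1)⟩ * yy p ι o k,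
        Ideal.mul_mem_left _ _ (Ideal.subset_span ⟨k, rfl⟩), ?_⟩
      rw [e, MulMemClass.coe_mul]
      ring
    | zero => exact ⟨0, zero_mem _, rfl⟩
    | add y z _ _ hy hz =>
      obtain ⟨r, hr, rfl⟩ := hy
      obtain ⟨s, hs, rfl⟩ := hz
      exact ⟨r + s, add_mem hr hs, rfl⟩
    | smul c y _ hy =>
      obtain ⟨r, hr, rfl⟩ := hy
      exact ⟨c • r, Submodule.smul_of_tower_mem _ c hr, rfl⟩
  obtain ⟨r, hr, e⟩ := h3 _ h2
  rwa [show x ^ (2 * p + 3) = r from Subtype.ext e.symm]

end Pool.Agent.Work.MP_34c70a_al.N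
end
end

-- merged part: Pool.Agent.Work.MP_34c70a_al.N.Pi
section
/-!
The map from the total space onto the special fibre.
-/

set_option autoImplicit false

open Module MvPolynomial

noncomputable section

namespace Pool.Agent.Work.MP_34c70a_al.N

variable (p : ℕ) [hp : Fact p.Prime]

/-- Setting the deformation parameter to zero in polynomials. -/
def pi3 : L3 p (Option (Option Bool)) →ₐ[L2 p] L3 p (Option Bool) := aeval (fun k => k.elim 0 X)

lemma pi3_C (x : L2 p) : pi3 p (C x) = C x := (pi3 p).commutes x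

lemma pi3_none : pi3 p (X none) = 0 := aeval_X _ _

lemma pi3_some (k : Option Bool) : pi3 p (X (some k)) = X k := aeval_X _ _

lemma pi3_smul (c : K1 p) (F : L3 p (Option (Option Bool))) : pi3 p (c • F) = c • pi3 p F := by
  rw [← algebraMap_smul (L2 p) c F, map_smul, algebraMap_smul]

lemma pi3_hh : pi3 p (hh p (some none)) = 0 := by
  have : ph p (some (none : Option (Option Bool))) = X none ^ 2 := rfl
  rw [hh, this, map_mul, map_pow, pi3_none]
  simp

lemma pi3_aa : pi3 p (aa p some) = aa p id := by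
  simp only [aa, map_sum, map_mul, map_pow, pi3_C, pi3_some, id]

lemma pi3_mon (μ : Option (Option Bool) →₀ ℕ) (x : L2 p) :
    pi3 p (monomial μ x) = if μ none = 0 then monomial μ.some x else 0 := by
  rw [pi3, aeval_monomial, Finsupp.prod_option_index _ _ (by simp) (by simp [pow_add])]
  split_ifs with h
  · rw [h, pow_zero, one_mul, monomial_eq]
    rfl
  · simp [h]

lemma pi3_rename (F : L3 p (Option Bool)) : pi3 p (rename some F) = F := by
  rw [pi3, aeval_rename]
  exact aeval_X_left_apply F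

lemma pi3_ker (F : L3 p (Option (Option Bool))) : X none ∣ F - rename some (pi3 p F) := by
  induction F using MvPolynomial.induction_on with
  | C a => simp
  | add F G hF hG =>
    rw [map_add, map_add, add_sub_add_comm]
    exact dvd_add hF hG
  | mul_X F k hF =>
    cases k with
    | none => simp [pi3_none]
    | some k =>
      rw [map_mul, map_mul, pi3_some, rename_X, ← sub_mul]
      exact hF.mul_right _

/-- Setting the deformation parameter to zero in the ambient ring. -/
def piD : DR p →+* DS p :=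
  exLift p _ _ ((al p id none).comp (pi3 p).toRingHom) (zz p id none false) (by
    have h1 : p - 1 ≠ 0 := Nat.sub_ne_zero_of_lt hp.out.one_lt
    have a : pi3 p (cz1 p (some none)) = 0 := by
      rw [cz1, pi3_smul, map_pow, pi3_hh, zero_pow h1, smul_zero]
    have b : pi3 p (cz0 p some (some none) false) = aa p id := by
      rw [cz0, map_sub, map_mul, map_pow, pi3_hh, zero_pow hp.out.ne_zero, zero_mul, sub_zero,
        pi3_aa]
    change _ = al p id none (pi3 p _) * _ + al p id none (pi3 p _)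
    rw [a, b, zz_pow_none, map_zero, zero_mul, zero_add])

lemma piD_al (F : L3 p (Option (Option Bool))) :
    piD p (al p some (some none) F) = al p id none (pi3 p F) := exLift_alg _ _ _ _ _ _ F

lemma piD_zz (i : Bool) : piD p (zz p some (some none) i) = zz p id none i := by
  have h0 : piD p (zz p some (some none) false) = zz p id none false := exLift_root _ _ _ _ _ _
  cases i
  · exact h0
  · rw [zz_true, map_add, h0, piD_al, map_mul, pi3_hh, zz_none p id true]
    simp

lemma piD_smul (c : K1 p) (x : DR p) : piD p (c • x) = c • piD p x := by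
  rw [← algebraMap_smul (L3 p (Option (Option Bool))) c x, Algebra.smul_def, map_mul, piD_al,
    Algebra.algebraMap_eq_smul_one c, pi3_smul, map_one, ← Algebra.smul_def, smul_assoc, one_smul]

lemma piD_em (x : L2 p) : piD p (em p some (some none) x) = em p id none x := by
  rw [em_apply, piD_al, pi3_C, em_apply]

lemma piD_Lm (τ : Gm → ℕ) : piD p (Lm p some (some none) τ) = Lm p id none τ := by
  rw [Lm, Lm, map_prod]
  refine Finset.prod_congr rfl fun g _ => ?_
  rw [map_pow]
  congr 1
  cases g with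
  | inl k => exact piD_em p _
  | inr i => rw [gen, gen, map_mul, piD_em, piD_zz]

lemma piD_Sp (i : Bool) {P : I2 → Fin p → Prop} {x : DR p}
    (h : x ∈ Sp (b4 p some (some none) i) (fun y => P y.1.1 y.2)) :
    piD p x ∈ Sp (b4 p id none i) (fun y => P y.1.1 y.2) := by
  refine Sp_induction _ (Q := fun x => piD p x ∈ Sp (b4 p id none i) (fun y => P y.1.1 y.2))
    (by simp) ?_ (fun x y hx hy => by rw [map_add]; exact add_mem hx hy) h
  rintro c ⟨⟨a, μ⟩, j⟩ hy
  rw [piD_smul, b4_apply, b3_apply, map_mul, map_pow, piD_al, piD_zz, pi3_mon]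
  refine Submodule.smul_mem _ _ ?_
  split_ifs
  · rw [← b3_apply, ← b4_apply]
    exact b_mem_Sp _ hy
  · simp

lemma piD_deg {n : ℤ} {x : DR p} (h : x ∈ V (b4 p some (some none) false) (wG p 1 0) n) :
    piD p x ∈ V (b4 p id none false) (wG p 1 0) n :=
  piD_Sp p false (P := fun a j => n ≤ 1 * dg false a + 0 * (dg true a + (j : ℕ))) h

lemma piD_mem {x : DR p} (h : x ∈ RT p) : piD p x ∈ SS p := by
  rw [mem_RR] at h ⊢
  intro k
  exact (mem_Ch p id none k.2 (Or.inr rfl)).2 (piD_Sp p k.2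
    (P := fun a j => (p : ℤ) * dg false a = (p + 1) * (dg true a + (j : ℕ)) ∧
      0 ≤ a.1 (k.1, !k.2)) ((mem_Ch p some (some none) k.2 (Or.inr rfl)).1 (h k)))

lemma piD_ker {x : DR p} (h : piD p x = 0) : al p some (some none) (X none) ∣ x := by
  have e := (bz p some (some none) false).sum_repr x
  have e' : ∑ j, pi3 p ((bz p some (some none) false).repr x j) • bz p id none false j = 0 := by
    rw [← h]
    conv_rhs => rw [← e]
    rw [map_sum]
    refine Finset.sum_congr rfl fun j _ => ?_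
    rw [Algebra.smul_def, Algebra.smul_def, map_mul, piD_al, bz_apply, bz_apply, map_pow, piD_zz]
  rw [← e]
  refine Finset.dvd_sum fun j _ => ?_
  have h0 := Fintype.linearIndependent_iff.1 (bz p id none false).linearIndependent _ e' j
  have h1 := pi3_ker p ((bz p some (some none) false).repr x j)
  rw [h0, map_zero, sub_zero] at h1
  rw [Algebra.smul_def]
  exact (map_dvd (al p some (some none)) h1).mul_right _

/-- The map onto the special fibre. -/
def piR : RT p →+* SS p :=
  ((piD p).comp (RT p).val.toRingHom).codRestrict (SS p) (fun x => piD_mem p x.2)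

lemma piR_val (x : RT p) : (piR p x).1 = piD p x.1 := rfl

theorem piR_surj : Function.Surjective (piR p) := by
  rintro ⟨x, hx⟩
  have : ∃ y ∈ RT p, piD p y = x := by
    refine Submodule.span_induction (p := fun x _ => ∃ y ∈ RT p, piD p y = x) ?_
      ⟨0, zero_mem _, map_zero _⟩ ?_ ?_ (gen_span p id none 0 hx (RR_deg p id none false hx))
    · rintro _ ⟨μ, τ, h, -, rfl⟩
      refine ⟨_, mul_mem (mon_mem_RR p some (some none) (μ.mapDomain some))
        (Lm_mem p some (some none) h.1), ?_⟩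
      rw [map_mul, piD_Lm, piD_al, ← rename_monomial, pi3_rename]
    · rintro _ _ - - ⟨y, hy, rfl⟩ ⟨z, hz, rfl⟩
      exact ⟨_, add_mem hy hz, map_add _ _ _⟩
    · rintro c _ - ⟨y, hy, rfl⟩
      exact ⟨_, Subalgebra.smul_mem _ hy c, piD_smul p c y⟩
  obtain ⟨y, hy, rfl⟩ := this
  exact ⟨⟨y, hy⟩, rfl⟩

lemma ff_val : (ff p).1 = al p some (some none) (X none) := rfl

lemma piR_ff : piR p (ff p) = 0 := by
  apply Subtype.ext
  rw [piR_val, ff_val, piD_al, pi3_none, map_zero]
  rfl

theorem piR_ker : RingHom.ker (piR p) = Ideal.span {ff p} := by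
  refine le_antisymm (fun x hx => ?_) ((Ideal.span_singleton_le_iff_mem _).2 (piR_ff p))
  obtain ⟨y, hy⟩ := piD_ker p (congrArg Subtype.val hx)
  exact Ideal.mem_span_singleton.2
    ⟨⟨y, X_cancel_RR p some (some none) none (hy ▸ x.2)⟩, Subtype.ext hy⟩

theorem ff_reg (x : RT p) (h : ff p * x = 0) : x = 0 :=
  Subtype.ext (X_reg p some (some none) none (congrArg Subtype.val h))

lemma piR_yy (k : Bool × Bool) : piR p (yy p some (some none) k) = yy p id none k :=
  Subtype.ext (piD_em p _)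

/-- The point of the total space. -/
def PP : Ideal (RT p) := (qq p id none).comap (piR p)

lemma ff_mem : ff p ∈ PP p := by
  rw [PP, Ideal.mem_comap, piR_ff]
  exact zero_mem _

lemma yy_mem_PP (k : Bool × Bool) : yy p some (some none) k ∈ PP p := by
  rw [PP, Ideal.mem_comap, piR_yy]
  exact yy_mem p id none k

lemma comap_rad {A B κ : Type} [CommRing A] [CommRing B] (π : A →+* B)
    (hπ : Function.Surjective π) {f : A} (hk : RingHom.ker π = Ideal.span {f}) (y : κ → A)
    (y' : κ → B) (hy : ∀ k, π (y k) = y' k) {q : Ideal B}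
    (hq : q ≤ (Ideal.span (Set.range y')).radical) :
    q.comap π ≤ (Ideal.span (insert f (Set.range y))).radical := by
  intro x hx
  obtain ⟨n, hn⟩ := hq hx
  have e : Ideal.span (Set.range y') = (Ideal.span (Set.range y)).map π := by
    rw [Ideal.map_span, ← Set.range_comp]
    exact congrArg (fun g => Ideal.span (Set.range g)) (funext fun k => (hy k).symm)
  rw [e, ← map_pow, ← Ideal.mem_comap, Ideal.comap_map_of_surjective _ hπ,
    ← RingHom.ker_eq_comap_bot, hk, sup_comm, ← Ideal.span_insert] at hn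
  exact ⟨n, hn⟩

theorem PP_rad :
    PP p ≤ (Ideal.span (insert (ff p) (Set.range (yy p some (some none))))).radical :=
  comap_rad (piR p) (piR_surj p) (piR_ker p) _ _ (piR_yy p) (qq_rad p id none)

end Pool.Agent.Work.MP_34c70a_al.N
end
end

-- merged part: Pool.Agent.Work.MP_34c70a_al.N.Xi
section
/-!
The class that is killed by Frobenius on the total space.
-/

set_option autoImplicit false

open Module MvPolynomial

noncomputable section

namespace Pool.Agent.Work.MP_34c70a_al.N

variable (p : ℕ) [hp : Fact p.Prime]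

/-- The index of the coefficient of the class. -/
def ixi : I2 := (fun k => if k = (true, true) then 1 - p else -1, fun d => if d then 1 else 2)

/-- The top exponent of `z`. -/
def lst : Fin p := ⟨p - 1, Nat.sub_lt hp.out.pos one_pos⟩

lemma lst_val : ((lst p : ℕ) : ℤ) = p - 1 := by
  have := hp.out.one_le
  simp only [lst]
  omega

lemma ixi_neg (k : Bool × Bool) : (ixi p).1 k < 0 := by
  have := hp.out.one_lt
  simp only [ixi]
  split_ifs <;> omega

omit hp in
lemma ixi_deg : dg false (ixi p) = 0 ∧ dg true (ixi p) = 1 - p := by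
  constructor <;> simp [dg, ixi]

section gen

variable {σ : Type} (ι : Option Bool → σ) (o : Option σ)

/-- The class. -/
def xi : DD p ι o := b4 p ι o false ((ixi p, 0), lst p)

lemma xi_mem : xi p ι o ∈ Tp p ι o := (mem_Tp p ι o false).2 (b_mem_Sp _ (by
  simp only [Dl, dd, (ixi_deg p).1, (ixi_deg p).2, lst_val]
  ring))

lemma SM_coef (μ : σ →₀ ℕ) {x : DD p ι o} (hx : x ∈ SM p ι o) :
    (b4 p ι o false).repr x ((ixi p, μ), lst p) = 0 := by
  refine SM_induction p ι o (Q := fun x => (b4 p ι o false).repr x ((ixi p, μ), lst p) = 0)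
    (fun k x h => ?_) (fun x y hx hy => by simp [hx, hy]) hx
  have h1 := Sp_repr _ ((mem_Ch p ι o k.2 (Or.inr rfl)).1 h) (i := ((ixi p, μ), lst p))
    (fun h => absurd h.2 (not_le.2 (ixi_neg p _)))
  rw [b4_repr] at h1 ⊢
  rw [top_eq p ι o false k.2 (lst p) (Sp_true _ (fun y => ?_) x), h1]
  have := y.2.2
  simp only [wZ, lst]
  omega

/-- An element of the intersection is a constant up to positive degree. -/
lemma RR_const {s : DD p ι o} (hs : s ∈ RR p ι o) : ∃ F ∈ Sp (b3 p σ) (fun y => y.1 = (0, 0)),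
    s - al p ι o F ∈ V (b4 p ι o false) (wG p 1 0) 1 := by
  refine Submodule.span_induction (p := fun s _ => ∃ F ∈ Sp (b3 p σ) (fun y => y.1 = (0, 0)),
    s - al p ι o F ∈ V (b4 p ι o false) (wG p 1 0) 1) ?_ ⟨0, zero_mem _, by simp⟩ ?_ ?_
    (gen_span p ι o 0 hs (RR_deg p ι o false hs))
  · rintro _ ⟨μ, τ, h, -, rfl⟩
    by_cases h0 : dm false τ = 0
    · have h1 : dm true τ = 0 := by simpa [h0] using h.1
      have : Lm p ι o τ = 1 := by
        refine Finset.prod_eq_one fun g _ => ?_
        have : τ g = 0 := by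
          simp only [dm] at h0 h1
          rcases g with ⟨_ | _, _ | _ | _⟩ | _ | _ <;> omega
        rw [this, pow_zero]
      refine ⟨monomial μ 1, mon_mem p (P := fun a => a = (0, 0)) ?_ μ (fun _ h => h), ?_⟩
      · rw [← mo_zero, mo_eq]
        exact b_mem_Sp _ rfl
      · simp [this]
    · refine ⟨0, zero_mem _, ?_⟩
      rw [map_zero, sub_zero]
      exact (wmG p ι o false 1 0).mul' (RR_deg p ι o false (mon_mem_RR p ι o μ))
        (Lm_deg p ι o false 1 0 τ) (by omega)
  · rintro x y - - ⟨F, hF, h⟩ ⟨G, hG, h'⟩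
    refine ⟨F + G, add_mem hF hG, ?_⟩
    rw [map_add, add_sub_add_comm]
    exact add_mem h h'
  · rintro c x - ⟨F, hF, h⟩
    refine ⟨c • F, Submodule.smul_mem _ c hF, ?_⟩
    rw [algebraMap.smul, ← smul_sub]
    exact Submodule.smul_mem _ c h

lemma xi_coef (ν μ : σ →₀ ℕ) {F : L3 p σ} (hF : F ∈ Sp (b3 p σ) (fun y => y.1 = (0, 0))) :
    (b4 p ι o false).repr (al p ι o (monomial ν 1) * xi p ι o * al p ι o F)
      ((ixi p, μ + ν), lst p) = (b3 p σ).repr F ((0, 0), μ) := by
  have h1 : al p ι o F ∈ Sp (b4 p ι o false) (fun y => y.1.1 = (0, 0) ∧ y.2 = 0) :=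
    al_mem p ι o false hF (fun _ h => ⟨h, rfl⟩)
  have := repr_shift (b4 p ι o false) (al p ι o (monomial ν 1) * xi p ι o)
    (fun y => ((ixi p, y.1.2 + ν), lst p)) ?_ ?_ h1 (i := (((0, 0), μ), 0)) ⟨rfl, rfl⟩
  · rw [this, b4_repr]
    have e : al p ι o F = F • bz p ι o false 0 := by
      rw [bz_apply, Algebra.smul_def]
      simp
    rw [e, map_smul, Basis.repr_self]
    simp
  · rintro ⟨⟨a, β⟩, j⟩ ⟨⟨a', β'⟩, j'⟩ ⟨rfl, rfl⟩ ⟨rfl, rfl⟩ e
    simpa using e
  · rintro ⟨⟨a, β⟩, j⟩ ⟨rfl, rfl⟩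
    have e : b4 p ι o false (((0, 0), β), 0) = al p ι o (monomial β 1) := by
      rw [b4_apply, b3_apply, ← mo_eq, mo_zero]
      simp
    rw [e, mul_comm, xi, mon_mul_b4, mon_mul_b4, add_zero]

lemma mon_coef (ν : σ →₀ ℕ) (w : DD p ι o) :
    al p ι o (monomial ν 1) * w ∈ Sp (b4 p ι o false) (fun y => ν ≤ y.1.2) := by
  refine Sp_induction (b4 p ι o false) (P := fun _ => True)
    (Q := fun w => al p ι o (monomial ν 1) * w ∈ Sp (b4 p ι o false) (fun y => ν ≤ y.1.2))
    (by simp) (fun c y _ => ?_) (fun x y hx hy => by rw [mul_add]; exact add_mem hx hy)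
    (Sp_true _ (fun _ => trivial) w)
  rw [mul_smul_comm, mon_mul_b4]
  exact Submodule.smul_mem _ _ (b_mem_Sp _ le_self_add)

end gen

theorem xi_h1 (s : RT p) (hs : s ∉ PP p) (n : ℕ) (w : DR p) :
    (ff p).1 ^ n * (s.1 * xi p some (some none) - (ff p).1 * w) ∉ SM p some (some none) := by
  intro h
  obtain ⟨F, hF, h1⟩ := RR_const p some (some none) s.2
  have hne : ∃ μ : Option (Option Bool) →₀ ℕ, μ none = 0 ∧ (b3 p _).repr F ((0, 0), μ) ≠ 0 := by
    by_contra hc
    have h2 : F ∈ Sp (b3 p _) (fun y => y.2 none ≠ 0) := by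
      rw [mem_Sp] at hF ⊢
      rintro ⟨a, μ⟩ hy h0
      obtain rfl : a = (0, 0) := hF _ hy
      exact hc ⟨μ, h0, hy⟩
    have h3 : pi3 p F = 0 := by
      refine Sp_induction _ (Q := fun F => pi3 p F = 0) (map_zero _) ?_
        (fun x y hx hy => by rw [map_add, hx, hy, add_zero]) h2
      rintro c ⟨a, μ⟩ hy
      rw [pi3_smul, b3_apply, pi3_mon, if_neg hy, smul_zero]
    have h4 := piD_deg p h1
    rw [map_sub, piD_al, h3, map_zero, sub_zero] at h4
    exact hs h4
  obtain ⟨μ, h0, hμ⟩ := hne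
  have e1 : ∀ m : ℕ, (ff p).1 ^ m = al p some (some none) (monomial (Finsupp.single none m) 1) :=
    fun m => by rw [ff_val, ← map_pow, X_pow_eq_monomial]
  have e2 : (ff p).1 ^ n * (s.1 * xi p some (some none) - (ff p).1 * w) =
      (ff p).1 ^ n * xi p some (some none) * al p some (some none) F +
      (ff p).1 ^ n * ((s.1 - al p some (some none) F) * xi p some (some none)) -
      (ff p).1 ^ (n + 1) * w := by ring
  have h2 := SM_coef p some (some none) (μ + Finsupp.single none n) h
  have W := wmG p some (some (none : Option (Option Bool))) false 1 0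
  have h3 : (ff p).1 ^ n * ((s.1 - al p some (some none) F) * xi p some (some none)) ∈
      V (b4 p some (some none) false) (wG p 1 0) 1 :=
    W.mul' (RR_deg p some (some none) false (pow_mem (ff p).2 n))
      (W.mul h1 (b_mem_V _ _ _)) (by simp [wG, dd, (ixi_deg p).1])
  have h4 := Sp_repr _ h3 (i := ((ixi p, μ + Finsupp.single none n), lst p))
    (by simp [wG, dd, (ixi_deg p).1])
  have h5 := Sp_repr _ (mon_coef p some (some none) (Finsupp.single none (n + 1)) w)
    (i := ((ixi p, μ + Finsupp.single none n), lst p)) (fun h => by simpa [h0] using h none)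
  rw [← e1] at h5
  rw [e2, map_sub, map_add, Finsupp.sub_apply, Finsupp.add_apply, h4, h5, e1, xi_coef p _ _ _ _ hF]
    at h2
  exact hμ (by simpa using h2)

lemma sq_mem {F : L3 p (Option (Option Bool))}
    (hF : F ∈ Sp (b3 p _) (fun y => dg false y.1 = 0 ∧ dg true y.1 = 0)) :
    (ff p).1 ^ 2 * al p some (some none) F ∈ SM p some (some none) := by
  refine Sp_induction _ (Q := fun F => (ff p).1 ^ 2 * al p some (some none) F ∈
    SM p some (some none)) (by simp) ?_
    (fun x y hx hy => by rw [map_add, mul_add]; exact add_mem hx hy) hF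
  rintro c ⟨a, μ⟩ ⟨h0, h1⟩
  rw [algebraMap.smul, mul_smul_comm]
  refine Submodule.smul_mem _ _ ?_
  by_cases h : ∃ k, 0 ≤ a.1 k
  · obtain ⟨k, hk⟩ := h
    refine SM_mul p _ _ (pow_mem (ff p).2 2) (mem_SM p _ _ (k := (k.1, !k.2))
      (al_mem_Ch p _ _ _ (b_mem_Sp _ ⟨?_, by simpa using hk⟩)))
    rw [h0, h1]
    simp
  · obtain rfl : a = iEE := eq_iEE (fun k => not_le.1 fun hk => h ⟨k, hk⟩)
      (fun d => by cases d; exacts [h0.ge, h1.ge])
    have e0 : ph p (some (none : Option (Option Bool))) = X none ^ 2 := rfl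
    have e1 : b2 p (-sg true false - sg true true, Pi.single true 1) =
        mo p (-sg true false - sg true true) * w2 p true := by simp [b2_apply]
    have a : ∀ i, em p some (some none) (b2 p (-sg true false - sg true true, Pi.single true 1)) *
        zz p some (some none) i ∈ SM p some (some (none : Option (Option Bool))) := by
      intro i
      refine mem_SM p _ _ (k := (false, i)) ((mem_Ch p _ _ i (Or.inr rfl)).2 ?_)
      have := alz_mem p some (some (none : Option (Option Bool))) i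
        (P := fun y => y = ((-sg true false - sg true true, Pi.single true 1), 0))
        (Q := fun y => Dl p y ∧ 0 ≤ y.1.1.1 (false, !i)) (b_mem_Sp _ rfl) ⟨1, hp.out.one_lt⟩
        (by rintro _ rfl; simp [Dl, dd, dg, sg])
      rwa [b3_apply, pow_one] at this
    have b := SM_mul p _ _ (mon_mem_RR p some (some none) μ) (sub_mem (a true) (a false))
    have e2 : (ff p).1 ^ 2 * al p some (some none) (b3 p _ (iEE, μ)) =
        al p some (some none) (monomial μ 1) *
        (em p some (some none) (b2 p (-sg true false - sg true true, Pi.single true 1)) *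
          zz p some (some none) true -
        em p some (some none) (b2 p (-sg true false - sg true true, Pi.single true 1)) *
          zz p some (some none) false) := by
      have e3 : (monomial μ (b2 p iEE) : L3 p (Option (Option Bool))) =
          monomial μ 1 * C (b2 p iEE) := by rw [mul_comm, C_mul_monomial, mul_one]
      rw [← mul_sub, zz_true, add_sub_cancel_left, b3_apply, e3, ← ee_mul_ee, ee_eq p true, e1,
        hh, e0, ff_val, em_apply]
      simp only [map_mul, map_pow]
      ring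
    rwa [e2]

theorem xi_h2 : ∃ w ∈ Tp p some (some (none : Option (Option Bool))),
    (ff p).1 ^ 2 * (xi p some (some none) ^ p - (ff p).1 ^ p * w) ∈ SM p some (some none) := by
  have e0 : ph p (some (none : Option (Option Bool))) = X none ^ 2 := rfl
  have h2 := hp.out.two_le
  have d1 : (X none : L3 p (Option (Option Bool))) ^ p ∣ hh p (some none) ^ (p - 1) := by
    rw [hh, e0, mul_pow, ← pow_mul]
    exact (pow_dvd_pow _ (by omega)).mul_right _
  have d2 : (X none : L3 p (Option (Option Bool))) ^ p ∣ hh p (some none) ^ p :=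
    d1.trans (pow_dvd_pow _ (by omega))
  have d3 : (ff p).1 ^ p ∣ zz p some (some none) false ^ p - al p some (some none) (aa p some) := by
    rw [zz_rel, cz0, cz1, map_sub, add_sub_assoc, sub_sub_cancel_left, ff_val, ← map_pow,
      Algebra.smul_def]
    exact dvd_add ((map_dvd _ (d1.mul_left _)).mul_right _) (dvd_neg.2 (map_dvd _ (d2.mul_right _)))
  have hθ : ∀ a b : ℤ, C (b2 p (ixi p)) ^ p * aa p some ^ (p - 1) ∈
      V (b3 p (Option (Option Bool))) (fun y => wG2 a b y.1) 0 := by
    intro a b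
    have W := wm3 p (Option (Option Bool)) (wm_G p a b)
    refine W.mul' (W.pow (C_mem p (b_mem_V (b2 p) _ (ixi p))) p)
      (W.pow (aa_mem p some (wm_G p a b) (fun k => ww_deg a b true k)) (p - 1)) (le_of_eq ?_)
    rw [wG2, (ixi_deg p).1, (ixi_deg p).2, Nat.cast_sub hp.out.one_le]
    simp only [if_true]
    push_cast
    ring
  have hθ' : C (b2 p (ixi p)) ^ p * aa p some ^ (p - 1) ∈
      Sp (b3 p (Option (Option Bool))) (fun y => dg false y.1 = 0 ∧ dg true y.1 = 0) := by
    refine Sp_mono _ (fun y hy => ?_)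
      (Sp_and _ (hθ 1 0) (Sp_and _ (hθ (-1) 0) (Sp_and _ (hθ 0 1) (hθ 0 (-1)))))
    simp only [wG2] at hy
    omega
  have d4 : (ff p).1 ^ p ∣ xi p some (some none) ^ p -
      al p some (some none) (C (b2 p (ixi p)) ^ p * aa p some ^ (p - 1)) := by
    rw [xi, b4_apply, b3_apply, mul_pow, ← pow_mul, mul_comm _ p, pow_mul, map_mul, map_pow,
      map_pow]
    change _ ∣ al p some (some none) (C (b2 p (ixi p))) ^ p * _ ^ (p - 1) - _
    rw [← mul_sub]
    exact (d3.trans (sub_dvd_pow_sub_pow _ _ _)).mul_left _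
  obtain ⟨w, hw⟩ := d4
  have hT : ∀ n : ℕ, (ff p).1 ^ n * w ∈ Tp p some (some none) → w ∈ Tp p some (some none) := by
    intro n
    induction n with
    | zero => simp
    | succ n ih =>
      rw [pow_succ', mul_assoc]
      exact fun h => ih (X_cancel_Tp p some (some none) none h)
  refine ⟨w, hT p ?_, ?_⟩
  · rw [← hw]
    refine sub_mem (pow_mem (xi_mem p _ _) p) ((mem_Tp p _ _ false).2
      (al_mem p _ _ false hθ' (fun y hy => ?_)))
    simp [Dl, dd, hy.1, hy.2]
  · rw [← hw, sub_sub_cancel]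
    exact sq_mem p hθ'

end Pool.Agent.Work.MP_34c70a_al.N
end
end

-- merged part: Pool.Agent.Work.MP_34c70a_al.N.FF
section
/-!
Finiteness of Frobenius on localisations, localised surjections, dimension four.
-/

set_option autoImplicit false

noncomputable section

namespace Pool.Agent.Work.MP_34c70a_al.N

lemma FF_finite_iff {A B : Type} [CommRing A] [CommRing B] (g : A →+* B) :
    g.Finite ↔ ∃ (n : ℕ) (s : Fin n → B), ∀ b, ∃ c : Fin n → A, ∑ i, g (c i) * s i = b := by
  let := g.toAlgebra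
  constructor
  · intro h
    have : Module.Finite A B := h
    obtain ⟨n, s, hs⟩ := Module.Finite.exists_fin (R := A) (M := B)
    exact ⟨n, s, fun b => (Submodule.mem_span_range_iff_exists_fun A).1 (hs ▸ Submodule.mem_top)⟩
  · rintro ⟨n, s, hs⟩
    exact Module.finite_def.2 (Submodule.fg_def.2 ⟨Set.range s, Set.finite_range _,
      eq_top_iff.2 fun b _ => (Submodule.mem_span_range_iff_exists_fun A).2 (hs b)⟩)

/-- A power map of a ring of finite type over the integers is finite. -/
theorem frob_finite_ft {R : Type} [CommRing R] {p : ℕ} (hp : 0 < p)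
    (hft : (Int.castRingHom R).FiniteType) (F : R →+* R) (hF : ∀ x, F x = x ^ p) : F.Finite := by
  refine RingHom.IsIntegral.to_finite (fun x => ?_) ?_
  · refine ⟨Polynomial.X ^ p - Polynomial.C x, Polynomial.monic_X_pow_sub_C _ hp.ne', ?_⟩
    simp [hF]
  · refine RingHom.FiniteType.of_comp_finiteType (f := Int.castRingHom R) ?_
    rwa [RingHom.ext_int (F.comp (Int.castRingHom R)) (Int.castRingHom R)]

lemma ft_int_of_zmod {R : Type} [CommRing R] (p : ℕ) [Algebra (ZMod p) R]
    [h : Algebra.FiniteType (ZMod p) R] : (Int.castRingHom R).FiniteType := by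
  rw [← RingHom.ext_int ((algebraMap (ZMod p) R).comp (Int.castRingHom (ZMod p)))
    (Int.castRingHom R)]
  exact (RingHom.finiteType_algebraMap.2 h).comp
    (RingHom.FiniteType.of_surjective _ (ZMod.ringHom_surjective _))

/-- Finiteness of the power map passes to localisations. -/
theorem frob_finite_of_loc {R L : Type} [CommRing R] [CommRing L] [Algebra R L] (M : Submonoid R)
    [IsLocalization M L] {p : ℕ} (hp : 0 < p) (F₀ : R →+* R) (hF₀ : ∀ x, F₀ x = x ^ p)
    (h : F₀.Finite) (F : L →+* L) (hF : ∀ x, F x = x ^ p) : F.Finite := by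
  obtain ⟨n, s, hs⟩ := (FF_finite_iff _).1 h
  refine (FF_finite_iff _).2 ⟨n, fun i => algebraMap R L (s i), fun x => ?_⟩
  obtain ⟨⟨a, b⟩, rfl⟩ := IsLocalization.mk'_surjective M x
  obtain ⟨q, rfl⟩ : ∃ q, p = q + 1 := ⟨p - 1, by omega⟩
  obtain ⟨c, hc⟩ := hs (a * (b : R) ^ q)
  refine ⟨fun i => IsLocalization.mk' L (c i) b, ?_⟩
  have hu : IsUnit (algebraMap R L b ^ (q + 1)) := (IsLocalization.map_units L b).pow _
  refine hu.mul_left_cancel ?_
  have h1 := congrArg (algebraMap R L) hc
  simp only [map_sum, map_mul, map_pow, hF₀] at h1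
  simp only [hF, Finset.mul_sum, ← mul_assoc, ← mul_pow, IsLocalization.mk'_spec']
  rw [h1, pow_succ, mul_assoc, IsLocalization.mk'_spec', mul_comm]

/-- (1) Frobenius of a local ring of a finite type `ZMod p`-algebra is finite. -/
theorem frob_finite_loc {R : Type} [CommRing R] {p : ℕ} (hp : p.Prime) [Algebra (ZMod p) R]
    [Algebra.FiniteType (ZMod p) R] (q : Ideal R) [hq : q.IsPrime]
    (F : Localization.AtPrime q →+* Localization.AtPrime q) (hF : ∀ x, F x = x ^ p) :
    F.Finite := by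
  have : Fact p.Prime := ⟨hp⟩
  have : Nontrivial R := ⟨⟨0, 1, fun h => hq.ne_top ((Ideal.eq_top_iff_one q).2 (h ▸ q.zero_mem))⟩⟩
  have : CharP R p := (CharP.charP_iff_prime_eq_zero hp).2 (by
    rw [← map_natCast (algebraMap (ZMod p) R), ZMod.natCast_self, map_zero])
  exact frob_finite_of_loc q.primeCompl hp.pos (frobenius R p) (fun _ => rfl)
    (frob_finite_ft hp.pos (ft_int_of_zmod p) _ (fun _ => rfl)) F hF

/-- The characteristic of a local ring of a ring in which `p` vanishes. -/
theorem charP_loc {R : Type} [CommRing R] {p : ℕ} (hp : p.Prime) (h : (p : R) = 0)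
    (q : Ideal R) [q.IsPrime] : CharP (Localization.AtPrime q) p :=
  (CharP.charP_iff_prime_eq_zero hp).2 (by
    rw [← map_natCast (algebraMap R (Localization.AtPrime q)), h, map_zero])

section loc

variable {R S : Type} [CommRing R] [CommRing S] (π : R →+* S) (P : Ideal R) [P.IsPrime]
  (q : Ideal S) [q.IsPrime] (hPq : P = q.comap π)

/-- The map of local rings induced by `π`. -/
def locMap : Localization.AtPrime P →+* Localization.AtPrime q :=
  Localization.localRingHom P q π hPq

lemma locMap_alg (x : R) :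
    locMap π P q hPq (algebraMap R _ x) = algebraMap S _ (π x) :=
  Localization.localRingHom_to_map P q π hPq x

/-- (2a) The induced map is onto. -/
theorem loc_surj (hπ : Function.Surjective π) : Function.Surjective (locMap π P q hPq) := by
  intro y
  obtain ⟨⟨a, ⟨b, hb⟩⟩, rfl⟩ := IsLocalization.mk'_surjective q.primeCompl y
  obtain ⟨a, rfl⟩ := hπ a
  obtain ⟨b, rfl⟩ := hπ b
  have hb' : b ∈ P.primeCompl := by
    intro h
    rw [hPq] at h
    exact hb h
  exact ⟨IsLocalization.mk' _ a ⟨b, hb'⟩, Localization.localRingHom_mk' P q π hPq a ⟨b, hb'⟩⟩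

/-- (2b) The kernel of the induced map. -/
theorem loc_ker (hπ : Function.Surjective π) (f : R) (hk : RingHom.ker π = Ideal.span {f}) :
    RingHom.ker (locMap π P q hPq) =
      Ideal.span {algebraMap R (Localization.AtPrime P) f} := by
  have hf : π f = 0 := by
    rw [← RingHom.mem_ker, hk]
    exact Ideal.mem_span_singleton_self f
  apply le_antisymm
  · intro x hx
    obtain ⟨⟨a, b⟩, rfl⟩ := IsLocalization.mk'_surjective P.primeCompl x
    rw [RingHom.mem_ker] at hx
    change Localization.localRingHom P q π hPq (IsLocalization.mk' _ a b) = 0 at hx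
    rw [Localization.localRingHom_mk', IsLocalization.mk'_eq_zero_iff] at hx
    obtain ⟨⟨m, hm⟩, e⟩ := hx
    obtain ⟨m, rfl⟩ := hπ m
    have hm' : m ∈ P.primeCompl := by
      intro h
      rw [hPq] at h
      exact hm h
    have h1 : m * a ∈ RingHom.ker π := by
      rw [RingHom.mem_ker, map_mul]
      exact e
    rw [hk, Ideal.mem_span_singleton'] at h1
    obtain ⟨c, hc⟩ := h1
    rw [Ideal.mem_span_singleton']
    refine ⟨IsLocalization.mk' _ c (⟨m, hm'⟩ * b), ?_⟩
    change _ = IsLocalization.mk' _ a b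
    rw [mul_comm, IsLocalization.mul_mk'_eq_mk'_of_mul, IsLocalization.mk'_eq_iff_eq]
    congr 1
    change (b : R) * (f * c) = m * b * a
    linear_combination (b : R) * hc
  · rw [Ideal.span_singleton_le_iff_mem, RingHom.mem_ker, locMap_alg, hf, map_zero]

include hPq in
omit [q.IsPrime] in
/-- (2c) The generator of the kernel lies in the maximal ideal. -/
theorem loc_mem (f : R) (hf : π f = 0) :
    algebraMap R (Localization.AtPrime P) f ∈ IsLocalRing.maximalIdeal _ := by
  rw [IsLocalization.AtPrime.to_map_mem_maximal_iff (Localization.AtPrime P) P, hPq,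
    Ideal.mem_comap, hf]
  exact q.zero_mem

end loc

/-- A regular element stays nonzero in a local ring. -/
theorem loc_ne_zero {R : Type} [CommRing R] (P : Ideal R) [hP : P.IsPrime] (f : R)
    (hf : ∀ x, x * f = 0 → x = 0) : algebraMap R (Localization.AtPrime P) f ≠ 0 := by
  intro h
  rw [IsLocalization.map_eq_zero_iff P.primeCompl] at h
  obtain ⟨⟨m, hm⟩, e⟩ := h
  exact hm ((hf m e).symm ▸ P.zero_mem)

lemma height_le_four {R : Type} [CommRing R] [IsNoetherianRing R] (P : Ideal R) [hP : P.IsPrime]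
    (a b c d : R) (ha : a ∈ P) (hb : b ∈ P) (hc : c ∈ P) (hd : d ∈ P)
    (h : P ≤ (Ideal.span {a, b, c, d}).radical) : P.height ≤ 4 := by
  classical
  have hle : Ideal.span {a, b, c, d} ≤ P := by
    rw [Ideal.span_le]
    intro x hx
    simp only [Set.mem_insert_iff, Set.mem_singleton_iff] at hx
    rcases hx with rfl | rfl | rfl | rfl <;> assumption
  have hm : P ∈ (Ideal.span ((({a, b, c, d} : Finset R)) : Set R)).minimalPrimes := by
    simp only [Finset.coe_insert, Finset.coe_singleton]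
    refine ⟨⟨hP, hle⟩, fun Q hQ _ => h.trans ?_⟩
    exact hQ.1.radical_le_iff.2 hQ.2
  refine (Ideal.height_le_card_of_mem_minimalPrimes_span_finset hm).trans ?_
  exact_mod_cast Finset.card_le_four

lemma four_le_height {R : Type} [CommRing R] (Q₀ Q₁ Q₂ Q₃ P : Ideal R) [Q₀.IsPrime] [Q₁.IsPrime]
    [Q₂.IsPrime] [Q₃.IsPrime] [P.IsPrime] (h₀ : Q₀ < Q₁) (h₁ : Q₁ < Q₂) (h₂ : Q₂ < Q₃)
    (h₃ : Q₃ < P) : 4 ≤ P.height := by
  have e₀ := Ideal.height_add_one_le_of_lt_of_isPrime h₀
  have e₁ := Ideal.height_add_one_le_of_lt_of_isPrime h₁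
  have e₂ := Ideal.height_add_one_le_of_lt_of_isPrime h₂
  have e₃ := Ideal.height_add_one_le_of_lt_of_isPrime h₃
  calc (4 : ℕ∞) = 0 + 1 + 1 + 1 + 1 := by norm_num
    _ ≤ Q₀.height + 1 + 1 + 1 + 1 := by gcongr; exact zero_le
    _ ≤ Q₁.height + 1 + 1 + 1 := by gcongr
    _ ≤ Q₂.height + 1 + 1 := by gcongr
    _ ≤ Q₃.height + 1 := by gcongr
    _ ≤ P.height := e₃

/-- (3a) Dimension four from a chain of primes below `P` and four elements with radical `P`. -/
theorem dim_four_loc {R : Type} [CommRing R] [IsNoetherianRing R] (Q₀ Q₁ Q₂ Q₃ P : Ideal R)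
    [Q₀.IsPrime] [Q₁.IsPrime] [Q₂.IsPrime] [Q₃.IsPrime] [P.IsPrime] (h₀ : Q₀ < Q₁)
    (h₁ : Q₁ < Q₂) (h₂ : Q₂ < Q₃) (h₃ : Q₃ < P)
    (a b c d : R) (ha : a ∈ P) (hb : b ∈ P) (hc : c ∈ P) (hd : d ∈ P)
    (h : P ≤ (Ideal.span {a, b, c, d}).radical) :
    ringKrullDim (Localization.AtPrime P) = 4 := by
  rw [IsLocalization.AtPrime.ringKrullDim_eq_height P,
    le_antisymm (height_le_four P a b c d ha hb hc hd h)
      (four_le_height Q₀ Q₁ Q₂ Q₃ P h₀ h₁ h₂ h₃)]
  rfl

/-- (3b) Dimension four from a chain of primes in the quotient by a nonzero element. -/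
theorem dim_four {A B : Type} [CommRing A] [IsDomain A] [IsLocalRing A] [IsNoetherianRing A]
    [CommRing B] (π : A →+* B) (hπ : Function.Surjective π) (f : A) (hf0 : f ≠ 0) (hf : π f = 0)
    (Q₀ Q₁ Q₂ Q₃ : Ideal B) [Q₀.IsPrime] [Q₁.IsPrime] [Q₂.IsPrime] [h3 : Q₃.IsPrime]
    (h₀ : Q₀ < Q₁) (h₁ : Q₁ < Q₂) (h₂ : Q₂ < Q₃) (a b c d : A)
    (ha : a ∈ IsLocalRing.maximalIdeal A) (hb : b ∈ IsLocalRing.maximalIdeal A)
    (hc : c ∈ IsLocalRing.maximalIdeal A) (hd : d ∈ IsLocalRing.maximalIdeal A)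
    (h : IsLocalRing.maximalIdeal A ≤ (Ideal.span {a, b, c, d}).radical) :
    ringKrullDim A = 4 := by
  have lt : ∀ I J : Ideal B, I < J → I.comap π < J.comap π := fun I J hIJ =>
    lt_of_le_of_ne (Ideal.comap_mono hIJ.le)
      (fun e => hIJ.ne (Ideal.comap_injective_of_surjective π hπ e))
  have hb0 : (⊥ : Ideal A) < Q₀.comap π := by
    rw [bot_lt_iff_ne_bot, Submodule.ne_bot_iff]
    exact ⟨f, by rw [Ideal.mem_comap, hf]; exact Q₀.zero_mem, hf0⟩
  have h4 := four_le_height ⊥ (Q₀.comap π) (Q₁.comap π) (Q₂.comap π) (Q₃.comap π) hb0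
    (lt _ _ h₀) (lt _ _ h₁) (lt _ _ h₂)
  have h5 : (Q₃.comap π).height ≤ (IsLocalRing.maximalIdeal A).height :=
    Ideal.height_mono (IsLocalRing.le_maximalIdeal (Ideal.IsPrime.ne_top inferInstance))
  rw [← IsLocalRing.maximalIdeal_height_eq_ringKrullDim,
    le_antisymm (height_le_four _ a b c d ha hb hc hd h) (h4.trans h5)]
  rfl

/-- Four elements suffice for the ideal generated by `f` and a rank one `2 × 2` matrix. -/
theorem rad_four {R : Type} [CommRing R] (f y₀₀ y₀₁ y₁₀ y₁₁ : R) (h : y₀₁ * y₁₀ = y₀₀ * y₁₁) :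
    (Ideal.span {f, y₀₀, y₀₁, y₁₀, y₁₁}).radical ≤
      (Ideal.span {f, y₀₀, y₀₁ + y₁₀, y₁₁}).radical := by
  rw [Ideal.radical_le_radical_iff, Ideal.span_le]
  have m₁ : f ∈ Ideal.span {f, y₀₀, y₀₁ + y₁₀, y₁₁} := Ideal.subset_span (by simp)
  have m₂ : y₀₀ ∈ Ideal.span {f, y₀₀, y₀₁ + y₁₀, y₁₁} := Ideal.subset_span (by simp)
  have m₃ : y₀₁ + y₁₀ ∈ Ideal.span {f, y₀₀, y₀₁ + y₁₀, y₁₁} := Ideal.subset_span (by simp)
  have m₄ : y₁₁ ∈ Ideal.span {f, y₀₀, y₀₁ + y₁₀, y₁₁} := Ideal.subset_span (by simp)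
  intro x hx
  simp only [Set.mem_insert_iff, Set.mem_singleton_iff] at hx
  rcases hx with rfl | rfl | rfl | rfl | rfl
  · exact Ideal.le_radical m₁
  · exact Ideal.le_radical m₂
  · refine ⟨2, ?_⟩
    rw [show x ^ 2 = x * (x + y₁₀) - y₁₁ * y₀₀ by linear_combination -h]
    exact sub_mem (Ideal.mul_mem_left _ _ m₃) (Ideal.mul_mem_left _ _ m₂)
  · refine ⟨2, ?_⟩
    rw [show x ^ 2 = x * (y₀₁ + x) - y₁₁ * y₀₀ by linear_combination -h]
    exact sub_mem (Ideal.mul_mem_left _ _ m₃) (Ideal.mul_mem_left _ _ m₂)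
  · exact Ideal.le_radical m₄

end Pool.Agent.Work.MP_34c70a_al.N
end
end

-- merged part: Pool.Agent.Work.MP_34c70a_al.N.Fin
section
/-!
The normal four dimensional counterexample.
-/

set_option autoImplicit false

noncomputable section

namespace Pool.Agent.Work.MP_34c70a_al.N

section loc

variable {A B : Type} [CommRing A] [CommRing B]

lemma loc_reg (P : Ideal A) [P.IsPrime] {f : A} (hf : ∀ x, f * x = 0 → x = 0)
    (x : Localization.AtPrime P) (h : algebraMap A _ f * x = 0) : x = 0 := by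
  obtain ⟨⟨a, s⟩, rfl⟩ := IsLocalization.mk'_surjective P.primeCompl x
  dsimp only at h ⊢
  rw [IsLocalization.mul_mk'_eq_mk'_of_mul, IsLocalization.mk'_eq_zero_iff] at h
  obtain ⟨m, hm⟩ := h
  exact (IsLocalization.mk'_eq_zero_iff _ _).2 ⟨m, hf _ (by linear_combination hm)⟩

lemma dim_loc [IsNoetherianRing A] [IsDomain B] (π : A →+* B) (hπ : Function.Surjective π) {f : A}
    (hf : π f = 0) (hr : ∀ x, f * x = 0 → x = 0) (Q₁ Q₂ q : Ideal B) [Q₁.IsPrime] [Q₂.IsPrime]
    [q.IsPrime] (h₁ : ⊥ < Q₁) (h₂ : Q₁ < Q₂) (h₃ : Q₂ < q) (P : Ideal A) [P.IsPrime]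
    (hP : P = q.comap π) [IsDomain (Localization.AtPrime P)] (a b c d : A) (ha : a ∈ P)
    (hb : b ∈ P) (hc : c ∈ P) (hd : d ∈ P) (h : P ≤ (Ideal.span {a, b, c, d}).radical) :
    ringKrullDim (Localization.AtPrime P) = 4 := by
  have lt : ∀ {I J : Ideal B}, I < J → I.comap π < J.comap π := fun h =>
    lt_of_le_of_ne (Ideal.comap_mono h.le) fun e =>
      h.ne (Ideal.comap_injective_of_surjective π hπ e)
  have := Ideal.isPrime_bot (α := B)
  have := Ideal.isPrime_bot (α := Localization.AtPrime P)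
  refine dim_four_loc ((⊥ : Ideal (Localization.AtPrime P)).comap (algebraMap A _))
    ((⊥ : Ideal B).comap π) (Q₁.comap π) (Q₂.comap π) P ?_ (lt h₁) (lt h₂) (hP ▸ lt h₃)
    a b c d ha hb hc hd h
  refine lt_of_le_of_ne (fun x hx => ?_) fun e => ?_
  · obtain ⟨m, hm⟩ := (IsLocalization.map_eq_zero_iff P.primeCompl _ x).1 hx
    have h0 : π m.1 * π x = 0 := by rw [← map_mul, hm, map_zero]
    refine (mul_eq_zero.1 h0).resolve_left fun h' => m.2 ?_
    exact hP.ge (show π m.1 ∈ q from h' ▸ zero_mem _)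
  · have : f ∈ (⊥ : Ideal (Localization.AtPrime P)).comap (algebraMap A _) := by
      rw [e]
      exact hf
    exact loc_ne_zero P f (fun x hx => hr x (by rw [mul_comm, hx])) this

end loc

variable (p : ℕ) [hp : Fact p.Prime]

instance : (qq p (id : Option Bool → Option Bool) none).IsPrime := qq_prime p

instance : (PP p).IsPrime := Ideal.IsPrime.comap _

instance {σ : Type} [Finite σ] (ι : Option Bool → σ) (o : Option σ) :
    IsNoetherianRing (RR p ι o) :=
  haveI := RR_ft p ι o
  Algebra.FiniteType.isNoetherianRing (K1 p) _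

theorem finj_S : FInjective p (Localization.AtPrime (qq p (id : Option Bool → Option Bool) none)) :=
  Cfg.finj_top (cfg_in p id none) _ hp.out (CharP.cast_eq_zero _ p) (cfg_un p _ _ (yy_mem p _ _))
    (Y := Set.range (yy p id none)) (by rintro _ ⟨k, rfl⟩; exact cfg_nil p _ _ k) (qq_rad p _ _)
    (inj_Q p) (inj_H p)

theorem nfinj_R : ¬ FInjective p (Localization.AtPrime (PP p)) := by
  obtain ⟨w, hw, h⟩ := xi_h2 p
  exact Cfg.nfinj_top (cfg_in p some (some none)) _ hp.out (CharP.cast_eq_zero _ p)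
    (cfg_un p _ _ (yy_mem_PP p)) (ff_mem p) (Y := Set.range (yy p some (some none)))
    (by rintro _ ⟨k, rfl⟩; exact cfg_nil p _ _ k) (PP_rad p) (xi_mem p _ _)
    (fun s hs n w _ h => xi_h1 p s hs n w ((sum_iff p _ _).1 h))
    ⟨2, w, hw, (sum_iff p _ _).2 h⟩

lemma RT_cast : (p : RT p) = 0 := Subtype.ext (by simp)

lemma RT_ft : (Int.castRingHom (RT p)).FiniteType := by
  have h1 := ft_int_of_zmod (R := K1 p) p
  have h2 : (algebraMap (K1 p) (RT p)).FiniteType :=
    RingHom.finiteType_algebraMap.2 (RR_ft p _ _)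
  rw [RingHom.ext_int (Int.castRingHom (RT p)) ((algebraMap (K1 p) (RT p)).comp
    (Int.castRingHom (K1 p)))]
  exact h2.comp h1

lemma PP_rad4 : PP p ≤ (Ideal.span {ff p, yy p some (some none) (false, false),
    yy p some (some none) (false, true) + yy p some (some none) (true, false),
    yy p some (some none) (true, true)}).radical := by
  refine (PP_rad p).trans (le_trans (Ideal.radical_mono (Ideal.span_mono ?_))
    (rad_four _ _ _ _ _ (yy_rel p _ _)))
  rintro _ (rfl | ⟨⟨_ | _, _ | _⟩, rfl⟩) <;> simp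

omit hp in
theorem main (hp : p.Prime) :
    ∃ (R S : Type) (_ : CommRing R) (_ : IsDomain R) (_ : IsIntegrallyClosed R) (_ : IsLocalRing R)
      (_ : IsNoetherianRing R) (_ : CharP R p) (_ : CommRing S) (_ : IsDomain S)
      (_ : IsIntegrallyClosed S) (_ : IsLocalRing S)
      (f : R) (π : R →+* S), ringKrullDim R = 4 ∧
      (∀ F : R →+* R, (∀ x, F x = x ^ p) → F.Finite) ∧
      f ∈ IsLocalRing.maximalIdeal R ∧ f ≠ 0 ∧ Function.Surjective π ∧
      RingHom.ker π = Ideal.span {f} ∧ FInjective p S ∧ ¬ FInjective p R := by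
  have : Fact p.Prime := ⟨hp⟩
  have := SS_normal p
  obtain ⟨Q₁, Q₂, i₁, i₂, h₁, h₂, h₃⟩ := SS_chain p
  let q := qq p (id : Option Bool → Option Bool) none
  have hq : q.primeCompl ≤ nonZeroDivisors (SS p) := q.primeCompl_le_nonZeroDivisors
  have dS : IsDomain (Localization.AtPrime q) := IsLocalization.isDomain_localization hq
  have nS : IsIntegrallyClosed (Localization.AtPrime q) :=
    isIntegrallyClosed_of_isLocalization _ _ hq
  have hs := loc_surj (piR p) (PP p) q rfl (piR_surj p)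
  have hk := loc_ker (piR p) (PP p) q rfl (piR_surj p) (ff p) (piR_ker p)
  have hm := loc_mem (piR p) (PP p) q rfl (ff p) (piR_ff p)
  have h0 := loc_ne_zero (PP p) (ff p) (fun x hx => ff_reg p x (by rw [mul_comm, hx]))
  have dR : IsDomain (Localization.AtPrime (PP p)) :=
    domain_of_quot _ hk hm (loc_reg (PP p) (ff_reg p))
  have cR : CharP (RT p) p := (CharP.charP_iff_prime_eq_zero hp).2 (RT_cast p)
  refine ⟨Localization.AtPrime (PP p), Localization.AtPrime q, inferInstance, dR,
    normal_of_quot _ hs hk hm h0, inferInstance, inferInstance, charP_loc hp (RT_cast p) _,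
    inferInstance, dS, nS, inferInstance, _, _, ?_, ?_, hm, h0, hs, hk, finj_S p, nfinj_R p⟩
  · exact dim_loc (piR p) (piR_surj p) (piR_ff p) (ff_reg p) Q₁ Q₂ q h₁ h₂ h₃ (PP p) rfl _ _ _ _
      (ff_mem p) (yy_mem_PP p _) (add_mem (yy_mem_PP p _) (yy_mem_PP p _)) (yy_mem_PP p _)
      (PP_rad4 p)
  · exact frob_finite_of_loc (PP p).primeCompl hp.pos (frobenius (RT p) p) (fun _ => rfl)
      (frob_finite_ft hp.pos (RT_ft p) _ (fun _ => rfl))

end Pool.Agent.Work.MP_34c70a_al.N
end
end
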