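import Pool.Agent.Work.MP_34c70a_al.N.HA1
import Pool.Agent.Work.MP_34c70a_al.GAbstract

/-! The complex of four subrings. -/

set_option autoImplicit false

open CategoryTheory Pool.Agent.Lib.LocalCoh

noncomputable section

namespace Pool.Agent.Work.MP_34c70a_al.N

/-- Four subrings of `O` whose intersection is `R`. -/
structure Cfg (R O : Type) [CommRing R] [CommRing O] where
  ρ : R →+* O
  A1 : Subring O
  A2 : Subring O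
  B1 : Subring O
  B2 : Subring O
  inj : Function.Injective ρ
  mem : ∀ x, (x ∈ A1 ∧ x ∈ A2 ∧ x ∈ B1 ∧ x ∈ B2) ↔ ∃ r, ρ r = x

namespace Cfg

variable {R O : Type} [CommRing R] [CommRing O] (c : Cfg R O)

/-- The sum of the four subrings. -/
def Sum (x : O) : Prop :=
  ∃ a1 ∈ c.A1, ∃ a2 ∈ c.A2, ∃ b1 ∈ c.B1, ∃ b2 ∈ c.B2, x = a1 + a2 + b1 + b2

/-- Cocycles. -/
def Coc (a1 a2 b1 b2 : O) : Prop :=
  a1 ∈ c.A1 ∧ a2 ∈ c.A2 ∧ b1 ∈ c.B1 ∧ b2 ∈ c.B2 ∧ a1 - a2 = b1 - b2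

/-- Coboundaries. -/
def Cob (a1 a2 b1 b2 : O) : Prop :=
  ∃ x11 x12 x21 x22 : O, (x11 ∈ c.A1 ∧ x11 ∈ c.B1) ∧ (x12 ∈ c.A1 ∧ x12 ∈ c.B2) ∧
    (x21 ∈ c.A2 ∧ x21 ∈ c.B1) ∧ (x22 ∈ c.A2 ∧ x22 ∈ c.B2) ∧
    a1 = x11 - x12 ∧ a2 = x21 - x22 ∧ b1 = x11 - x21 ∧ b2 = x12 - x22

/-- Some element of `q` has an inverse in both subrings. -/
def Un1 (q : Ideal R) (S T : Subring O) : Prop := ∃ r ∈ q, ∃ w, w ∈ S ∧ w ∈ T ∧ c.ρ r * w = 1

/-- Each chart inverts an element of `q`. -/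
def Un (q : Ideal R) : Prop :=
  c.Un1 q c.A1 c.B1 ∧ c.Un1 q c.A1 c.B2 ∧ c.Un1 q c.A2 c.B1 ∧ c.Un1 q c.A2 c.B2

/-- The element `r` acts nilpotently on both cohomology modules. -/
def Nil (r : R) : Prop :=
  (∀ x, ∃ n : ℕ, c.Sum (c.ρ r ^ n * x)) ∧ ∀ a1 a2 b1 b2, c.Coc a1 a2 b1 b2 →
    ∃ n : ℕ, c.Cob (c.ρ r ^ n * a1) (c.ρ r ^ n * a2) (c.ρ r ^ n * b1) (c.ρ r ^ n * b2)

lemma m1 (r : R) : c.ρ r ∈ c.A1 := ((c.mem _).2 ⟨r, rfl⟩).1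
lemma m2 (r : R) : c.ρ r ∈ c.A2 := ((c.mem _).2 ⟨r, rfl⟩).2.1
lemma m3 (r : R) : c.ρ r ∈ c.B1 := ((c.mem _).2 ⟨r, rfl⟩).2.2.1
lemma m4 (r : R) : c.ρ r ∈ c.B2 := ((c.mem _).2 ⟨r, rfl⟩).2.2.2

variable {c}

lemma Sum.mul {x : O} (h : c.Sum x) (r : R) : c.Sum (c.ρ r * x) := by
  obtain ⟨a1, h1, a2, h2, b1, h3, b2, h4, rfl⟩ := h
  exact ⟨_, mul_mem (c.m1 r) h1, _, mul_mem (c.m2 r) h2, _, mul_mem (c.m3 r) h3, _,
    mul_mem (c.m4 r) h4, by ring⟩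

lemma Sum.add {x y : O} (h : c.Sum x) (h' : c.Sum y) : c.Sum (x + y) := by
  obtain ⟨a1, h1, a2, h2, b1, h3, b2, h4, rfl⟩ := h
  obtain ⟨a1', k1, a2', k2, b1', k3, b2', k4, rfl⟩ := h'
  exact ⟨_, add_mem h1 k1, _, add_mem h2 k2, _, add_mem h3 k3, _, add_mem h4 k4, by ring⟩

lemma Sum.zero : c.Sum 0 := ⟨0, zero_mem _, 0, zero_mem _, 0, zero_mem _, 0, zero_mem _, by ring⟩

lemma Coc.mul {a1 a2 b1 b2 : O} (h : c.Coc a1 a2 b1 b2) (r : R) :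
    c.Coc (c.ρ r * a1) (c.ρ r * a2) (c.ρ r * b1) (c.ρ r * b2) :=
  ⟨mul_mem (c.m1 r) h.1, mul_mem (c.m2 r) h.2.1, mul_mem (c.m3 r) h.2.2.1,
    mul_mem (c.m4 r) h.2.2.2.1, by linear_combination c.ρ r * h.2.2.2.2⟩

lemma Cob.mul {a1 a2 b1 b2 : O} (h : c.Cob a1 a2 b1 b2) (r : R) :
    c.Cob (c.ρ r * a1) (c.ρ r * a2) (c.ρ r * b1) (c.ρ r * b2) := by
  obtain ⟨x, y, z, w, h1, h2, h3, h4, rfl, rfl, rfl, rfl⟩ := h
  exact ⟨_, _, _, _, ⟨mul_mem (c.m1 r) h1.1, mul_mem (c.m3 r) h1.2⟩,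
    ⟨mul_mem (c.m1 r) h2.1, mul_mem (c.m4 r) h2.2⟩, ⟨mul_mem (c.m2 r) h3.1, mul_mem (c.m3 r) h3.2⟩,
    ⟨mul_mem (c.m2 r) h4.1, mul_mem (c.m4 r) h4.2⟩, by ring, by ring, by ring, by ring⟩

lemma Cob.add {a1 a2 b1 b2 a1' a2' b1' b2' : O} (h : c.Cob a1 a2 b1 b2)
    (h' : c.Cob a1' a2' b1' b2') : c.Cob (a1 + a1') (a2 + a2') (b1 + b1') (b2 + b2') := by
  obtain ⟨x, y, z, w, h1, h2, h3, h4, rfl, rfl, rfl, rfl⟩ := h
  obtain ⟨x', y', z', w', k1, k2, k3, k4, rfl, rfl, rfl, rfl⟩ := h'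
  exact ⟨_, _, _, _, ⟨add_mem h1.1 k1.1, add_mem h1.2 k1.2⟩, ⟨add_mem h2.1 k2.1, add_mem h2.2 k2.2⟩,
    ⟨add_mem h3.1 k3.1, add_mem h3.2 k3.2⟩, ⟨add_mem h4.1 k4.1, add_mem h4.2 k4.2⟩,
    by ring, by ring, by ring, by ring⟩

/-- A property of multipliers that is stable under the ideal operations. -/
lemma nil_aux {P : R → Prop} (hm : ∀ r s, P s → P (r * s)) (ha : ∀ r s, P r → P s → P (r + s))
    (h1 : P 0) {Y : Set R} (hY : ∀ y ∈ Y, ∃ n : ℕ, P (y ^ n)) {r : R}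
    (hr : r ∈ (Ideal.span Y).radical) : ∃ n : ℕ, P (r ^ n) := by
  let I : Ideal R :=
    { carrier := {s | P s}
      add_mem' := ha _ _
      zero_mem' := h1
      smul_mem' := fun r s => hm r s }
  have h : Ideal.span Y ≤ I.radical := Ideal.span_le.2 hY
  exact (Ideal.radical_le_radical_iff.2 h) hr

lemma Nil.rad {Y : Set R} (hY : ∀ y ∈ Y, c.Nil y) {r : R} (hr : r ∈ (Ideal.span Y).radical) :
    c.Nil r := by
  refine ⟨fun x => ?_, fun a1 a2 b1 b2 h => ?_⟩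
  · simpa only [map_pow] using nil_aux (P := fun s => c.Sum (c.ρ s * x))
      (fun r s h => by simpa only [map_mul, mul_assoc] using h.mul r)
      (fun r s h h' => by simpa only [map_add, add_mul] using h.add h')
      (by simpa only [map_zero, zero_mul] using Sum.zero)
      (fun y hy => by simpa only [map_pow] using (hY y hy).1 x) hr
  · simpa only [map_pow] using nil_aux
      (P := fun s => c.Cob (c.ρ s * a1) (c.ρ s * a2) (c.ρ s * b1) (c.ρ s * b2))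
      (fun r s h => by simpa only [map_mul, mul_assoc] using h.mul r)
      (fun r s h h' => by simpa only [map_add, add_mul] using h.add h')
      ⟨0, 0, 0, 0, by simp⟩
      (fun y hy => by simpa only [map_pow] using (hY y hy).2 _ _ _ _ h) hr

variable (c) (F : R →+* R)

/-- A subring as a module. -/
def sm (S : Subring O) (h : ∀ r, c.ρ r ∈ S) : Submodule R (Md (c.ρ.comp F)) where
  carrier := {x | (x : O) ∈ S}
  add_mem' := S.add_mem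
  zero_mem' := S.zero_mem
  smul_mem' := fun r _ hx => S.mul_mem (h (F r)) hx

/-- The four modules. -/
abbrev a1 := c.sm F c.A1 c.m1
abbrev a2 := c.sm F c.A2 c.m2
abbrev b1 := c.sm F c.B1 c.m3
abbrev b2 := c.sm F c.B2 c.m4

/-- The complex. -/
def cx : Cx R where
  M := Md F
  C0 := ModuleCat.of R (↥(c.a1 F ⊓ c.b1 F) × ↥(c.a1 F ⊓ c.b2 F) × ↥(c.a2 F ⊓ c.b1 F) ×
    ↥(c.a2 F ⊓ c.b2 F))
  C1 := ModuleCat.of R (c.a1 F × c.a2 F × c.b1 F × c.b2 F)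
  C2 := Md (c.ρ.comp F)
  ι := ModuleCat.ofHom (X := Md F)
    { toFun := fun r => (⟨c.ρ r, c.m1 r, c.m3 r⟩, ⟨c.ρ r, c.m1 r, c.m4 r⟩,
        ⟨c.ρ r, c.m2 r, c.m3 r⟩, ⟨c.ρ r, c.m2 r, c.m4 r⟩)
      map_add' := fun x y => by
        refine Prod.ext ?_ (Prod.ext ?_ (Prod.ext ?_ ?_)) <;> exact Subtype.ext (c.ρ.map_add x y)
      map_smul' := fun r x => by
        refine Prod.ext ?_ (Prod.ext ?_ (Prod.ext ?_ ?_)) <;>
          exact Subtype.ext (c.ρ.map_mul (F r) x) }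
  d0 := ModuleCat.ofHom
    { toFun := fun x => (⟨x.1.1 - x.2.1.1, sub_mem x.1.2.1 x.2.1.2.1⟩,
        ⟨x.2.2.1.1 - x.2.2.2.1, sub_mem x.2.2.1.2.1 x.2.2.2.2.1⟩,
        ⟨x.1.1 - x.2.2.1.1, sub_mem x.1.2.2 x.2.2.1.2.2⟩,
        ⟨x.2.1.1 - x.2.2.2.1, sub_mem x.2.1.2.2 x.2.2.2.2.2⟩)
      map_add' := fun x y => by
        refine Prod.ext ?_ (Prod.ext ?_ (Prod.ext ?_ ?_)) <;>
          exact Subtype.ext (add_sub_add_comm _ _ _ _)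
      map_smul' := fun r x => by
        refine Prod.ext ?_ (Prod.ext ?_ (Prod.ext ?_ ?_)) <;>
          exact Subtype.ext (smul_sub r _ _).symm }
  d1 := ModuleCat.ofHom (Y := Md (c.ρ.comp F))
    { toFun := fun x => (x.1.1 - x.2.1.1) - (x.2.2.1.1 - x.2.2.2.1)
      map_add' := fun x y => by
        simp only [Prod.fst_add, Prod.snd_add, Submodule.coe_add]
        abel
      map_smul' := fun r x => by
        exact ((smul_sub r _ _).trans (congrArg₂ _ (smul_sub r _ _) (smul_sub r _ _))).symm }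
  inj := fun x y h => c.inj (congrArg (fun z => z.1.1) h)
  ex := fun x => by
    constructor
    · intro h
      have e1 : x.1.1 = x.2.1.1 := sub_eq_zero.1 (congrArg (fun z => z.1.1) h)
      have e3 : x.1.1 = x.2.2.1.1 := sub_eq_zero.1 (congrArg (fun z => z.2.2.1.1) h)
      have e4 : x.2.1.1 = x.2.2.2.1 := sub_eq_zero.1 (congrArg (fun z => z.2.2.2.1) h)
      obtain ⟨r, hr⟩ := (c.mem x.1.1).1 ⟨x.1.2.1, e3 ▸ x.2.2.1.2.1, x.1.2.2, e1 ▸ x.2.1.2.2⟩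
      exact ⟨r, Prod.ext (Subtype.ext hr) (Prod.ext (Subtype.ext (hr.trans e1))
        (Prod.ext (Subtype.ext (hr.trans e3)) (Subtype.ext (hr.trans (e1.trans e4)))))⟩
    · rintro ⟨r, rfl⟩
      refine Prod.ext ?_ (Prod.ext ?_ (Prod.ext ?_ ?_)) <;> exact Subtype.ext (sub_self _)
  dd := fun x => by
    change ((x.1.1 - x.2.1.1) - (x.2.2.1.1 - x.2.2.2.1)) -
      ((x.1.1 - x.2.2.1.1) - (x.2.1.1 - x.2.2.2.1)) = 0
    abel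

lemma d1_range (y : O) : (∃ x, (c.cx F).d1.hom x = y) ↔ c.Sum y := by
  constructor
  · rintro ⟨x, rfl⟩
    refine ⟨x.1.1, x.1.2, -x.2.1.1, neg_mem x.2.1.2, -x.2.2.1.1, neg_mem x.2.2.1.2, x.2.2.2.1,
      x.2.2.2.2, ?_⟩
    change ((x.1.1 - x.2.1.1) - (x.2.2.1.1 - x.2.2.2.1) : O) = _
    abel
  · rintro ⟨a1, h1, a2, h2, b1, h3, b2, h4, rfl⟩
    refine ⟨(⟨a1, h1⟩, ⟨-a2, c.A2.neg_mem h2⟩, ⟨-b1, c.B1.neg_mem h3⟩, ⟨b2, h4⟩), ?_⟩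
    change (a1 - -a2) - (-b1 - b2) = _
    ring

lemma d1_ker (z : (c.cx F).C1) (h : (c.cx F).d1.hom z = 0) :
    c.Coc z.1.1 z.2.1.1 z.2.2.1.1 z.2.2.2.1 :=
  ⟨z.1.2, z.2.1.2, z.2.2.1.2, z.2.2.2.2, sub_eq_zero.1 h⟩

lemma d0_range (z : (c.cx F).C1) :
    (∃ x, (c.cx F).d0.hom x = z) ↔ c.Cob z.1.1 z.2.1.1 z.2.2.1.1 z.2.2.2.1 := by
  constructor
  · rintro ⟨x, rfl⟩
    exact ⟨x.1.1, x.2.1.1, x.2.2.1.1, x.2.2.2.1, x.1.2, x.2.1.2, x.2.2.1.2, x.2.2.2.2, rfl, rfl,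
      rfl, rfl⟩
  · rintro ⟨x, y, u, w, h1, h2, h3, h4, e1, e2, e3, e4⟩
    exact ⟨(⟨x, h1⟩, ⟨y, h2⟩, ⟨u, h3⟩, ⟨w, h4⟩), Prod.ext (Subtype.ext e1.symm)
      (Prod.ext (Subtype.ext e2.symm) (Prod.ext (Subtype.ext e3.symm) (Subtype.ext e4.symm)))⟩

lemma nil_cx {r : R} (h : c.Nil (F r)) : (c.cx F).Nil r := by
  refine ⟨fun y => ?_, fun z hz => ?_⟩
  · obtain ⟨n, hn⟩ := h.1 y
    refine ⟨n, (c.d1_range F _).2 ?_⟩
    rw [← map_pow, ← map_pow] at hn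
    exact hn
  · obtain ⟨n, hn⟩ := h.2 _ _ _ _ (c.d1_ker F z hz)
    refine ⟨n, (c.d0_range F _).2 ?_⟩
    rw [← map_pow, ← map_pow] at hn
    exact hn

lemma un_inv {J : Ideal R} {k : ℕ} (hF : ∀ x, F x = x ^ k) {S T : Subring O} (h : c.Un1 J S T) :
    ∃ r ∈ J, ∃ w, w ∈ S ∧ w ∈ T ∧ (∀ x, c.ρ (F r) * (w * x) = x) ∧
      ∀ x, w * (c.ρ (F r) * x) = x := by
  obtain ⟨r, hr, w, h1, h2, e⟩ := h
  have e' : c.ρ (F r) * w ^ k = 1 := by rw [hF, map_pow, ← mul_pow, e, one_pow]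
  exact ⟨r, hr, _, pow_mem h1 k, pow_mem h2 k, fun x => by linear_combination x * e',
    fun x => by linear_combination x * e'⟩

lemma acy_sm {J : Ideal R} {k : ℕ} (hF : ∀ x, F x = x ^ k) {S T : Subring O} (h : c.Un1 J S T)
    (N : Submodule R (Md (c.ρ.comp F)))
    (hN : ∀ w, w ∈ S → w ∈ T → ∀ x : O, x ∈ N → w * x ∈ N) : Acy J (ModuleCat.of R N) := by
  obtain ⟨r, hr, w, h1, h2, k1, k2⟩ := c.un_inv F hF h
  exact acy_unit J hr (Function.bijective_iff_has_inverse.2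
    ⟨fun y => ⟨_, hN w h1 h2 y.1 y.2⟩, fun y => Subtype.ext (k2 y.1),
      fun y => Subtype.ext (k1 y.1)⟩)

lemma ac_cx {J : Ideal R} {k : ℕ} (hF : ∀ x, F x = x ^ k) (h : c.Un J) : (c.cx F).Ac J := by
  refine ⟨acy_prod J ?_ (acy_prod J ?_ (acy_prod J ?_ ?_)),
    acy_prod J ?_ (acy_prod J ?_ (acy_prod J ?_ ?_)), fun i => ?_⟩
  · exact c.acy_sm F hF h.1 _ fun w h1 h2 x hx => ⟨c.A1.mul_mem h1 hx.1, c.B1.mul_mem h2 hx.2⟩
  · exact c.acy_sm F hF h.2.1 _ fun w h1 h2 x hx => ⟨c.A1.mul_mem h1 hx.1, c.B2.mul_mem h2 hx.2⟩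
  · exact c.acy_sm F hF h.2.2.1 _ fun w h1 h2 x hx => ⟨c.A2.mul_mem h1 hx.1, c.B1.mul_mem h2 hx.2⟩
  · exact c.acy_sm F hF h.2.2.2 _ fun w h1 h2 x hx => ⟨c.A2.mul_mem h1 hx.1, c.B2.mul_mem h2 hx.2⟩
  · exact c.acy_sm F hF h.1 _ fun w h1 _ x hx => c.A1.mul_mem h1 hx
  · exact c.acy_sm F hF h.2.2.1 _ fun w h1 _ x hx => c.A2.mul_mem h1 hx
  · exact c.acy_sm F hF h.1 _ fun w _ h2 x hx => c.B1.mul_mem h2 hx
  · exact c.acy_sm F hF h.2.1 _ fun w _ h2 x hx => c.B2.mul_mem h2 hx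
  · obtain ⟨r, hr, w, -, -, k1, k2⟩ := c.un_inv F hF h.1
    have : Function.Bijective fun y : O => c.ρ (F r) * y :=
      Function.bijective_iff_has_inverse.2 ⟨fun y => w * y, k2, k1⟩
    exact acy_unit J hr (M := Md (c.ρ.comp F)) this i

variable {p : ℕ} (hp : p.Prime) (h0 : (p : O) = 0) (hF : ∀ x, F x = x ^ p)

/-- The power map on submodules. -/
def pw (N : Submodule R (Md (c.ρ.comp (RingHom.id R)))) (N' : Submodule R (Md (c.ρ.comp F)))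
    (h : ∀ x : O, x ∈ N → x ^ p ∈ N') : N →ₗ[R] N' where
  toFun x := ⟨_, h x.1 x.2⟩
  map_add' x y := Subtype.ext (add_pow_p (C := O) hp h0 x.1 y.1)
  map_smul' r x := Subtype.ext (by
    have : ∀ y : O, (c.ρ r * y) ^ p = c.ρ (F r) * y ^ p := fun y => by rw [hF, map_pow, mul_pow]
    exact this x.1)

/-- Frobenius as a map of complexes. -/
def fr (φ : ModuleCat.of R R ⟶ (ModuleCat.restrictScalars F).obj (ModuleCat.of R R))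
    (hφ : ∀ x : R, φ.hom x = F x) : (c.cx (RingHom.id R)).Hom (c.cx F) where
  φ := φ
  φ0 := ModuleCat.ofHom
    ((c.pw F hp h0 hF (c.a1 _ ⊓ c.b1 _) (c.a1 F ⊓ c.b1 F) fun _ hx =>
      ⟨c.A1.pow_mem hx.1 p, c.B1.pow_mem hx.2 p⟩).prodMap
      ((c.pw F hp h0 hF (c.a1 _ ⊓ c.b2 _) (c.a1 F ⊓ c.b2 F) fun _ hx =>
      ⟨c.A1.pow_mem hx.1 p, c.B2.pow_mem hx.2 p⟩).prodMap
        ((c.pw F hp h0 hF (c.a2 _ ⊓ c.b1 _) (c.a2 F ⊓ c.b1 F) fun _ hx =>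
      ⟨c.A2.pow_mem hx.1 p, c.B1.pow_mem hx.2 p⟩).prodMap
          (c.pw F hp h0 hF (c.a2 _ ⊓ c.b2 _) (c.a2 F ⊓ c.b2 F) fun _ hx =>
      ⟨c.A2.pow_mem hx.1 p, c.B2.pow_mem hx.2 p⟩))))
  φ1 := ModuleCat.ofHom
    ((c.pw F hp h0 hF _ _ fun _ hx => c.A1.pow_mem hx p).prodMap
      ((c.pw F hp h0 hF _ _ fun _ hx => c.A2.pow_mem hx p).prodMap
        ((c.pw F hp h0 hF _ _ fun _ hx => c.B1.pow_mem hx p).prodMap
          (c.pw F hp h0 hF _ _ fun _ hx => c.B2.pow_mem hx p))))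
  φ2 := mkH _ _ (pwH hp h0) fun r y => by
    change (c.ρ r * y) ^ p = c.ρ (F r) * y ^ p
    rw [hF, map_pow, mul_pow]
  s := by
    apply ModuleCat.hom_ext
    apply LinearMap.ext
    intro x
    have : c.ρ (φ.hom x) = c.ρ x ^ p := by rw [hφ, hF, map_pow]
    refine Prod.ext ?_ (Prod.ext ?_ (Prod.ext ?_ ?_)) <;> exact Subtype.ext this
  s0 := by
    apply ModuleCat.hom_ext
    apply LinearMap.ext
    intro x
    refine Prod.ext ?_ (Prod.ext ?_ (Prod.ext ?_ ?_)) <;>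
      exact Subtype.ext (sub_pow_p (C := O) hp h0 _ _).symm
  s1 := by
    apply ModuleCat.hom_ext
    apply LinearMap.ext
    intro x
    exact ((sub_pow_p (C := O) hp h0 _ _).trans
      (congrArg₂ _ (sub_pow_p (C := O) hp h0 _ _) (sub_pow_p (C := O) hp h0 _ _))).symm

lemma Nil.pow {c : Cfg R O} {r : R} (h : c.Nil r) {k : ℕ} (hk : k ≠ 0) : c.Nil (r ^ k) :=
  Nil.rad (Y := {r}) (fun _ hy => hy ▸ h)
    (Ideal.le_radical (Ideal.pow_mem_of_mem _ (Ideal.mem_span_singleton_self r) k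
      (Nat.pos_of_ne_zero hk)))

variable [IsNoetherianRing R]

include hp h0 hF in
theorem finj {J : Ideal R} (hu : c.Un J) (hn : ∀ r ∈ J, c.Nil r)
    (iQ : ∀ x, c.Sum (x ^ p) → c.Sum x)
    (iH : ∀ a1 a2 b1 b2, c.Coc a1 a2 b1 b2 → c.Cob (a1 ^ p) (a2 ^ p) (b1 ^ p) (b2 ^ p) →
      c.Cob a1 a2 b1 b2)
    (φ : ModuleCat.of R R ⟶ (ModuleCat.restrictScalars F).obj (ModuleCat.of R R))
    (hφ : ∀ x : R, φ.hom x = F x) (i : ℕ) : Inj J i φ :=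
  (c.fr F hp h0 hF φ hφ).inj_all J (c.ac_cx _ (k := 1) (fun x => (pow_one x).symm) hu)
    (c.ac_cx F hF hu) (fun r hr => c.nil_cx _ (hn r hr))
    (fun z hz h => (c.d0_range _ z).2 (iH _ _ _ _ (c.d1_ker _ z hz) ((c.d0_range F _).1 h)))
    (fun y h => (c.d1_range _ y).2 (iQ y ((c.d1_range F _).1 h))) i

include hp h0 hF in
theorem nfinj {J : Ideal R} (hu : c.Un J) {f : R} (hf : f ∈ J)
    (hn : ∀ r ∈ J, ∃ (k : ℕ) (a : R), c.Nil (r ^ k - a * f)) (ξ : O)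
    (h1 : ∀ (n : ℕ) (w : O), ¬ c.Sum (c.ρ f ^ n * (ξ - c.ρ f * w)))
    (h2 : ∃ (n : ℕ) (w : O), c.Sum (c.ρ f ^ n * (ξ ^ p - c.ρ f ^ p * w)))
    (φ : ModuleCat.of R R ⟶ (ModuleCat.restrictScalars F).obj (ModuleCat.of R R))
    (hφ : ∀ x : R, φ.hom x = F x) : ¬ Inj J 4 φ := by
  refine (c.fr F hp h0 hF φ hφ).not_inj J (c.ac_cx _ (k := 1) (fun x => (pow_one x).symm) hu) hf
    (fun r hr => ?_) ξ (fun n w x hx => h1 n w ?_) ?_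
  · obtain ⟨k, a, h⟩ := hn r hr
    exact ⟨k, a, c.nil_cx _ h, c.nil_cx F (hF _ ▸ h.pow hp.ne_zero)⟩
  · rw [← map_pow]
    exact (c.d1_range _ _).1 ⟨x, hx⟩
  · obtain ⟨n, w, h⟩ := h2
    refine ⟨n, w, (c.d1_range F _).2 ?_⟩
    have e : c.ρ (F (f ^ n)) * (ξ ^ p - c.ρ (F f) * w) =
        c.ρ (f ^ (n * (p - 1))) * (c.ρ f ^ n * (ξ ^ p - c.ρ f ^ p * w)) := by
      rw [hF, hF, map_pow, map_pow, map_pow, map_pow, ← mul_assoc, ← pow_add, ← pow_mul,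
        ← Nat.mul_succ, Nat.succ_eq_add_one, Nat.sub_add_cancel hp.pos]
    have := h.mul (f ^ (n * (p - 1)))
    rw [← e] at this
    exact this

end Cfg

end Pool.Agent.Work.MP_34c70a_al.N
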