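import Pool.Agent.Lib.LocalCoh.Steps

/-! Local cohomology of a module with a complex of acyclic modules of length two. -/

set_option autoImplicit false

open CategoryTheory Pool.Agent.Lib.LocalCoh

noncomputable section

namespace Pool.Agent.Work.MP_34c70a_al.N

variable {A : Type} [CommRing A] (J : Ideal A)

/-- All local cohomology vanishes. -/
def Acy (M : ModuleCat.{0} A) : Prop := ∀ i, Van J i M

lemma acy_unit {r : A} (hr : r ∈ J) {M : ModuleCat.{0} A}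
    (h : Function.Bijective fun m : M => r • m) : Acy J M := by
  intro i x
  let e : M ≃ₗ[A] M := LinearEquiv.ofBijective (r • LinearMap.id) h
  let g : M ⟶ M := ModuleCat.ofHom e.symm.toLinearMap
  have hg : (r • 𝟙 M) ≫ g = 𝟙 M := by
    apply ModuleCat.hom_ext
    apply LinearMap.ext
    intro m
    exact e.symm_apply_apply m
  refine eq_zero_of_socle J hr ⊤ (fun y _ hy => ?_) x trivial
  rw [← Hmap_id J i M y, ← hg, Hmap_comp, Hmap_sm, hy, map_zero]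

section se

variable {S T : ShortComplex (ModuleCat.{0} A)} (hS : S.ShortExact) (hT : T.ShortExact)
  (τ : S ⟶ T)

include hS in
lemma van_mid {i : ℕ} (h₁ : Van J i S.X₁) (h₃ : Van J i S.X₃) : Van J i S.X₂ := by
  intro x
  obtain ⟨z, rfl⟩ := exact₂ J hS i x (h₃ _)
  rw [h₁ z, map_zero]

include hS in
lemma van_sub {i : ℕ} (h₃ : Van J i S.X₃) (h₂ : Van J (i + 1) S.X₂) : Van J (i + 1) S.X₁ :=
  van_of_inj J (inj_sub J hS h₃) h₂

include hS hT in
lemma inj_quot {i : ℕ} (h₁ : Van J (i + 1) S.X₁) (h₁' : Van J i T.X₁) (h₂ : Inj J i τ.τ₂) :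
    Inj J i τ.τ₃ := by
  rw [inj_iff] at h₂ ⊢
  intro z hz
  obtain ⟨y, rfl⟩ := exact₃ J hS i z (h₁ _)
  rw [← Hmap_sq J i τ.comm₂₃] at hz
  obtain ⟨x, hx⟩ := exact₂ J hT i _ hz
  rw [h₁' x, map_zero] at hx
  rw [h₂ y hx.symm, map_zero]

end se

lemma acy_prod {M N : Type} [AddCommGroup M] [Module A M] [AddCommGroup N] [Module A N]
    (hM : Acy J (ModuleCat.of A M)) (hN : Acy J (ModuleCat.of A N)) :
    Acy J (ModuleCat.of A (M × N)) := fun i =>
  van_mid J (mkSE (M₁ := ModuleCat.of A M) (M₂ := ModuleCat.of A (M × N))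
    (M₃ := ModuleCat.of A N) (ModuleCat.ofHom (LinearMap.inl A M N))
    (ModuleCat.ofHom (LinearMap.snd A M N)) (by ext; rfl) LinearMap.inl_injective
    LinearMap.snd_surjective fun y hy => ⟨y.1, Prod.ext rfl (Eq.symm hy)⟩) (hM i) (hN i)

lemma van0_sub {M N : ModuleCat.{0} A} (f : M ⟶ N) (hf : Function.Injective f.hom)
    (h : Van J 0 N) : Van J 0 M := van_of_inj J (H0_inj J f hf) h

lemma inj0_elt {M N : ModuleCat.{0} A} (g : M ⟶ N) (hg : Inj J 0 g) (m : M)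
    (hm : ∃ t : ℕ, ∀ r ∈ J ^ t, r • m = 0) (h0 : g.hom m = 0) : m = 0 := by
  obtain ⟨t, ht⟩ := hm
  obtain ⟨k, hk⟩ := exists_Qt_hom J (Opposite.op (Opposite.op t)) m ht
  have h1 : k ≫ g = 0 := Qt_ext J _ _ _ (by
    change g.hom (k.hom _) = 0
    rw [hk, h0])
  have h2 := cls_map J _ k g
  rw [h1, cls_zero] at h2
  rw [← hk]
  exact cls_eq_zero J _ k ((inj_iff J 0 g).1 hg _ h2)

/-- Every element is killed by a power of `r`. -/
def Tor (r : A) (M : Type) [AddCommGroup M] [Module A M] : Prop := ∀ m : M, ∃ n : ℕ, r ^ n • m = 0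

/-- Up to a multiple of `f` a power of each element of `J` acts nilpotently. -/
def TorF (f : A) (M : Type) [AddCommGroup M] [Module A M] : Prop :=
  ∀ r ∈ J, ∃ (k : ℕ) (c : A), Tor (r ^ k - c * f) M

/-- The elements killed by a power of `f`. -/
def Tf (f : A) (M : Type) [AddCommGroup M] [Module A M] : Submodule A M where
  carrier := {m | ∃ n : ℕ, f ^ n • m = 0}
  add_mem' := by
    rintro a b ⟨s, hs⟩ ⟨t, ht⟩
    refine ⟨s + t, ?_⟩
    rw [smul_add, pow_add, mul_smul, mul_smul, ht, smul_comm, hs, smul_zero, smul_zero, add_zero]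
  zero_mem' := ⟨0, smul_zero _⟩
  smul_mem' := by
    rintro c a ⟨s, hs⟩
    exact ⟨s, by rw [smul_comm, hs, smul_zero]⟩

/-- The inclusion of the torsion part. -/
abbrev tfι (f : A) (M : ModuleCat.{0} A) : ModuleCat.of A (Tf f M) ⟶ M :=
  ModuleCat.ofHom (Tf f M).subtype

lemma tf_reg (f : A) (M : ModuleCat.{0} A) : Reg1 f (Cok (tfι f M)) := by
  intro z hz
  obtain ⟨y, rfl⟩ := cokπ_surj _ z
  rw [← map_smul, cokπ_eq_zero] at hz
  obtain ⟨⟨x, n, hn⟩, hx⟩ := hz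
  refine (cokπ_eq_zero _ y).2 ⟨⟨y, n + 1, ?_⟩, rfl⟩
  change x = f • y at hx
  rw [pow_succ, mul_smul, ← hx, hn]

lemma TorF.div {f : A} {M : Type} [AddCommGroup M] [Module A M] (h : TorF J f M) (m : M) (r : A)
    (hr : r ∈ J) : ∃ (n : ℕ) (m₁ : M), r ^ n • m = f • m₁ := by
  obtain ⟨k, c, hk⟩ := h r hr
  obtain ⟨n, hn⟩ := hk m
  obtain ⟨d, hd⟩ := sub_dvd_pow_sub_pow (r ^ k) (r ^ k - c * f) n
  refine ⟨k * n, (c * d) • m, ?_⟩
  rw [pow_mul, sub_eq_iff_eq_add.1 hd, add_smul, hn, add_zero, smul_smul]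
  congr 1
  ring

variable [IsNoetherianRing A]

lemma TorF.tf {f : A} {M : ModuleCat.{0} A} (h : TorF J f M) (i : ℕ) :
    Van J (i + 1) (ModuleCat.of A (Tf f M)) := by
  refine van_tors J i _ (isTors_of_pow J ?_)
  rintro ⟨m, a, ha⟩ r hr
  obtain ⟨k, c, hk⟩ := h r hr
  obtain ⟨n, hn⟩ := hk m
  refine ⟨k * (n + a), Subtype.ext ?_⟩
  change r ^ (k * (n + a)) • m = 0
  have hI : ∀ x ∈ Ideal.span {(r ^ k - c * f) ^ n, (c * f) ^ a}, x • m = 0 := fun x hx => by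
    obtain ⟨u, v, rfl⟩ := Ideal.mem_span_pair.1 hx
    rw [add_smul, mul_smul, hn, mul_pow, ← mul_assoc, mul_smul, ha, smul_zero, smul_zero, add_zero]
  refine hI _ ?_
  have := Ideal.add_pow_add_pred_mem_of_pow_mem (Ideal.span {(r ^ k - c * f) ^ n, (c * f) ^ a})
    (a := r ^ k - c * f) (b := c * f) (m := n) (n := a) (Ideal.subset_span (by simp))
    (Ideal.subset_span (by simp))
  rw [sub_add_cancel] at this
  rw [pow_mul]
  exact Ideal.pow_mem_of_pow_mem _ this (Nat.sub_le _ _)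

lemma TorF.cok {f : A} {M : ModuleCat.{0} A} (h : TorF J f M) (z : Cok (tfι f M)) (r : A)
    (hr : r ∈ J) : ∃ (n : ℕ) (z₁ : Cok (tfι f M)), r ^ n • z = f • z₁ := by
  obtain ⟨y, rfl⟩ := cokπ_surj _ z
  obtain ⟨n, y₁, hn⟩ := h.div J y r hr
  exact ⟨n, (cokπ _).hom y₁, by rw [← map_smul, hn, map_smul]⟩

lemma TorF.van {f : A} (hf : f ∈ J) {M : ModuleCat.{0} A} (h : TorF J f M) (i : ℕ) :
    Van J (i + 2) M :=
  van_mid J (cokSE (tfι f M) Subtype.val_injective) (h.tf J _)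
    (vanTop1 J hf (tf_reg f M) (h.cok J) i)

lemma TorF.not_inj {f : A} (hf : f ∈ J) {M M' : ModuleCat.{0} A} (h : TorF J f M)
    (h' : TorF J f M') (φ : M ⟶ M') (ξ : M) (h1 : ∀ (n : ℕ) (w : M), f ^ n • (ξ - f • w) ≠ 0)
    (h2 : ∃ (n : ℕ) (w : M'), f ^ n • (φ.hom ξ - f • w) = 0) : ¬ Inj J 1 φ := by
  intro hφ
  let a : ModuleCat.of A (Tf f M) ⟶ ModuleCat.of A (Tf f M') :=
    ModuleCat.ofHom (φ.hom.restrict (by
      rintro m ⟨n, hn⟩
      exact ⟨n, by rw [← map_smul, hn, map_zero]⟩))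
  have sq : a ≫ tfι f M' = tfι f M ≫ φ := rfl
  let ψ := cokMap _ _ a φ sq
  have k1 : Inj J 1 ψ := inj_quot J (cokSE (tfι f M) Subtype.val_injective)
    (cokSE (tfι f M') Subtype.val_injective) (cokHom _ _ a φ sq) (h.tf J 1) (h'.tf J 0) hφ
  have k2 : Inj J 0 (cokMap _ _ ψ ψ (sm_comm f ψ)) :=
    inj_push J (QaSE (tf_reg f M)) (QaSE (tf_reg f M')) (cokHom _ _ ψ ψ (sm_comm f ψ))
      (van0 J hf (tf_reg f M)) k1
  have hT : IsTors J (Qa f (Cok (tfι f M))) := isTors_of_pow J fun z r hr => by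
    obtain ⟨m, rfl⟩ := cokπ_surj _ z
    obtain ⟨n, m₁, hn⟩ := h.cok J m r hr
    exact ⟨n, by rw [← map_smul, Qa_zero]; exact ⟨m₁, hn.symm⟩⟩
  have k3 := inj0_elt J _ k2 ((cokπ _).hom ((cokπ _).hom ξ)) (hT _) (by
    obtain ⟨n, w, hw⟩ := h2
    rw [cokMap_π, Qa_zero]
    refine ⟨(cokπ _).hom w, ?_⟩
    change _ = (cokπ (tfι f M')).hom (φ.hom ξ)
    rw [← map_smul, eq_comm, ← sub_eq_zero, ← map_sub, cokπ_eq_zero]
    exact ⟨⟨_, n, hw⟩, rfl⟩)
  obtain ⟨z, hz⟩ := (Qa_zero _ _ _).1 k3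
  obtain ⟨w, rfl⟩ := cokπ_surj _ z
  rw [← map_smul, eq_comm, ← sub_eq_zero, ← map_sub, cokπ_eq_zero] at hz
  obtain ⟨⟨x, n, hn⟩, hx⟩ := hz
  change x = _ at hx
  exact h1 n w (hx ▸ hn)

end Pool.Agent.Work.MP_34c70a_al.N
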