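import Pool.Agent.Work.MP_34c70a_al.N.HA0

/-! Dimension shifting along a complex with three acyclic terms. -/

set_option autoImplicit false

open CategoryTheory Pool.Agent.Lib.LocalCoh

noncomputable section

namespace Pool.Agent.Work.MP_34c70a_al.N

/-- An augmented complex that is exact at the first two places. -/
structure Cx (A : Type) [CommRing A] where
  M : ModuleCat.{0} A
  C0 : ModuleCat.{0} A
  C1 : ModuleCat.{0} A
  C2 : ModuleCat.{0} A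
  ι : M ⟶ C0
  d0 : C0 ⟶ C1
  d1 : C1 ⟶ C2
  inj : Function.Injective ι.hom
  ex : ∀ x, d0.hom x = 0 ↔ ∃ m, ι.hom m = x
  dd : ∀ x, d1.hom (d0.hom x) = 0

variable {A : Type} [CommRing A] (J : Ideal A)

/-- A map of complexes. -/
structure Cx.Hom (K L : Cx A) where
  φ : K.M ⟶ L.M
  φ0 : K.C0 ⟶ L.C0
  φ1 : K.C1 ⟶ L.C1
  φ2 : K.C2 ⟶ L.C2
  s : φ ≫ L.ι = K.ι ≫ φ0
  s0 : φ0 ≫ L.d0 = K.d0 ≫ φ1
  s1 : φ1 ≫ L.d1 = K.d1 ≫ φ2

namespace Cx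

variable (K : Cx A)

/-- The cocycles. -/
abbrev Z : ModuleCat.{0} A := ModuleCat.of A (LinearMap.ker K.d1.hom)

/-- The inclusion of the cocycles. -/
abbrev ζ : K.Z ⟶ K.C1 := ModuleCat.ofHom (LinearMap.ker K.d1.hom).subtype

/-- The coboundaries inside the cocycles. -/
def u : Cok K.ι ⟶ K.Z :=
  ModuleCat.ofHom ((LinearMap.range K.ι.hom).liftQ (K.d0.hom.codRestrict _ K.dd) (by
    rintro _ ⟨m, rfl⟩
    exact Subtype.ext ((K.ex _).2 ⟨m, rfl⟩)))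

/-- The coboundaries inside the last term. -/
def w : Cok K.ζ ⟶ K.C2 :=
  ModuleCat.ofHom ((LinearMap.range K.ζ.hom).liftQ K.d1.hom (by
    rintro _ ⟨m, rfl⟩
    exact m.2))

lemma u_inj : Function.Injective K.u.hom := by
  rw [injective_iff_map_eq_zero]
  intro z hz
  obtain ⟨y, rfl⟩ := cokπ_surj _ z
  exact (cokπ_eq_zero _ y).2 ((K.ex y).1 (congrArg Subtype.val hz))

lemma w_inj : Function.Injective K.w.hom := by
  rw [injective_iff_map_eq_zero]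
  intro z hz
  obtain ⟨y, rfl⟩ := cokπ_surj _ z
  exact (cokπ_eq_zero _ y).2 ⟨⟨y, hz⟩, rfl⟩

lemma u_range (z : K.Z) : (∃ x, K.u.hom x = z) ↔ ∃ x, K.d0.hom x = z.1 := by
  constructor
  · rintro ⟨x, rfl⟩
    obtain ⟨y, rfl⟩ := cokπ_surj _ x
    exact ⟨y, rfl⟩
  · rintro ⟨x, hx⟩
    exact ⟨(cokπ _).hom x, Subtype.ext hx⟩

lemma w_range (y : K.C2) : (∃ x, K.w.hom x = y) ↔ ∃ x, K.d1.hom x = y := by
  constructor
  · rintro ⟨x, rfl⟩
    obtain ⟨y, rfl⟩ := cokπ_surj _ x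
    exact ⟨y, rfl⟩
  · rintro ⟨x, hx⟩
    exact ⟨(cokπ _).hom x, hx⟩

/-- The three terms are acyclic. -/
def Ac : Prop := Acy J K.C0 ∧ Acy J K.C1 ∧ Acy J K.C2

/-- The element `r` acts nilpotently on both cohomology modules. -/
def Nil (r : A) : Prop :=
  (∀ y : K.C2, ∃ (n : ℕ) (x : K.C1), K.d1.hom x = r ^ n • y) ∧
    ∀ z : K.C1, K.d1.hom z = 0 → ∃ (n : ℕ) (x : K.C0), K.d0.hom x = r ^ n • z

lemma Nil.h1 {K : Cx A} {r : A} (h : K.Nil r) : Tor r (Cok K.u) := by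
  intro z
  obtain ⟨y, rfl⟩ := cokπ_surj _ z
  obtain ⟨n, x, hx⟩ := h.2 y.1 y.2
  exact ⟨n, by rw [← map_smul, cokπ_eq_zero, u_range]; exact ⟨x, hx⟩⟩

lemma Nil.h2 {K : Cx A} {r : A} (h : K.Nil r) : Tor r (Cok K.w) := by
  intro z
  obtain ⟨y, rfl⟩ := cokπ_surj _ z
  obtain ⟨n, x, hx⟩ := h.1 y
  exact ⟨n, by rw [← map_smul, cokπ_eq_zero, w_range]; exact ⟨x, hx⟩⟩

namespace Hom

variable {K} {L : Cx A} (t : K.Hom L)

lemma a0 (x : K.C0) : L.d0.hom (t.φ0.hom x) = t.φ1.hom (K.d0.hom x) :=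
  congrArg (fun ψ => ψ.hom x) t.s0

lemma a1 (x : K.C1) : L.d1.hom (t.φ1.hom x) = t.φ2.hom (K.d1.hom x) :=
  congrArg (fun ψ => ψ.hom x) t.s1

/-- The map on cocycles. -/
def z : K.Z ⟶ L.Z :=
  ModuleCat.ofHom (t.φ1.hom.restrict fun x hx => by
    rw [LinearMap.mem_ker] at hx ⊢
    rw [t.a1, hx, map_zero])

lemma sz : t.z ≫ L.ζ = K.ζ ≫ t.φ1 := rfl

lemma su : cokMap _ _ _ _ t.s ≫ L.u = K.u ≫ t.z := by
  apply ModuleCat.hom_ext
  apply LinearMap.ext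
  intro x
  obtain ⟨y, rfl⟩ := cokπ_surj _ x
  exact Subtype.ext (t.a0 y)

lemma sw : cokMap _ _ _ _ t.sz ≫ L.w = K.w ≫ t.φ2 := by
  apply ModuleCat.hom_ext
  apply LinearMap.ext
  intro x
  obtain ⟨y, rfl⟩ := cokπ_surj _ x
  exact t.a1 y

variable [IsNoetherianRing A]

theorem inj_all (hK : K.Ac J) (hL : L.Ac J) (hn : ∀ r ∈ J, K.Nil r)
    (i1 : ∀ z : K.C1, K.d1.hom z = 0 → (∃ x, L.d0.hom x = t.φ1.hom z) → ∃ x, K.d0.hom x = z)
    (i2 : ∀ y : K.C2, (∃ x, L.d1.hom x = t.φ2.hom y) → ∃ x, K.d1.hom x = y) (i : ℕ) :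
    Inj J i t.φ := by
  have e0 := cokSE K.ι K.inj
  have e0' := cokSE L.ι L.inj
  have eu := cokSE K.u K.u_inj
  have eu' := cokSE L.u L.u_inj
  have ez := cokSE K.ζ Subtype.val_injective
  have ez' := cokSE L.ζ Subtype.val_injective
  have ew := cokSE K.w K.w_inj
  have ew' := cokSE L.w L.w_inj
  have t1 : ∀ n, Van J (n + 1) (Cok K.u) := fun n =>
    van_tors J n _ (isTors_of_pow J fun m r hr => (hn r hr).h1 m)
  have t2 : ∀ n, Van J (n + 1) (Cok K.w) := fun n =>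
    van_tors J n _ (isTors_of_pow J fun m r hr => (hn r hr).h2 m)
  have j1 : Inj J 0 (cokMap _ _ _ _ t.su) := H0_inj J _ (cokMap_inj _ _ _ _ _ fun y x hx =>
    (K.u_range y).2 (i1 y.1 y.2 ((L.u_range _).1 ⟨x, hx⟩)))
  have j2 : Inj J 0 (cokMap _ _ _ _ t.sw) := H0_inj J _ (cokMap_inj _ _ _ _ _ fun y x hx =>
    (K.w_range y).2 (i2 y ((L.w_range _).1 ⟨x, hx⟩)))
  have z0 : Van J 0 K.Z := van0_sub J K.ζ Subtype.val_injective (hK.2.1 0)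
  have z0' : Van J 0 L.Z := van0_sub J L.ζ Subtype.val_injective (hL.2.1 0)
  have z1 : Van J 1 K.Z := van_sub J ez (van0_sub J K.w K.w_inj (hK.2.2 0)) (hK.2.1 1)
  have b1 : Inj J 1 (cokMap _ _ _ _ t.sz) :=
    inj_delta J ew ew' (cokHom _ _ _ _ t.sw) (hK.2.2 1) (hL.2.2 0) j2
  have z2 : Inj J 2 t.z := inj_delta J ez ez' (cokHom _ _ _ _ t.sz) (hK.2.1 2) (hL.2.1 1) b1
  have key : ∀ n, Inj J n (cokMap _ _ _ _ t.s) := fun n =>
    match n with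
    | 0 => inj_of_van J _ (van0_sub J K.u K.u_inj z0)
    | 1 => inj_delta J eu eu' (cokHom _ _ _ _ t.su) z1 z0' j1
    | 2 => inj_of_sq J t.su (inj_sub J eu (t1 0)) z2
    | n + 3 => inj_of_van J _ (van_sub J eu (t1 (n + 1))
        (van_sub J ez (van_sub J ew (t2 n) (hK.2.2 _)) (hK.2.1 _)))
  match i with
  | 0 => exact inj_of_van J _ (van0_sub J K.ι K.inj (hK.1 0))
  | n + 1 => exact inj_delta J e0 e0' (cokHom _ _ _ _ t.s) (hK.1 _) (hL.1 _) (key n)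

theorem not_inj (hK : K.Ac J) {f : A} (hf : f ∈ J)
    (hn : ∀ r ∈ J, ∃ (k : ℕ) (c : A), K.Nil (r ^ k - c * f) ∧ L.Nil (r ^ k - c * f)) (ξ : K.C2)
    (h1 : ∀ (n : ℕ) (w : K.C2) (x : K.C1), K.d1.hom x ≠ f ^ n • (ξ - f • w))
    (h2 : ∃ (n : ℕ) (w : L.C2) (x : L.C1), L.d1.hom x = f ^ n • (t.φ2.hom ξ - f • w)) :
    ¬ Inj J 4 t.φ := by
  intro h4
  have k1 : TorF J f (Cok K.u) := fun r hr => (hn r hr).imp fun _ h => h.imp fun _ h => h.1.h1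
  have k1' : TorF J f (Cok L.u) := fun r hr => (hn r hr).imp fun _ h => h.imp fun _ h => h.2.h1
  have k2 : TorF J f (Cok K.w) := fun r hr => (hn r hr).imp fun _ h => h.imp fun _ h => h.1.h2
  have k2' : TorF J f (Cok L.w) := fun r hr => (hn r hr).imp fun _ h => h.imp fun _ h => h.2.h2
  have b3 : Inj J 3 (cokMap _ _ _ _ t.s) :=
    inj_push J (cokSE K.ι K.inj) (cokSE L.ι L.inj) (cokHom _ _ _ _ t.s) (hK.1 3) h4
  have z3 : Inj J 3 t.z := inj_lift J (cokSE K.u K.u_inj) (cokSE L.u L.u_inj)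
    (cokHom _ _ _ _ t.su) (k1.van J hf 1) (k1'.van J hf 0) b3
  have b2 : Inj J 2 (cokMap _ _ _ _ t.sz) := inj_push J (cokSE K.ζ Subtype.val_injective)
    (cokSE L.ζ Subtype.val_injective) (cokHom _ _ _ _ t.sz) (hK.2.1 2) z3
  have q1 : Inj J 1 (cokMap _ _ _ _ t.sw) := inj_push J (cokSE K.w K.w_inj) (cokSE L.w L.w_inj)
    (cokHom _ _ _ _ t.sw) (hK.2.2 1) b2
  refine k2.not_inj J hf k2' _ ((cokπ _).hom ξ) (fun n w h => ?_) ?_ q1
  · obtain ⟨y, rfl⟩ := cokπ_surj _ w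
    rw [← map_smul, ← map_sub, ← map_smul, cokπ_eq_zero, w_range] at h
    obtain ⟨x, hx⟩ := h
    exact h1 n y x hx
  · obtain ⟨n, w, x, hx⟩ := h2
    refine ⟨n, (cokπ _).hom w, ?_⟩
    rw [cokMap_π, ← map_smul, ← map_sub, ← map_smul, cokπ_eq_zero, w_range]
    exact ⟨x, hx⟩

end Hom

end Cx

end Pool.Agent.Work.MP_34c70a_al.N
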